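import Pool.Agent.W2helper3.Cone.Core

set_option autoImplicit false

/-! # Transfer to Euclidean space -/

namespace Pool.Agent.W2helper3.Cone

open MeasureTheory Set Metric Filter Pool.Agent.TH703.Cone
open scoped ENNReal InnerProductSpace Topology Pointwise

section conj

variable {E F : Type*} [NormedAddCommGroup E] [InnerProductSpace ℝ E] [FiniteDimensional ℝ E]
  [NormedAddCommGroup F] [InnerProductSpace ℝ F] [FiniteDimensional ℝ F]

/-- conjugate of a field -/
def cj (e : E ≃ₗᵢ[ℝ] F) (φ : E → E) (y : F) : F := e (φ (e.symm y))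

omit [FiniteDimensional ℝ E] [FiniteDimensional ℝ F] in
lemma tst_cj (e : E ≃ₗᵢ[ℝ] F) {Ω : Set E} {φ : E → E} (h : Tst Ω φ) :
    Tst (e.symm ⁻¹' Ω) (cj e φ) := by
  refine ⟨?_, ?_, ?_, ?_⟩
  · exact e.contDiff.comp (h.c1.comp e.symm.contDiff)
  · have h1 : HasCompactSupport (fun y : F => φ (e.symm y)) :=
      h.cs.comp_homeomorph e.symm.toHomeomorph
    exact h1.comp_left (g := fun v => e v) (map_zero e)
  · have h1 : tsupport (cj e φ) ⊆ e.symm ⁻¹' tsupport φ := by
      refine closure_minimal ?_ ((isClosed_tsupport φ).preimage e.symm.continuous)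
      intro y hy
      apply subset_tsupport
      rw [Function.mem_support] at hy ⊢
      intro h0
      apply hy
      unfold cj
      rw [h0, map_zero]
    exact h1.trans (preimage_mono h.sub)
  · intro y
    unfold cj
    rw [e.norm_map]
    exact h.le _

omit [FiniteDimensional ℝ E] [FiniteDimensional ℝ F] in
lemma dv_cj (e : E ≃ₗᵢ[ℝ] F) {φ : E → E} (h : Differentiable ℝ φ) (y : F) :
    dv (cj e φ) y = dv φ (e.symm y) := by
  have h1 : HasFDerivAt (cj e φ) ((e.toContinuousLinearEquiv : E →L[ℝ] F).comp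
      ((fderiv ℝ φ (e.symm y)).comp (e.symm.toContinuousLinearEquiv : F →L[ℝ] E))) y := by
    have h2 : HasFDerivAt (fun y : F => e.symm y)
        (e.symm.toContinuousLinearEquiv : F →L[ℝ] E) y :=
      e.symm.toContinuousLinearEquiv.hasFDerivAt
    have h3 : HasFDerivAt φ (fderiv ℝ φ (e.symm y)) (e.symm y) := (h _).hasFDerivAt
    exact (e.toContinuousLinearEquiv.hasFDerivAt (x := φ (e.symm y))).comp y (h3.comp y h2)
  unfold dv
  rw [h1.fderiv, ← LinearMap.trace_conj' (fderiv ℝ φ (e.symm y)).toLinearMap e.toLinearEquiv]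
  congr 1

variable [MeasurableSpace E] [BorelSpace E] [MeasurableSpace F] [BorelSpace F]

lemma int_cj (e : E ≃ₗᵢ[ℝ] F) {φ : E → E} (h : Differentiable ℝ φ) (A : Set E) :
    ∫ y in e.symm ⁻¹' A, dv (cj e φ) y = ∫ x in A, dv φ x := by
  have h1 := e.symm.measurePreserving.setIntegral_preimage_emb
    e.symm.toMeasurableEquiv.measurableEmbedding (fun x => dv φ x) A
  rw [← h1]
  congr 1
  ext y
  exact dv_cj e h y

lemma vol_cj (e : E ≃ₗᵢ[ℝ] F) (A : Set E) : volume (e.symm ⁻¹' A) = volume A :=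
  e.symm.measurePreserving.measure_preimage_equiv (f := e.symm.toMeasurableEquiv) A

end conj

theorem final (c : ℝ) (hc0 : 0 < c)
    (H : ∀ (n : ℕ) (Ω E : Set (EuclideanSpace ℝ (Fin n))),
        IsOpen Ω → Ω.Nonempty → Convex ℝ Ω → Bornology.IsBounded Ω →
        (∀ x ∈ Ω, -x ∈ Ω) →
        MeasurableSet E → E ⊆ Ω →
        MeasureTheory.volume E = MeasureTheory.volume Ω / 2 →
        (∀ F : Set (EuclideanSpace ℝ (Fin n)), MeasurableSet F → F ⊆ Ω →
          MeasureTheory.volume F = MeasureTheory.volume E →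
          ∀ φ : EuclideanSpace ℝ (Fin n) → EuclideanSpace ℝ (Fin n),
            ContDiff ℝ 1 φ → HasCompactSupport φ → tsupport φ ⊆ Ω →
            (∀ x, ‖φ x‖ ≤ 1) →
            ∀ ε : ℝ, 0 < ε →
              ∃ ψ : EuclideanSpace ℝ (Fin n) → EuclideanSpace ℝ (Fin n),
                ContDiff ℝ 1 ψ ∧ HasCompactSupport ψ ∧ tsupport ψ ⊆ Ω ∧
                (∀ x, ‖ψ x‖ ≤ 1) ∧
                (∫ x in E, LinearMap.trace ℝ (EuclideanSpace ℝ (Fin n))
                    (fderiv ℝ φ x).toLinearMap) ≤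
                  (∫ x in F, LinearMap.trace ℝ (EuclideanSpace ℝ (Fin n))
                    (fderiv ℝ ψ x).toLinearMap) + ε) →
        ∃ Γ : ConvexCone ℝ (EuclideanSpace ℝ (Fin n)),
          MeasureTheory.volume ((Ω ∩ (Γ : Set (EuclideanSpace ℝ (Fin n)))) \ E) = 0 ∧
          MeasureTheory.volume ((Ω ∩ {x | -x ∈ Γ}) ∩ E) = 0 ∧
          ENNReal.ofReal c * MeasureTheory.volume Ω ≤
            MeasureTheory.volume (Ω ∩ (Γ : Set (EuclideanSpace ℝ (Fin n))))) : False := by
  set c' : ℝ := min c 1 with hc'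
  have hc'0 : 0 < c' := lt_min hc0 one_pos
  obtain ⟨b, ε, hb, hε, A, I, hAm, hAO, hAv, hAI, hmin, hG⟩ := core c' hc'0 (min_le_right _ _)
  set n := Module.finrank ℝ (W b) with hn
  set e : W b ≃ₗᵢ[ℝ] EuclideanSpace ℝ (Fin n) := (stdOrthonormalBasis ℝ (W b)).repr with he
  have hOo := isOpen_Om b ε
  obtain ⟨Γ, h1, h2, h3⟩ := H n (e.symm ⁻¹' Om b ε) (e.symm ⁻¹' A)
    (hOo.preimage e.symm.continuous)
    ⟨e 0, by rw [mem_preimage, e.symm_apply_apply]; exact zero_mem_Om b ε⟩
    ((convex_Om b hε).linear_preimage e.symm.toLinearEquiv.toLinearMap)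
    (by
      have h4 : e.symm ⁻¹' Om b ε = e '' Om b ε := by
        ext y
        constructor
        · intro hy
          exact ⟨e.symm y, hy, e.apply_symm_apply y⟩
        · rintro ⟨x, hx, rfl⟩
          rw [mem_preimage, e.symm_apply_apply]
          exact hx
      rw [h4]
      exact e.lipschitz.isBounded_image (bounded_Om b hε))
    (fun x hx => by
      rw [mem_preimage, map_neg]
      exact neg_mem_Om hx)
    (e.symm.continuous.measurable hAm)
    (preimage_mono hAO)
    (by rw [vol_cj, vol_cj, hAv])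
    (by
      intro F hFm hFO hFv φ p1 p2 p3 p4 δ hδ
      by_contra hcon
      push Not at hcon
      -- the corresponding objects on `W b`
      set F₀ : Set (W b) := e ⁻¹' F with hF₀
      have hF₀F : e.symm ⁻¹' F₀ = F := by
        ext y
        rw [mem_preimage, hF₀, mem_preimage, e.apply_symm_apply]
      have hF₀m : MeasurableSet F₀ := e.continuous.measurable hFm
      have hF₀O : F₀ ⊆ Om b ε := by
        intro x hx
        have := hFO hx
        rwa [mem_preimage, e.symm_apply_apply] at this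
      have hF₀v : volume F₀ = volume A := by
        rw [← vol_cj e F₀, hF₀F, hFv, vol_cj]
      set Q : ℝ := (∫ x in e.symm ⁻¹' A, dv φ x) - δ with hQ
      have hPQ : PLE (Om b ε) F₀ Q := by
        intro χ hχ
        have hT := tst_cj e hχ
        have h5 := hcon (cj e χ) hT.c1 hT.cs hT.sub hT.le
        have h6 := int_cj e (hχ.c1.differentiable (by norm_num)) F₀
        rw [hF₀F] at h6
        have h7 : ∫ x in F, dv (cj e χ) x + δ = ∫ x in F, (dv (cj e χ) x + δ) := rfl
        have h8 : (∫ x in F, dv (cj e χ) x) + δ < ∫ x in e.symm ⁻¹' A, dv φ x := h5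
        rw [h6] at h8
        linarith
      have hIQ := hmin F₀ Q hF₀m hF₀O hF₀v hPQ
      -- the field `φ` on `W b`
      have hTφ : Tst (e.symm ⁻¹' Om b ε) φ := ⟨p1, p2, p3, p4⟩
      have hT2 := tst_cj e.symm hTφ
      have h9 : e.symm.symm ⁻¹' (e.symm ⁻¹' Om b ε) = Om b ε := by
        ext x
        have h13 : e.symm (e.symm.symm x) = x := e.symm_apply_apply x
        rw [mem_preimage, mem_preimage, h13]
      rw [h9] at hT2
      have h10 := hAI _ hT2
      have h11 := int_cj e.symm (p1.differentiable (by norm_num)) (e.symm ⁻¹' A)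
      have h12 : e.symm.symm ⁻¹' (e.symm ⁻¹' A) = A := by
        ext x
        have h13 : e.symm (e.symm.symm x) = x := e.symm_apply_apply x
        rw [mem_preimage, mem_preimage, h13]
      rw [h12] at h11
      rw [h11] at h10
      linarith)
  -- the cone
  set C : Set (W b) := e ⁻¹' (Γ : Set (EuclideanSpace ℝ (Fin n))) with hC
  have hCc : Convex ℝ C := Γ.convex.linear_preimage e.toLinearEquiv.toLinearMap
  have hCs : ∀ z ∈ C, ∀ t : ℝ, 0 < t → t • z ∈ C := by
    intro z hz t ht
    rw [hC, mem_preimage, map_smul]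
    exact Γ.smul_mem ht hz
  have hCa : ∀ z ∈ C, ∀ w ∈ C, z + w ∈ C := by
    intro z hz w hw
    rw [hC, mem_preimage, map_add]
    exact Γ.add_mem hz hw
  set G : Set (W b) := interior C with hGd
  have hGs : ∀ z ∈ G, ∀ t : ℝ, 0 < t → t • z ∈ G := by
    intro z hz t ht
    have h4 : IsOpen (t • G) := isOpen_interior.smul₀ ht.ne'
    have h5 : t • G ⊆ C := by
      rintro _ ⟨w, hw, rfl⟩
      exact hCs w (interior_subset hw) t ht
    exact interior_maximal h5 h4 ⟨z, hz, rfl⟩
  have hGa : ∀ z ∈ G, ∀ w ∈ G, z + w ∈ G := by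
    intro z hz w hw
    have h4 : IsOpen (G + G) := isOpen_interior.add_left
    have h5 : G + G ⊆ C := by
      rintro _ ⟨z, hz, w, hw, rfl⟩
      exact hCa z (interior_subset hz) w (interior_subset hw)
    exact interior_maximal h5 h4 ⟨z, hz, w, hw, rfl⟩
  have hpre : ∀ S : Set (EuclideanSpace ℝ (Fin n)), volume (e ⁻¹' S) = volume S := by
    intro S
    exact e.measurePreserving.measure_preimage_equiv (f := e.toMeasurableEquiv) S
  have hmem : ∀ (S : Set (W b)) (z : W b), e z ∈ e.symm ⁻¹' S ↔ z ∈ S := by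
    intro S z
    rw [mem_preimage, e.symm_apply_apply]
  refine hG G isOpen_interior hGs hGa ?_ ?_ ?_
  · have h4 : (Om b ε ∩ G) \ A ⊆ e ⁻¹' ((e.symm ⁻¹' Om b ε ∩ Γ) \ e.symm ⁻¹' A) := by
      rintro z ⟨⟨g1, g2⟩, g3⟩
      have g4 : z ∈ C := interior_subset g2
      exact ⟨⟨(hmem _ z).2 g1, g4⟩, fun h => g3 ((hmem _ z).1 h)⟩
    refine measure_mono_null h4 ?_
    rw [hpre]
    exact h1
  · have h4 : (Om b ε ∩ {z | -z ∈ G}) ∩ A ⊆ e ⁻¹' ((e.symm ⁻¹' Om b ε ∩ {x | -x ∈ Γ}) ∩
        e.symm ⁻¹' A) := by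
      rintro z ⟨⟨g1, g2⟩, g3⟩
      refine ⟨⟨(hmem _ z).2 g1, ?_⟩, (hmem _ z).2 g3⟩
      have h4 : -z ∈ C := interior_subset (show -z ∈ interior C from g2)
      have h5 : e (-z) ∈ Γ := h4
      rw [map_neg] at h5
      exact h5
    refine measure_mono_null h4 ?_
    rw [hpre]
    exact h2
  · have h4 : ENNReal.ofReal c' * volume (Om b ε) ≤ volume (Om b ε ∩ C) := by
      have h5 : volume (e.symm ⁻¹' Om b ε ∩ (Γ : Set (EuclideanSpace ℝ (Fin n)))) =
          volume (Om b ε ∩ C) := by
        rw [← hpre]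
        congr 1
        ext z
        rw [mem_preimage, mem_inter_iff, hmem, mem_inter_iff]
        exact Iff.rfl
      rw [h5, vol_cj] at h3
      refine le_trans ?_ h3
      gcongr
      exact min_le_left _ _
    refine h4.trans ?_
    have h6 : Om b ε ∩ C ⊆ (Om b ε ∩ G) ∪ frontier C := by
      rintro z ⟨g1, g2⟩
      by_cases g3 : z ∈ G
      · exact Or.inl ⟨g1, g3⟩
      · exact Or.inr ⟨subset_closure g2, g3⟩
    calc volume (Om b ε ∩ C) ≤ volume ((Om b ε ∩ G) ∪ frontier C) := measure_mono h6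
      _ ≤ volume (Om b ε ∩ G) + volume (frontier C) := measure_union_le _ _
      _ = volume (Om b ε ∩ G) := by rw [hCc.addHaar_frontier volume, add_zero]

end Pool.Agent.W2helper3.Cone
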