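import Pool.Agent.TH703.Cone.Stm

set_option autoImplicit false

/-! # The body `Om b ε`: elementary geometry and Fubini -/

namespace Pool.Agent.W2helper3.Cone

open MeasureTheory Set Metric Pool.Agent.TH703.Cone
open scoped ENNReal Pointwise

/-- the point with the given coordinates -/
def mk {b : ℕ} (x : ℂ) (y : B b) : W b := WithLp.toLp 2 (x, y)

@[simp] lemma mk_fst {b : ℕ} (x : ℂ) (y : B b) : (mk x y).fst = x := rfl
@[simp] lemma mk_snd {b : ℕ} (x : ℂ) (y : B b) : (mk x y).snd = y := rfl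

lemma continuous_mk {b : ℕ} : Continuous (fun p : ℂ × B b => mk p.1 p.2) := by
  unfold mk
  exact (WithLp.prod_continuous_toLp 2 ℂ (B b))

lemma measurable_mk {b : ℕ} : Measurable (fun p : ℂ × B b => mk p.1 p.2) :=
  continuous_mk.measurable

lemma continuous_fst {b : ℕ} : Continuous (fun z : W b => z.fst) :=
  _root_.continuous_fst.comp (WithLp.prod_continuous_ofLp 2 ℂ (B b))

lemma continuous_snd {b : ℕ} : Continuous (fun z : W b => z.snd) :=
  _root_.continuous_snd.comp (WithLp.prod_continuous_ofLp 2 ℂ (B b))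

lemma isOpen_Om (b : ℕ) (ε : ℝ) : IsOpen (Om b ε) := by
  unfold Om
  exact isOpen_lt (continuous_fst.norm.add (continuous_snd.norm.div_const _)) continuous_const

lemma mem_Om {b : ℕ} {ε : ℝ} {z : W b} : z ∈ Om b ε ↔ ‖z.fst‖ + ‖z.snd‖ / ε < 1 := Iff.rfl

lemma convex_Om (b : ℕ) {ε : ℝ} (hε : 0 < ε) : Convex ℝ (Om b ε) := by
  intro z hz w hw s t hs ht hst
  rw [mem_Om] at *
  have h1 : ‖(s • z + t • w).fst‖ ≤ s * ‖z.fst‖ + t * ‖w.fst‖ := by
    calc ‖(s • z + t • w).fst‖ = ‖s • z.fst + t • w.fst‖ := rfl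
      _ ≤ ‖s • z.fst‖ + ‖t • w.fst‖ := norm_add_le _ _
      _ = _ := by rw [norm_smul, norm_smul, Real.norm_of_nonneg hs, Real.norm_of_nonneg ht]
  have h2 : ‖(s • z + t • w).snd‖ ≤ s * ‖z.snd‖ + t * ‖w.snd‖ := by
    calc ‖(s • z + t • w).snd‖ = ‖s • z.snd + t • w.snd‖ := rfl
      _ ≤ ‖s • z.snd‖ + ‖t • w.snd‖ := norm_add_le _ _
      _ = _ := by rw [norm_smul, norm_smul, Real.norm_of_nonneg hs, Real.norm_of_nonneg ht]
  have h3 : ‖(s • z + t • w).snd‖ / ε ≤ s * (‖z.snd‖ / ε) + t * (‖w.snd‖ / ε) := by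
    rw [div_le_iff₀ hε]
    field_simp
    exact h2
  have h4 : s * (‖z.fst‖ + ‖z.snd‖ / ε) + t * (‖w.fst‖ + ‖w.snd‖ / ε) < 1 := by
    rcases hs.eq_or_lt with h | h
    · subst h
      have : t = 1 := by linarith
      subst this
      linarith
    · nlinarith
  linarith

lemma bounded_Om (b : ℕ) {ε : ℝ} (hε : 0 < ε) : Bornology.IsBounded (Om b ε) := by
  refine (isBounded_iff_forall_norm_le).2 ⟨1 + ε, fun z hz => ?_⟩
  rw [mem_Om] at hz
  have h1 : z = mk z.fst 0 + mk 0 z.snd := by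
    apply WithLp.ofLp_injective 2
    refine Prod.ext ?_ ?_
    · change z.fst = z.fst + 0
      rw [add_zero]
    · change z.snd = 0 + z.snd
      rw [zero_add]
  have h2 : ‖(mk z.fst 0 : W b)‖ = ‖z.fst‖ := by
    simp [mk]
  have h3 : ‖(mk 0 z.snd : W b)‖ = ‖z.snd‖ := by
    simp [mk]
  have h4 : ‖z.snd‖ / ε < 1 := by linarith [norm_nonneg z.fst]
  rw [div_lt_one hε] at h4
  have h5 : ‖z.fst‖ < 1 := by
    have : 0 ≤ ‖z.snd‖ / ε := by positivity
    linarith
  calc ‖z‖ = ‖mk z.fst 0 + mk 0 z.snd‖ := by rw [← h1]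
    _ ≤ ‖(mk z.fst 0 : W b)‖ + ‖(mk 0 z.snd : W b)‖ := norm_add_le _ _
    _ ≤ 1 + ε := by rw [h2, h3]; linarith

lemma zero_mem_Om (b : ℕ) (ε : ℝ) : (0 : W b) ∈ Om b ε := by
  rw [mem_Om]; simp

lemma neg_mem_Om {b : ℕ} {ε : ℝ} {z : W b} (hz : z ∈ Om b ε) : -z ∈ Om b ε := by
  rw [mem_Om] at *
  simpa using hz

lemma vol_Om_ne_top (b : ℕ) {ε : ℝ} (hε : 0 < ε) : volume (Om b ε) ≠ ⊤ :=
  (bounded_Om b hε).measure_lt_top.ne

/-- Fubini for nonnegative functions -/
lemma lintegral_W {b : ℕ} {f : W b → ℝ≥0∞} (hf : Measurable f) :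
    ∫⁻ z, f z = ∫⁻ x : ℂ, ∫⁻ y : B b, f (mk x y) := by
  have h := (WithLp.volume_preserving_toLp ℂ (B b)).lintegral_comp hf
  rw [← h]
  change ∫⁻ p : ℂ × B b, f (mk p.1 p.2) = _
  have e : (volume : Measure (ℂ × B b)) = (volume : Measure ℂ).prod (volume : Measure (B b)) := rfl
  have h2 : Measurable (fun p : ℂ × B b => f (mk p.1 p.2)) := hf.comp measurable_mk
  rw [e, lintegral_prod _ h2.aemeasurable]

lemma lintegral_W' {b : ℕ} {f : W b → ℝ≥0∞} (hf : Measurable f) :
    ∫⁻ z, f z = ∫⁻ y : B b, ∫⁻ x : ℂ, f (mk x y) := by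
  rw [lintegral_W hf]
  exact lintegral_lintegral_swap (hf.comp measurable_mk).aemeasurable

lemma measurable_fib_vol {b : ℕ} {S : Set (W b)} (hS : MeasurableSet S) :
    Measurable (fun x : ℂ => volume (fib S x)) := by
  have h : MeasurableSet ((fun p : ℂ × B b => mk p.1 p.2) ⁻¹' S) := measurable_mk hS
  exact measurable_measure_prodMk_left h

lemma measurableSet_fib {b : ℕ} {S : Set (W b)} (hS : MeasurableSet S) (x : ℂ) :
    MeasurableSet (fib S x) := by
  have h : MeasurableSet ((fun p : ℂ × B b => mk p.1 p.2) ⁻¹' S) := measurable_mk hS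
  exact measurable_prodMk_left h

/-- volumes by fibres -/
lemma volume_eq_fib {b : ℕ} {S : Set (W b)} (hS : MeasurableSet S) :
    volume S = ∫⁻ x : ℂ, volume (fib S x) := by
  rw [← lintegral_indicator_one hS, lintegral_W (measurable_one.indicator hS)]
  refine lintegral_congr fun x => ?_
  rw [← lintegral_indicator_one (measurableSet_fib hS x)]
  rfl

/-- volumes by fibres, over a set of base points -/
lemma volume_inter_fst {b : ℕ} {S : Set (W b)} (hS : MeasurableSet S) {T : Set ℂ}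
    (hT : MeasurableSet T) :
    volume {z | z ∈ S ∧ z.fst ∈ T} = ∫⁻ x in T, volume (fib S x) := by
  have h1 : MeasurableSet {z : W b | z ∈ S ∧ z.fst ∈ T} :=
    hS.inter (continuous_fst.measurable hT)
  rw [volume_eq_fib h1, ← lintegral_indicator hT]
  refine lintegral_congr fun x => ?_
  by_cases hx : x ∈ T
  · rw [indicator_of_mem hx]
    congr 1
    ext y
    simp only [fib, mem_ofPred_eq]
    exact ⟨fun h => h.1, fun h => ⟨h, hx⟩⟩
  · rw [indicator_of_notMem hx]
    have : fib {z : W b | z ∈ S ∧ z.fst ∈ T} x = ∅ := by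
      ext y
      simp only [fib, mem_ofPred_eq, mem_empty_iff_false, iff_false]
      intro h
      exact hx h.2
    rw [this, measure_empty]

lemma fib_Om {b : ℕ} {ε : ℝ} (hε : 0 < ε) (x : ℂ) :
    fib (Om b ε) x = ball (0 : B b) (ε * (1 - ‖x‖)) := by
  ext y
  simp only [fib, Om, mem_ofPred_eq, mem_ball_zero_iff]
  change ‖x‖ + ‖y‖ / ε < 1 ↔ _
  rw [← lt_sub_iff_add_lt', div_lt_iff₀ hε, mul_comm]

lemma vb_pos (b : ℕ) {ε : ℝ} (hε : 0 < ε) : 0 < vb b ε := by
  unfold vb
  exact ENNReal.toReal_pos (measure_ball_pos _ _ hε).ne' measure_ball_lt_top.ne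

lemma volume_ball_scale (b : ℕ) {ε t : ℝ} (hb : 1 ≤ b) (hε : 0 < ε) (ht : 0 ≤ t) :
    volume (ball (0 : B b) (ε * t)) = ENNReal.ofReal (vb b ε * t ^ b) := by
  have hfr : Module.finrank ℝ (B b) = b := by simp
  rcases ht.eq_or_lt with h | h
  · subst h
    simp [zero_pow (by omega : b ≠ 0)]
  · have h1 : ball (0 : B b) (ε * t) = t • ball (0 : B b) ε := by
      rw [_root_.smul_ball h.ne', smul_zero, Real.norm_of_nonneg h.le, mul_comm]
    rw [h1, Measure.addHaar_smul, hfr, abs_of_nonneg (by positivity), mul_comm (vb b ε),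
      ENNReal.ofReal_mul (by positivity)]
    congr 1
    unfold vb
    rw [Measure.real, ENNReal.ofReal_toReal measure_ball_lt_top.ne]

lemma volume_fib_Om {b : ℕ} {ε : ℝ} (hb : 1 ≤ b) (hε : 0 < ε) (x : ℂ) :
    volume (fib (Om b ε) x) =
      (ball (0 : ℂ) 1).indicator (fun x => ENNReal.ofReal (vb b ε * (1 - ‖x‖) ^ b)) x := by
  rw [fib_Om hε]
  by_cases hx : x ∈ ball (0 : ℂ) 1
  · rw [indicator_of_mem hx]
    rw [mem_ball_zero_iff] at hx
    exact volume_ball_scale b hb hε (by linarith)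
  · rw [indicator_of_notMem hx]
    rw [mem_ball_zero_iff, not_lt] at hx
    rw [ball_eq_empty.2 (mul_nonpos_of_nonneg_of_nonpos hε.le (by linarith)), measure_empty]

theorem t7a : S_T7a := by
  intro b ε hb hε f hf
  have hm : Measurable (fun z : W b => f z.fst) := hf.comp continuous_fst.measurable
  rw [← lintegral_indicator (isOpen_Om b ε).measurableSet,
    lintegral_W (hm.indicator (isOpen_Om b ε).measurableSet),
    ← lintegral_const_mul' _ _ ENNReal.ofReal_ne_top,
    ← lintegral_indicator measurableSet_ball]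
  refine lintegral_congr fun x => ?_
  have h1 : ∀ y : B b, (Om b ε).indicator (fun z => f z.fst) (mk x y) =
      (fib (Om b ε) x).indicator (fun _ => f x) y := by
    intro y
    by_cases h : mk x y ∈ Om b ε
    · rw [indicator_of_mem h, indicator_of_mem (show y ∈ fib (Om b ε) x from h)]
      rfl
    · rw [indicator_of_notMem h, indicator_of_notMem (show y ∉ fib (Om b ε) x from h)]
  simp_rw [h1]
  rw [lintegral_indicator_const (measurableSet_fib (isOpen_Om b ε).measurableSet x),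
    volume_fib_Om hb hε]
  by_cases hx : x ∈ ball (0 : ℂ) 1
  · rw [indicator_of_mem hx, indicator_of_mem hx]
    rw [mem_ball_zero_iff] at hx
    rw [ENNReal.ofReal_mul (vb_pos b hε).le]
    ring
  · rw [indicator_of_notMem hx, indicator_of_notMem hx, mul_zero]

end Pool.Agent.W2helper3.Cone
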