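import Pool.Agent.W2helper3.Cone.Vol

set_option autoImplicit false

/-! # The cap estimate -/

namespace Pool.Agent.W2helper3.Cone

open MeasureTheory Set Metric Filter Pool.Agent.TH703.Cone
open scoped ENNReal InnerProductSpace Topology

variable {b : ℕ}

/-- second moments of a ball in a fixed direction -/
noncomputable def sm (b : ℕ) (R : ℝ) (n : B b) : ℝ≥0∞ :=
  ∫⁻ y in ball (0 : B b) R, ENNReal.ofReal (⟪n, y⟫_ℝ ^ 2)

lemma sm_congr {R : ℝ} {n m : B b} (h : ‖n‖ = ‖m‖) : sm b R n = sm b R m := by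
  unfold sm
  set e : B b ≃ₗᵢ[ℝ] B b := (ℝ ∙ (n - m))ᗮ.reflection with he
  have hen : e n = m := Submodule.reflection_sub h
  have h1 := e.measurePreserving.setLIntegral_comp_preimage_emb
    e.toMeasurableEquiv.measurableEmbedding (fun y => ENNReal.ofReal (⟪m, y⟫_ℝ ^ 2)) (ball 0 R)
  have h2 : e ⁻¹' ball (0 : B b) R = ball (0 : B b) R := by
    ext y
    simp
  rw [h2] at h1
  rw [← h1]
  refine lintegral_congr fun y => ?_
  rw [← hen, e.inner_map_map]

lemma sm_le (hb : 1 ≤ b) {R : ℝ} (hR : 0 < R) {n : B b} (hn : ‖n‖ = 1) :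
    (b : ℝ≥0∞) * sm b R n ≤ ENNReal.ofReal (R ^ 2) * volume (ball (0 : B b) R) := by
  set e := EuclideanSpace.basisFun (Fin b) ℝ with he
  have h1 : ∑ i : Fin b, sm b R (e i) = (b : ℝ≥0∞) * sm b R n := by
    have : ∀ i : Fin b, sm b R (e i) = sm b R n := fun i =>
      sm_congr (by rw [hn, e.norm_eq_one])
    rw [Finset.sum_congr rfl fun i _ => this i, Finset.sum_const, Finset.card_univ,
      Fintype.card_fin, nsmul_eq_mul]
  rw [← h1]
  unfold sm
  rw [← lintegral_finsetSum]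
  · calc ∫⁻ y in ball (0 : B b) R, ∑ i : Fin b, ENNReal.ofReal (⟪e i, y⟫_ℝ ^ 2)
        ≤ ∫⁻ y in ball (0 : B b) R, ENNReal.ofReal (R ^ 2) := by
          apply setLIntegral_mono' measurableSet_ball
          intro y hy
          rw [← ENNReal.ofReal_sum_of_nonneg (fun i _ => sq_nonneg _)]
          apply ENNReal.ofReal_le_ofReal
          rw [e.sum_sq_inner_right y]
          rw [mem_ball_zero_iff] at hy
          have := norm_nonneg y
          nlinarith
      _ = _ := by rw [setLIntegral_const]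
  · intro i _
    have : Continuous (fun y : B b => ⟪e i, y⟫_ℝ ^ 2) := by fun_prop
    exact this.measurable.ennreal_ofReal

/-- the cap estimate -/
lemma cap (hb : 1 ≤ b) {R h : ℝ} (hR : 0 < R) (hh : 0 < h) {S : Set (B b)} (hSo : IsOpen S)
    (hSc : Convex ℝ S) (hSR : S ⊆ ball 0 R) (hd : ∀ y ∈ S, h < ‖y‖) :
    volume S ≤ ENNReal.ofReal (R ^ 2 / (b * h ^ 2)) * volume (ball (0 : B b) R) := by
  rcases S.eq_empty_or_nonempty with rfl | ⟨y₀, hy₀⟩
  · simp
  have hbpos : (0 : ℝ) < b := by exact_mod_cast hb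
  have hdisj : Disjoint S (closedBall (0 : B b) h) := by
    rw [Set.disjoint_left]
    intro y hy hy2
    rw [mem_closedBall_zero_iff] at hy2
    exact absurd (hd y hy) (not_lt.2 hy2)
  obtain ⟨f, s, hf1, hf2⟩ := geometric_hahn_banach_open hSc hSo (convex_closedBall 0 h) hdisj
  -- the dual vector
  set n : B b := (InnerProductSpace.toDual ℝ (B b)).symm (-f) with hn
  have hin : ∀ y, ⟪n, y⟫_ℝ = - f y := by
    intro y
    rw [hn, InnerProductSpace.toDual_symm_apply]
    rfl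
  have hn0 : n ≠ 0 := by
    intro h0
    have h1 := hf1 y₀ hy₀
    have h2 := hf2 0 (mem_closedBall_self hh.le)
    have h3 := hin y₀
    rw [h0, inner_zero_left] at h3
    rw [map_zero] at h2
    linarith
  have hnn : 0 < ‖n‖ := norm_pos_iff.2 hn0
  have hs : s ≤ - (h * ‖n‖) := by
    have h1 : (h / ‖n‖) • n ∈ closedBall (0 : B b) h := by
      rw [mem_closedBall_zero_iff, norm_smul, Real.norm_of_nonneg (by positivity)]
      rw [div_mul_cancel₀ _ hnn.ne']
    have h2 := hf2 _ h1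
    have h3 := hin ((h / ‖n‖) • n)
    rw [inner_smul_right, real_inner_self_eq_norm_sq] at h3
    have h4 : h / ‖n‖ * ‖n‖ ^ 2 = h * ‖n‖ := by field_simp
    rw [h4] at h3
    linarith
  set m : B b := (‖n‖⁻¹) • n with hm
  have hm1 : ‖m‖ = 1 := by
    rw [hm, norm_smul, norm_inv, norm_norm, inv_mul_cancel₀ hnn.ne']
  have hSm : ∀ y ∈ S, h ≤ ⟪m, y⟫_ℝ := by
    intro y hy
    rw [hm, real_inner_smul_left, hin]
    have h1 := hf1 y hy
    rw [← div_eq_inv_mul, le_div_iff₀ hnn]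
    linarith
  have hmeas : Measurable (fun y : B b => ENNReal.ofReal (⟪m, y⟫_ℝ ^ 2)) := by
    have : Continuous (fun y : B b => ⟪m, y⟫_ℝ ^ 2) := by fun_prop
    exact this.measurable.ennreal_ofReal
  have h1 : ENNReal.ofReal (h ^ 2) * volume S ≤ sm b R m := by
    unfold sm
    calc ENNReal.ofReal (h ^ 2) * volume S = ∫⁻ y in S, ENNReal.ofReal (h ^ 2) := by
          rw [setLIntegral_const]
      _ ≤ ∫⁻ y in S, ENNReal.ofReal (⟪m, y⟫_ℝ ^ 2) := by
          apply setLIntegral_mono' hSo.measurableSet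
          intro y hy
          apply ENNReal.ofReal_le_ofReal
          have := hSm y hy
          nlinarith
      _ ≤ _ := lintegral_mono_set hSR
  have h2 := sm_le hb hR hm1
  have hb0 : (b : ℝ≥0∞) ≠ 0 := by exact_mod_cast (by omega : b ≠ 0)
  have h3 : ENNReal.ofReal (b * h ^ 2) * volume S ≤ ENNReal.ofReal (R ^ 2) * volume (ball (0 : B b) R) := by
    calc ENNReal.ofReal (b * h ^ 2) * volume S = (b : ℝ≥0∞) * (ENNReal.ofReal (h ^ 2) * volume S) := by
          rw [ENNReal.ofReal_mul hbpos.le, ENNReal.ofReal_natCast, mul_assoc]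
      _ ≤ (b : ℝ≥0∞) * sm b R m := by gcongr
      _ ≤ _ := h2
  have h4 : 0 < (b : ℝ) * h ^ 2 := by positivity
  have h5 : ENNReal.ofReal (b * h ^ 2) ≠ 0 := by
    rw [Ne, ENNReal.ofReal_eq_zero, not_le]; exact h4
  rw [ENNReal.ofReal_div_of_pos h4, ENNReal.div_eq_inv_mul, mul_assoc]
  rw [← ENNReal.div_eq_inv_mul, ENNReal.le_div_iff_mul_le (Or.inl h5)
    (Or.inl ENNReal.ofReal_ne_top), mul_comm]
  exact h3

end Pool.Agent.W2helper3.Cone
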