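import Pool.Agent.W2helper3.Cone.Vol
import Pool.Agent.TH703.Cone.Trans

set_option autoImplicit false

/-! # T5: the fibres are almost full or almost empty -/

namespace Pool.Agent.W2helper3.Cone

open MeasureTheory Set Metric Pool.Agent.TH703.Cone
open scoped ENNReal

lemma mk_norm_zero_left {b : ℕ} (w : B b) : ‖(mk 0 w : W b)‖ = ‖w‖ := by
  simp [mk]

theorem t5 : S_T5 := by
  intro b ε P A hb hε hA hAO hP h
  have hD : MeasurableSet (Om b ε \ A) := (isOpen_Om b ε).measurableSet.diff hA
  set D : Set (W b) := Om b ε \ A with hDdef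
  have hcont : Continuous (fun p : B b × (ℂ × B b) => mk p.2.1 (p.2.2 + p.1)) :=
    continuous_mk.comp (f := fun p : B b × (ℂ × B b) => (p.2.1, p.2.2 + p.1)) (by fun_prop)
  have hcont' : Continuous (fun p : B b × (ℂ × B b) => mk p.2.1 p.2.2) :=
    continuous_mk.comp (f := fun p : B b × (ℂ × B b) => (p.2.1, p.2.2)) (by fun_prop)
  set F : B b → ℂ → B b → ℝ≥0∞ := fun w x y =>
    A.indicator (fun _ => 1) (mk x y) * D.indicator (fun _ => 1) (mk x (y + w)) with hF
  have hFm : Measurable (fun p : B b × (ℂ × B b) => F p.1 p.2.1 p.2.2) := by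
    simp only [hF]
    exact ((measurable_const.indicator hA).comp hcont'.measurable).mul
      ((measurable_const.indicator hD).comp hcont.measurable)
  have h1 : ∀ x : ℂ, volume (fib A x) * volume (fib D x) = ∫⁻ y : B b, ∫⁻ w : B b, F w x y := by
    intro x
    have h2 : ∀ y : B b, ∫⁻ w : B b, F w x y = (fib A x).indicator (fun _ => volume (fib D x)) y := by
      intro y
      have h3 : ∫⁻ w : B b, D.indicator (fun _ => (1 : ℝ≥0∞)) (mk x (y + w)) = volume (fib D x) := by
        have h4 : ∀ w : B b, D.indicator (fun _ => (1 : ℝ≥0∞)) (mk x (y + w)) =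
            (fib D x).indicator 1 (y + w) := fun w => rfl
        simp_rw [h4]
        rw [lintegral_add_left_eq_self (fun w => (fib D x).indicator 1 w) y,
          lintegral_indicator_one (measurableSet_fib hD x)]
      simp only [hF]
      by_cases hy : mk x y ∈ A
      · rw [indicator_of_mem (show y ∈ fib A x from hy)]
        simp only [indicator_of_mem hy, one_mul]
        exact h3
      · rw [indicator_of_notMem (show y ∉ fib A x from hy)]
        simp only [indicator_of_notMem hy, zero_mul, lintegral_zero]
    simp_rw [h2]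
    rw [lintegral_indicator_const (measurableSet_fib hA x), mul_comm]
  simp_rw [h1]
  -- swap
  have h5 : ∫⁻ x : ℂ, ∫⁻ y : B b, ∫⁻ w : B b, F w x y = ∫⁻ w : B b, ∫⁻ x : ℂ, ∫⁻ y : B b, F w x y := by
    have h6 : ∀ x : ℂ, ∫⁻ y : B b, ∫⁻ w : B b, F w x y = ∫⁻ w : B b, ∫⁻ y : B b, F w x y := by
      intro x
      apply lintegral_lintegral_swap
      apply Measurable.aemeasurable
      exact hFm.comp (f := fun q : B b × B b => (q.2, (x, q.1))) (by fun_prop)
    simp_rw [h6]
    apply lintegral_lintegral_swap
    apply Measurable.aemeasurable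
    have h7 : Measurable (fun q : (ℂ × B b) × B b => F q.1.2 q.1.1 q.2) :=
      hFm.comp (f := fun q : (ℂ × B b) × B b => (q.1.2, (q.1.1, q.2))) (by fun_prop)
    exact h7.lintegral_prod_right'
  rw [h5]
  have h8 : ∀ w : B b, ∫⁻ x : ℂ, ∫⁻ y : B b, F w x y ≤
      (ball (0 : B b) (ε * 2)).indicator (fun _ => ENNReal.ofReal (2 * ε * P)) w := by
    intro w
    have hS : MeasurableSet {z : W b | z ∈ A ∧ z + mk 0 w ∈ D} :=
      hA.inter ((continuous_id.add continuous_const).measurable hD)
    have h9 : ∫⁻ x : ℂ, ∫⁻ y : B b, F w x y = volume {z : W b | z ∈ A ∧ z + mk 0 w ∈ D} := by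
      rw [← lintegral_indicator_one hS, lintegral_W (measurable_one.indicator hS)]
      refine lintegral_congr fun x => lintegral_congr fun y => ?_
      have h10 : mk x y + mk 0 w = mk x (y + w) := by
        change mk (x + 0) (y + w) = _
        rw [add_zero]
      simp only [hF]
      by_cases hy : mk x y ∈ A
      · by_cases hy2 : mk x (y + w) ∈ D
        · rw [indicator_of_mem hy, indicator_of_mem hy2, indicator_of_mem]
          · simp
          · exact ⟨hy, by rw [h10]; exact hy2⟩
        · rw [indicator_of_notMem hy2, mul_zero]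
          symm
          apply indicator_of_notMem
          intro hh
          apply hy2
          rw [← h10]
          exact hh.2
      · rw [indicator_of_notMem hy, zero_mul]
        symm
        apply indicator_of_notMem
        intro hh
        exact hy hh.1
    rw [h9]
    by_cases hw : w ∈ ball (0 : B b) (ε * 2)
    · rw [indicator_of_mem hw]
      have h11 := t1 (W b) (Om b ε) A P (mk 0 w) (isOpen_Om b ε) (convex_Om b hε)
        (bounded_Om b hε) hA hAO hP h
      refine h11.trans (ENNReal.ofReal_le_ofReal ?_)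
      rw [mk_norm_zero_left]
      rw [mem_ball_zero_iff] at hw
      nlinarith
    · rw [indicator_of_notMem hw]
      have : {z : W b | z ∈ A ∧ z + mk 0 w ∈ D} = ∅ := by
        rw [eq_empty_iff_forall_notMem]
        rintro z ⟨hz1, hz2⟩
        apply hw
        have h12 : ∀ z : W b, z ∈ Om b ε → ‖z.snd‖ < ε := by
          intro z hz
          rw [mem_Om] at hz
          have : ‖z.snd‖ / ε < 1 := by linarith [norm_nonneg z.fst]
          rwa [div_lt_one hε] at this
        have h13 := h12 z (hAO hz1)
        have h14 := h12 _ hz2.1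
        have h15 : (z + mk 0 w).snd = z.snd + w := rfl
        rw [h15] at h14
        rw [mem_ball_zero_iff]
        calc ‖w‖ = ‖(z.snd + w) - z.snd‖ := by rw [add_sub_cancel_left]
          _ ≤ ‖z.snd + w‖ + ‖z.snd‖ := norm_sub_le _ _
          _ < ε * 2 := by linarith
      rw [this, measure_empty]
  calc ∫⁻ w : B b, ∫⁻ x : ℂ, ∫⁻ y : B b, F w x y
      ≤ ∫⁻ w : B b, (ball (0 : B b) (ε * 2)).indicator (fun _ => ENNReal.ofReal (2 * ε * P)) w :=
        lintegral_mono h8
    _ = ENNReal.ofReal (2 * ε * P) * volume (ball (0 : B b) (ε * 2)) :=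
        lintegral_indicator_const measurableSet_ball _
    _ = ENNReal.ofReal (2 ^ (b + 1) * ε * vb b ε * P) := by
        rw [volume_ball_scale b hb hε (by norm_num), ← ENNReal.ofReal_mul (by positivity)]
        congr 1
        ring

end Pool.Agent.W2helper3.Cone
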