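import Mathlib

set_option autoImplicit false

/-! # Numerics -/

namespace Pool.Agent.W2helper3.Cone

open Set

lemma exp_168 : (536 / 100 : ℝ) ≤ Real.exp (168 / 100) := by
  have h := Real.sum_le_exp_of_nonneg (show (0 : ℝ) ≤ 168 / 100 by norm_num) 8
  refine le_trans ?_ h
  norm_num [Finset.sum_range_succ, Nat.factorial]

lemma pow_le_exp {x : ℝ} (hx : x ≤ 1) (n : ℕ) : (1 - x) ^ n ≤ Real.exp (-(n * x)) := by
  have h1 : 1 - x ≤ Real.exp (-x) := Real.one_sub_le_exp_neg x
  calc (1 - x) ^ n ≤ (Real.exp (-x)) ^ n := pow_le_pow_left₀ (by linarith) h1 n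
    _ = Real.exp (-(n * x)) := by rw [← Real.exp_nat_mul]; congr 1; ring

/-- the half-volume radius -/
lemma half_radius {b : ℕ} (hb : 100 ≤ b) : ∃ r : ℝ, 0 < r ∧ r ≤ 168 / 100 / (b + 1) ∧
    (1 - r) ^ (b + 1) * (1 + (b + 1) * r) = 1 / 2 := by
  have hbr : (100 : ℝ) ≤ b := by exact_mod_cast hb
  set f : ℝ → ℝ := fun r => (1 - r) ^ (b + 1) * (1 + (b + 1) * r) with hf
  have hfc : Continuous f := by simp only [hf]; fun_prop
  set R : ℝ := 168 / 100 / (b + 1) with hR
  have hR0 : 0 < R := by positivity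
  have hR1 : R ≤ 1 := by
    rw [hR, div_le_one (by positivity)]; linarith
  have hfR : f R ≤ 1 / 2 := by
    simp only [hf]
    have h1 := pow_le_exp hR1 (b + 1)
    have h2 : ((b + 1 : ℕ) : ℝ) * R = 168 / 100 := by
      rw [hR]; push_cast; field_simp
    rw [h2] at h1
    have h3 : 1 + ((b : ℝ) + 1) * R = 268 / 100 := by
      have : ((b : ℝ) + 1) * R = 168 / 100 := by rw [← h2]; push_cast; ring
      rw [this]; norm_num
    rw [h3]
    have h4 : Real.exp (-(168 / 100)) ≤ 100 / 536 := by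
      rw [Real.exp_neg]
      have := exp_168
      calc (Real.exp (168 / 100))⁻¹ ≤ (536 / 100 : ℝ)⁻¹ := inv_anti₀ (by norm_num) this
        _ = 100 / 536 := by norm_num
    have h5 := h1.trans h4
    linarith
  have hf0 : f 0 = 1 := by simp [hf]
  have hmem : (1 / 2 : ℝ) ∈ Icc (f R) (f 0) := ⟨hfR, by rw [hf0]; norm_num⟩
  obtain ⟨r, hr, hfr⟩ := intermediate_value_Icc' hR0.le hfc.continuousOn hmem
  refine ⟨r, ?_, hr.2, hfr⟩
  rcases hr.1.eq_or_lt with h | h
  · rw [← h, hf0] at hfr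
    norm_num at hfr
  · exact h

lemma exp_neg5 : Real.exp (-5) ≤ 7 / 1000 := by
  have h1 : (2.7182818283 : ℝ) < Real.exp 1 := Real.exp_one_gt_d9
  have h2 : Real.exp 5 = (Real.exp 1) ^ 5 := by
    rw [← Real.exp_nat_mul]; norm_num
  have h3 : (2.7 : ℝ) ^ 5 ≤ Real.exp 5 := by
    rw [h2]
    apply pow_le_pow_left₀ (by norm_num)
    linarith
  rw [Real.exp_neg]
  have h4 : (1000 / 7 : ℝ) ≤ Real.exp 5 := le_trans (by norm_num) h3
  calc (Real.exp 5)⁻¹ ≤ (1000 / 7 : ℝ)⁻¹ := inv_anti₀ (by norm_num) h4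
    _ = 7 / 1000 := by norm_num

/-- the numerical contradiction -/
lemma num {b : ℕ} (hb : 50000 ≤ b) {r : ℝ} (hr0 : 0 < r) (hr1 : r ≤ 168 / 100 / (b + 1))
    (hr : (1 - r) ^ (b + 1) * (1 + (b + 1) * r) = 1 / 2) :
    1005 / 1000 * (2 * Real.pi * r * (1 - r) ^ b) <
      2 * (((1 - 1 / (1000 * (b + 1))) ^ (b + 1) - (1 - 5 / b) ^ (b + 1)) / (b + 1) : ℝ) := by
  have hbr : (50000 : ℝ) ≤ b := by exact_mod_cast hb
  have hb1 : (0 : ℝ) < b + 1 := by linarith
  have hrs : r ≤ 1 / 10000 := by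
    refine hr1.trans ?_
    rw [div_le_div_iff₀ hb1 (by norm_num)]
    linarith
  set s : ℝ := (b + 1) * r with hs
  have hs0 : 0 < s := by positivity
  have hs1 : s ≤ 168 / 100 := by
    rw [hs]
    have := mul_le_mul_of_nonneg_left hr1 hb1.le
    refine this.trans (le_of_eq ?_)
    field_simp
  -- the right radius
  have h1 : (1 - r) ^ b = 1 / (2 * (1 + s) * (1 - r)) := by
    have hne : (1 - r) ≠ 0 := by linarith
    rw [eq_div_iff (by positivity)]
    rw [pow_succ] at hr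
    linear_combination 2 * hr
  have hpi : Real.pi < 3.1416 := Real.pi_lt_d4
  have hpi0 := Real.pi_pos
  have h2 : 2 * Real.pi * r * (1 - r) ^ b = Real.pi / (b + 1) * (s / (1 + s)) / (1 - r) := by
    have hne : (1 - r) ≠ 0 := by linarith
    have hr' : r = s / (b + 1) := by rw [hs]; field_simp
    rw [h1]
    have h3 : (1 + s) ≠ 0 := by positivity
    calc 2 * Real.pi * r * (1 / (2 * (1 + s) * (1 - r))) = Real.pi * r / ((1 + s) * (1 - r)) := by
          field_simp
      _ = Real.pi * (s / (b + 1)) / ((1 + s) * (1 - r)) := by rw [← hr']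
      _ = _ := by field_simp
  have h3 : s / (1 + s) ≤ 168 / 268 := by
    rw [div_le_div_iff₀ (by positivity) (by norm_num)]
    linarith
  have h4 : 1 / (1 - r) ≤ 10001 / 10000 + 1 / 10000 := by
    rw [div_le_iff₀ (by linarith)]
    nlinarith
  have h5 : 2 * Real.pi * r * (1 - r) ^ b ≤ 19705 / 10000 / (b + 1) := by
    rw [h2]
    have h6 : Real.pi / (b + 1) * (s / (1 + s)) / (1 - r) =
        (Real.pi * (s / (1 + s)) * (1 / (1 - r))) / (b + 1) := by field_simp
    rw [h6]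
    gcongr
    have h7 : 0 < 1 / (1 - r) := by
      have : 0 < 1 - r := by linarith
      positivity
    calc Real.pi * (s / (1 + s)) * (1 / (1 - r)) ≤ 3.1416 * (168 / 268) * (10001 / 10000 + 1 / 10000) := by
          gcongr
      _ ≤ 19705 / 10000 := by norm_num
  -- the left-hand side
  have h6 : (999 / 1000 : ℝ) ≤ (1 - 1 / (1000 * (b + 1))) ^ (b + 1) := by
    have h7 := one_add_mul_le_pow (a := -(1 / (1000 * ((b : ℝ) + 1)))) (by
      have : 1 / (1000 * ((b : ℝ) + 1)) ≤ 1 := by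
        rw [div_le_one (by positivity)]; linarith
      linarith) (b + 1)
    have h8 : 1 + ((b + 1 : ℕ) : ℝ) * -(1 / (1000 * ((b : ℝ) + 1))) = 999 / 1000 := by
      push_cast
      field_simp
      norm_num
    rw [h8] at h7
    simpa [sub_eq_add_neg] using h7
  have h7 : (1 - 5 / (b : ℝ)) ^ (b + 1) ≤ 7 / 1000 := by
    have hb0 : (0 : ℝ) < b := by linarith
    have h8 := pow_le_exp (x := 5 / (b : ℝ)) (by rw [div_le_one hb0]; linarith) (b + 1)
    refine h8.trans (le_trans ?_ exp_neg5)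
    apply Real.exp_le_exp.2
    push_cast
    have : (5 : ℝ) ≤ (b + 1) * (5 / b) := by
      rw [mul_div_assoc', le_div_iff₀ hb0]
      nlinarith
    linarith
  calc 1005 / 1000 * (2 * Real.pi * r * (1 - r) ^ b) ≤ 1005 / 1000 * (19705 / 10000 / (b + 1)) := by
        gcongr
    _ = (1005 / 1000 * (19705 / 10000)) / (b + 1) := by ring
    _ < (2 * (999 / 1000 - 7 / 1000)) / (b + 1) := by
        apply div_lt_div_of_pos_right _ hb1
        norm_num
    _ = 2 * ((999 / 1000 - 7 / 1000) / (b + 1)) := by ring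
    _ ≤ _ := by gcongr

end Pool.Agent.W2helper3.Cone
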