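import Pool.Agent.W2helper3.Cone.Rot

set_option autoImplicit false

/-! # T4: passage to the limit -/

namespace Pool.Agent.W2helper3.Cone

open MeasureTheory Set Metric Filter Pool.Agent.TH703.Cone
open scoped ENNReal InnerProductSpace Topology

variable {b : ℕ}

lemma Hf_lim {ε r₀ R₁ : ℝ} (hε : 0 < ε) (h0 : 0 < r₀) (hR : R₁ < 1) (z : W b) :
    Tendsto (fun n : ℕ => Hf b ε r₀ R₁ (1 / ((n : ℝ) + 1)) z) atTop
      (𝓝 ({z : W b | z ∈ Om b ε ∧ r₀ < ‖z.fst‖ ∧ ‖z.fst‖ < R₁}.indicator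
        (fun z => 1 / ‖z.fst‖) z)) := by
  have hδ : ∀ n : ℕ, (0 : ℝ) < 1 / ((n : ℝ) + 1) := fun n => by positivity
  by_cases hz : z ∈ Om b ε ∧ r₀ < ‖z.fst‖ ∧ ‖z.fst‖ < R₁
  · rw [indicator_of_mem (show z ∈ {z : W b | z ∈ Om b ε ∧ r₀ < ‖z.fst‖ ∧ ‖z.fst‖ < R₁} from hz)]
    obtain ⟨h1, h2, h3⟩ := hz
    have hTh : 0 < Th b ε z := by
      rw [mem_Om] at h1
      unfold Th
      have h4 : ‖z.snd‖ / ε < 1 - ‖z.fst‖ := by linarith
      rw [div_lt_iff₀ hε] at h4
      have h5 : 0 ≤ ‖z.snd‖ := norm_nonneg _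
      nlinarith
    have hlim : Tendsto (fun n : ℕ => 1 / ((n : ℝ) + 1)) atTop (𝓝 0) :=
      tendsto_one_div_add_atTop_nhds_zero_nat
    have e1 : ∀ᶠ n : ℕ in atTop, 1 / ((n : ℝ) + 1) < ‖z.fst‖ - r₀ :=
      hlim.eventually_lt_const (by linarith)
    have e2 : ∀ᶠ n : ℕ in atTop, 1 / ((n : ℝ) + 1) < R₁ - ‖z.fst‖ :=
      hlim.eventually_lt_const (by linarith)
    have e3 : ∀ᶠ n : ℕ in atTop, 1 / ((n : ℝ) + 1) < Th b ε z / 2 :=
      hlim.eventually_lt_const (by linarith)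
    apply tendsto_const_nhds.congr'
    filter_upwards [e1, e2, e3] with n g1 g2 g3
    unfold Hf chi
    rw [stp_one (hδ n) (by linarith), stp_one (r := 1 / ((n : ℝ) + 1)) (hδ n) (by linarith),
      stp_zero (hδ n) (by linarith)]
    norm_num
  · rw [indicator_of_notMem (show z ∉ {z : W b | z ∈ Om b ε ∧ r₀ < ‖z.fst‖ ∧ ‖z.fst‖ < R₁} from hz)]
    apply tendsto_const_nhds.congr
    intro n
    by_contra hc
    obtain ⟨g1, g2, g3⟩ := Hf_supp (hδ n) (Ne.symm hc)
    exact hz ⟨Cc_subset hε hR (hδ n) ⟨g1.le, g2.le, g3.le⟩, g1, g2⟩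

lemma integral_lim {ε r₀ R₁ : ℝ} (hb : 1 ≤ b) (hε : 0 < ε) (h0 : 0 < r₀) (h1 : r₀ < R₁)
    (hR : R₁ < 1) :
    ∫ z, {z : W b | z ∈ Om b ε ∧ r₀ < ‖z.fst‖ ∧ ‖z.fst‖ < R₁}.indicator
        (fun z => 1 / ‖z.fst‖) z = vb b ε * (2 * Real.pi * ∫ y in r₀..R₁, (1 - y) ^ b) := by
  have hvb := vb_pos b hε
  have hOm : MeasurableSet (Om b ε) := (isOpen_Om b ε).measurableSet
  set T : Set ℂ := {x | r₀ < ‖x‖ ∧ ‖x‖ < R₁} with hT
  have hTm : MeasurableSet T := (measurableSet_lt measurable_const measurable_norm).inter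
    (measurableSet_lt measurable_norm measurable_const)
  set T' : Set ℂ := {x | r₀ ≤ ‖x‖ ∧ ‖x‖ < R₁} with hT'
  have hT'm : MeasurableSet T' := (measurableSet_le measurable_const measurable_norm).inter
    (measurableSet_lt measurable_norm measurable_const)
  have hTT : (T : Set ℂ) =ᵐ[volume] T' := by
    have h2 : T' \ T ⊆ sphere 0 r₀ := by
      rintro x ⟨⟨hx1, hx2⟩, hx3⟩
      rw [mem_sphere_zero_iff_norm]
      by_contra hne
      exact hx3 ⟨lt_of_le_of_ne hx1 (Ne.symm hne), hx2⟩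
    have h3 : T ⊆ T' := fun x hx => ⟨hx.1.le, hx.2⟩
    have h4 : volume (T' \ T) = 0 := measure_mono_null h2 (Measure.addHaar_sphere _ _ _)
    exact (h3.eventuallyLE).antisymm (ae_le_set.2 h4)
  have e1 : ∀ z : W b, {z : W b | z ∈ Om b ε ∧ r₀ < ‖z.fst‖ ∧ ‖z.fst‖ < R₁}.indicator
        (fun z => 1 / ‖z.fst‖) z = (Om b ε).indicator (fun z => T.indicator
          (fun x => 1 / ‖x‖) z.fst) z := by
    intro z
    by_cases hz : z ∈ Om b ε
    · rw [indicator_of_mem hz]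
      by_cases hz2 : z.fst ∈ T
      · rw [indicator_of_mem hz2]
        exact indicator_of_mem (s := {z : W b | z ∈ Om b ε ∧ r₀ < ‖z.fst‖ ∧ ‖z.fst‖ < R₁})
          ⟨hz, hz2⟩ _
      · rw [indicator_of_notMem hz2]
        exact indicator_of_notMem (s := {z : W b | z ∈ Om b ε ∧ r₀ < ‖z.fst‖ ∧ ‖z.fst‖ < R₁})
          (fun h => hz2 h.2) _
    · rw [indicator_of_notMem hz]
      exact indicator_of_notMem (s := {z : W b | z ∈ Om b ε ∧ r₀ < ‖z.fst‖ ∧ ‖z.fst‖ < R₁})
          (fun h => hz h.1) _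
  simp_rw [e1]
  rw [integral_indicator hOm]
  have hg0 : ∀ x : ℂ, 0 ≤ T.indicator (fun x => 1 / ‖x‖) x := by
    intro x
    exact indicator_nonneg (fun y _ => by positivity) _
  have hgm : Measurable (fun x : ℂ => T.indicator (fun x => 1 / ‖x‖) x) :=
    (measurable_const.div measurable_norm).indicator hTm
  rw [integral_eq_lintegral_of_nonneg_ae (Eventually.of_forall fun z => hg0 _)
    (hgm.comp continuous_fst.measurable).aestronglyMeasurable]
  have e2 := t7a b ε hb hε (fun x => ENNReal.ofReal (T.indicator (fun x => 1 / ‖x‖) x))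
    hgm.ennreal_ofReal
  rw [e2]
  have e3 : ∫⁻ x in ball (0 : ℂ) 1, ENNReal.ofReal (T.indicator (fun x => 1 / ‖x‖) x) *
      ENNReal.ofReal ((1 - ‖x‖) ^ b) = ∫⁻ x in T, ENNReal.ofReal ((1 / ‖x‖) * (1 - ‖x‖) ^ b) := by
    rw [← lintegral_indicator measurableSet_ball, ← lintegral_indicator hTm]
    refine lintegral_congr fun x => ?_
    by_cases hx : x ∈ T
    · have hx1 : x ∈ ball (0 : ℂ) 1 := by
        rw [mem_ball_zero_iff]; exact hx.2.trans hR
      rw [indicator_of_mem hx, indicator_of_mem hx1, indicator_of_mem hx,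
        ENNReal.ofReal_mul (by positivity)]
    · rw [indicator_of_notMem hx]
      by_cases hx1 : x ∈ ball (0 : ℂ) 1
      · rw [indicator_of_mem hx1, indicator_of_notMem hx]
        simp
      · rw [indicator_of_notMem hx1]
  rw [e3, setLIntegral_congr hTT, ← ofReal_integral_eq_lintegral_ofReal]
  · rw [integral_annulus h0.le h1.le (fun t => 1 / t * (1 - t) ^ b), ENNReal.toReal_mul,
      ENNReal.toReal_ofReal hvb.le]
    have e4 : ∫ y in r₀..R₁, y * (1 / y * (1 - y) ^ b) = ∫ y in r₀..R₁, (1 - y) ^ b := by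
      apply intervalIntegral.integral_congr
      intro y hy
      rw [uIcc_of_le h1.le] at hy
      have hy0 : y ≠ 0 := (h0.trans_le hy.1).ne'
      change y * (1 / y * (1 - y) ^ b) = (1 - y) ^ b
      field_simp
    rw [e4, ENNReal.toReal_ofReal]
    have h5 : 0 ≤ ∫ y in r₀..R₁, (1 - y) ^ b := by
      apply intervalIntegral.integral_nonneg h1.le
      intro y hy
      have h7 : 0 ≤ 1 - y := by linarith [hy.2]
      positivity
    have := Real.pi_pos
    positivity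
  · have hc : ContinuousOn (fun x : ℂ => 1 / ‖x‖ * (1 - ‖x‖) ^ b) {x : ℂ | r₀ ≤ ‖x‖ ∧ ‖x‖ ≤ R₁} := by
      apply ContinuousOn.mul
      · apply ContinuousOn.div continuousOn_const continuous_norm.continuousOn
        intro x hx
        exact (h0.trans_le hx.1).ne'
      · fun_prop
    have hcomp : IsCompact {x : ℂ | r₀ ≤ ‖x‖ ∧ ‖x‖ ≤ R₁} := by
      apply isCompact_of_isClosed_isBounded
      · exact (isClosed_le continuous_const continuous_norm).inter
          (isClosed_le continuous_norm continuous_const)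
      · apply (isBounded_closedBall (x := (0 : ℂ)) (r := R₁)).subset
        intro x hx
        rw [mem_closedBall_zero_iff]
        exact hx.2
    exact (hc.integrableOn_compact hcomp).mono_set fun x hx => ⟨hx.1, hx.2.le⟩
  · rw [Filter.EventuallyLE, ae_restrict_iff' hT'm]
    refine Filter.Eventually.of_forall fun x hx => ?_
    have h2 : 0 ≤ 1 - ‖x‖ := by linarith [hx.2]
    change 0 ≤ 1 / ‖x‖ * (1 - ‖x‖) ^ b
    positivity

theorem t4 : S_T4 := by
  intro b ε P A u σ r₀ R₁ hb hε hA hAO hP hu hσ hσ1 h0 h1 hR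
  have hOm : MeasurableSet (Om b ε) := (isOpen_Om b ε).measurableSet
  have hδ : ∀ n : ℕ, (0 : ℝ) < 1 / ((n : ℝ) + 1) := fun n => by positivity
  have hlim : Tendsto (fun n : ℕ => ∫ z, Hf b ε r₀ R₁ (1 / ((n : ℝ) + 1)) z) atTop
      (𝓝 (∫ z, {z : W b | z ∈ Om b ε ∧ r₀ < ‖z.fst‖ ∧ ‖z.fst‖ < R₁}.indicator
        (fun z => 1 / ‖z.fst‖) z)) := by
    apply tendsto_integral_of_dominated_convergence ((Om b ε).indicator (fun _ => 1 / r₀))
    · intro n
      exact (continuous_Hf h0 (hδ n)).aestronglyMeasurable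
    · exact (integrable_indicator_iff hOm).2 (integrableOn_const (vol_Om_ne_top b hε) (by simp))
    · intro n
      refine Eventually.of_forall fun z => ?_
      rw [Real.norm_of_nonneg (Hf_nonneg _ _ _ _ _)]
      by_cases hz : z ∈ Om b ε
      · rw [indicator_of_mem hz]
        exact Hf_le h0 (hδ n) z
      · rw [indicator_of_notMem hz]
        by_contra hc
        have hne : Hf b ε r₀ R₁ (1 / ((n : ℝ) + 1)) z ≠ 0 := fun h => hc h.le
        obtain ⟨g1, g2, g3⟩ := Hf_supp (hδ n) hne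
        exact hz (Cc_subset hε hR (hδ n) ⟨g1.le, g2.le, g3.le⟩)
    · exact Eventually.of_forall fun z => Hf_lim hε h0 hR z
  rw [integral_lim hb hε h0 h1 hR] at hlim
  have h2 := le_of_tendsto' (hlim.const_mul (1 / Real.pi)) fun n =>
    t4_approx hε hA hAO hP hu hσ hσ1 h0 hR (hδ n)
  have hpi := Real.pi_pos
  have h3 : 1 / Real.pi * (vb b ε * (2 * Real.pi * ∫ y in r₀..R₁, (1 - y) ^ b)) =
      vb b ε * (2 * ∫ y in r₀..R₁, (1 - y) ^ b) := by
    field_simp
  rw [h3] at h2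
  exact h2

end Pool.Agent.W2helper3.Cone
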