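import Pool.Agent.W2helper3.Cone.Six
import Pool.Agent.W2helper3.Cone.Rot2
import Pool.Agent.W2helper3.Cone.Fib
import Pool.Agent.W2helper3.Cone.Num
import Pool.Agent.TH703.Cone.Exist

set_option autoImplicit false

/-! # The core of the disproof -/

namespace Pool.Agent.W2helper3.Cone

open MeasureTheory Set Metric Filter Pool.Agent.TH703.Cone
open scoped ENNReal InnerProductSpace Topology Pointwise

lemma measurableSet_Wp (u : ℂ) (σ r₀ R₁ : ℝ) : MeasurableSet (Wp u σ r₀ R₁) := by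
  have e : Wp u σ r₀ R₁ = {x | r₀ ≤ ‖x‖} ∩ ({x | ‖x‖ ≤ R₁} ∩ ({x | 0 < (x * u).re} ∩
        {x | |(x * u).im| ≤ σ * ‖x‖})) := rfl
  rw [e]
  refine (measurableSet_le measurable_const measurable_norm).inter
      ((measurableSet_le measurable_norm measurable_const).inter
      ((measurableSet_lt measurable_const ?_).inter (measurableSet_le ?_ ?_)))
  · exact (Complex.continuous_re.comp (continuous_id.mul continuous_const)).measurable
  · exact (Complex.continuous_im.comp (continuous_id.mul continuous_const)).abs.measurable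
  · exact measurable_const.mul measurable_norm

/-- the wedge estimate: if the fibres of `X` are large over `U`, then the complementary set `Y` has
small volume over `U` -/
lemma wedge_est {b : ℕ} {ε P η : ℝ} (hε : 0 < ε) (hη : 0 < η)
    {X Y : Set (W b)} (hY : MeasurableSet Y) {U : Set ℂ}
    (hU : MeasurableSet U) (hfin : volume {z | z ∈ Y ∧ z.fst ∈ U} ≠ ⊤) (hP : 0 ≤ P)
    (hlarge : ∀ᵐ x : ℂ, x ∈ U → ENNReal.ofReal (η * vb b ε) ≤ volume (fib X x))
    (h5 : ∫⁻ x : ℂ, volume (fib X x) * volume (fib Y x) ≤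
      ENNReal.ofReal (2 ^ (b + 1) * ε * vb b ε * P)) :
    volume.real {z | z ∈ Y ∧ z.fst ∈ U} ≤ 2 ^ (b + 1) * ε * P / η := by
  have hvb := vb_pos b hε
  have h1 : ENNReal.ofReal (η * vb b ε) * volume {z | z ∈ Y ∧ z.fst ∈ U} ≤
      ENNReal.ofReal (2 ^ (b + 1) * ε * vb b ε * P) := by
    rw [volume_inter_fst hY hU, ← lintegral_const_mul' _ _ ENNReal.ofReal_ne_top,
      ← lintegral_indicator hU]
    refine le_trans (lintegral_mono_ae ?_) h5
    filter_upwards [hlarge] with x hx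
    by_cases hxU : x ∈ U
    · rw [indicator_of_mem hxU]
      gcongr
      exact hx hxU
    · rw [indicator_of_notMem hxU]
      exact bot_le
  have h2 : ENNReal.ofReal (η * vb b ε) * volume {z | z ∈ Y ∧ z.fst ∈ U} =
      ENNReal.ofReal (η * vb b ε * volume.real {z | z ∈ Y ∧ z.fst ∈ U}) := by
    rw [ENNReal.ofReal_mul (p := η * vb b ε) (by positivity), Measure.real,
      ENNReal.ofReal_toReal hfin]
  rw [h2, ENNReal.ofReal_le_ofReal_iff (by positivity)] at h1
  rw [le_div_iff₀ hη]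
  have h3 : vb b ε * (volume.real {z | z ∈ Y ∧ z.fst ∈ U} * η) ≤
      vb b ε * (2 ^ (b + 1) * ε * P) := by linarith
  exact le_of_mul_le_mul_left h3 hvb

lemma fib_mono_ae {b : ℕ} {S A : Set (W b)} (hS : MeasurableSet S) (hA : MeasurableSet A)
    (h : volume (S \ A) = 0) : ∀ᵐ x : ℂ, volume (fib S x) ≤ volume (fib A x) := by
  have h1 : ∫⁻ x : ℂ, volume (fib (S \ A) x) = 0 := by
    rw [← volume_eq_fib (hS.diff hA), h]
  rw [lintegral_eq_zero_iff (measurable_fib_vol (hS.diff hA))] at h1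
  filter_upwards [h1] with x hx
  have hx' : volume (fib (S \ A) x) = 0 := hx
  have h2 : fib S x ⊆ fib A x ∪ fib (S \ A) x := by
    intro y hy
    by_cases hyA : mk x y ∈ A
    · exact Or.inl hyA
    · exact Or.inr ⟨hy, hyA⟩
  calc volume (fib S x) ≤ volume (fib A x ∪ fib (S \ A) x) := measure_mono h2
    _ ≤ volume (fib A x) + volume (fib (S \ A) x) := measure_union_le _ _
    _ = volume (fib A x) := by rw [hx', add_zero]

lemma fib_neg {b : ℕ} (S : Set (W b)) (x : ℂ) :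
    volume (fib {z | -z ∈ S} x) = volume (fib S (-x)) := by
  have h1 : fib {z | -z ∈ S} x = -(fib S (-x)) := by
    ext y
    rw [Set.mem_neg]
    exact Iff.rfl
  rw [h1, Measure.measure_neg]

theorem core (c : ℝ) (hc0 : 0 < c) (hc1 : c ≤ 1) : ∃ (b : ℕ) (ε : ℝ), 1 ≤ b ∧ 0 < ε ∧
    ∃ (A : Set (W b)) (I : ℝ), MeasurableSet A ∧ A ⊆ Om b ε ∧ volume A = volume (Om b ε) / 2 ∧
      PLE (Om b ε) A I ∧ (∀ (F : Set (W b)) (Q : ℝ), MeasurableSet F → F ⊆ Om b ε →
        volume F = volume A → PLE (Om b ε) F Q → I ≤ Q) ∧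
      ∀ G : Set (W b), IsOpen G → (∀ z ∈ G, ∀ t : ℝ, 0 < t → t • z ∈ G) →
        (∀ z ∈ G, ∀ w ∈ G, z + w ∈ G) → volume ((Om b ε ∩ G) \ A) = 0 →
        volume ((Om b ε ∩ {z | -z ∈ G}) ∩ A) = 0 →
        ¬ (ENNReal.ofReal c * volume (Om b ε) ≤ volume (Om b ε ∩ G)) := by
  -- choice of the dimension
  obtain ⟨b, hb⟩ : ∃ b : ℕ, 51200 / c ^ 2 ≤ (b : ℝ) := exists_nat_ge _
  have hc2 : c ^ 2 ≤ 1 := pow_le_one₀ hc0.le hc1
  have hbc : 51200 ≤ c ^ 2 * b := by
    rw [div_le_iff₀ (by positivity)] at hb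
    linarith
  have hbr : (51200 : ℝ) ≤ b := by
    have : c ^ 2 * (b : ℝ) ≤ 1 * b := by gcongr
    linarith
  have hbn : 50000 ≤ b := by
    have : ((50000 : ℕ) : ℝ) ≤ b := by push_cast; linarith
    exact_mod_cast this
  have hb1 : 1 ≤ b := by omega
  obtain ⟨r, hr0, hr1, hr⟩ := half_radius (show 100 ≤ b by omega)
  have hnum := num hbn hr0 hr1 hr
  have hrlt : r < 1 := by
    refine lt_of_le_of_lt hr1 ?_
    rw [div_lt_one (by positivity)]
    linarith
  set r₀ : ℝ := 1 / (1000 * (b + 1)) with hr₀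
  have hr₀0 : 0 < r₀ := by positivity
  obtain ⟨σ, η, hσ, hσ1, hη, h6⟩ := t6 b c 5 r₀ (by omega) hc0 hc1 (by norm_num)
    (by norm_num; linarith) hr₀0
  have hR1 : (5 : ℝ) / b < 1 := by rw [div_lt_one (by linarith)]; linarith
  have hrR : r₀ < 5 / (b : ℝ) := by
    rw [hr₀, div_lt_div_iff₀ (by positivity) (by linarith)]
    nlinarith
  -- the perimeter constant
  set q : ℝ := 2 * Real.pi * r * (1 - r) ^ b with hq
  have hpi := Real.pi_pos
  have hq0 : 0 < q := by
    have : 0 < 1 - r := by linarith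
    positivity
  -- choice of epsilon
  set ε : ℝ := 5 / 1000 * (σ * r₀ * η) / (3 * 2 ^ (b + 1)) with hεd
  have hε : 0 < ε := by positivity
  have hvb := vb_pos b hε
  set P : ℝ := vb b ε * q with hP
  have hP0 : 0 < P := by positivity
  refine ⟨b, ε, hb1, hε, ?_⟩
  set A₀ : Set (W b) := {z | z ∈ Om b ε ∧ ‖z.fst‖ < r} with hA₀
  have hOm : MeasurableSet (Om b ε) := (isOpen_Om b ε).measurableSet
  have hA₀m : MeasurableSet A₀ :=
    hOm.inter (measurableSet_lt continuous_fst.norm.measurable measurable_const)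
  have hA₀P : PLE (Om b ε) A₀ P := by
    have := t3 b ε r hb1 hε hr0 hrlt
    exact this
  have hA₀v : volume A₀ = volume (Om b ε) / 2 := by
    rw [hA₀, t7b b ε r hb1 hε hr0.le hrlt.le, hr, volume_Om hb1 hε, mM,
      ENNReal.div_eq_inv_mul, ← ENNReal.ofReal_ofNat 2, ← ENNReal.ofReal_inv_of_pos (by norm_num),
      ← ENNReal.ofReal_mul (by norm_num)]
    congr 1
    field_simp
    norm_num
  obtain ⟨A, I, hAm, hAO, hAv, hAI, hmin⟩ := exist (W b) (t1 (W b)) (Om b ε) A₀ P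
    (isOpen_Om b ε) (convex_Om b hε) (zero_mem_Om b ε) (bounded_Om b hε) hA₀m (fun z hz => hz.1) hA₀P
  refine ⟨A, I, hAm, hAO, by rw [hAv, hA₀v], hAI, fun F Q h1 h2 h3 h4 =>
    hmin F Q h1 h2 (by rw [h3, hAv]) h4, ?_⟩
  have hIP : I ≤ P := hmin A₀ P hA₀m (fun z hz => hz.1) rfl hA₀P
  have hAP : PLE (Om b ε) A P := fun φ hφ => (hAI φ hφ).trans hIP
  have h5 := t5 b ε P A hb1 hε hAm hAO hP0.le hAP
  intro G hGo hGs hGa hGA hGA' hcon
  obtain ⟨u, hu, hw⟩ := h6 ε G hε hGo hGs hGa hcon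
  have hSo : IsOpen (Om b ε ∩ G) := (isOpen_Om b ε).inter hGo
  have hfin := vol_Om_ne_top b hε
  set U : Set ℂ := Wp u σ r₀ (5 / b) with hU
  have hUm : MeasurableSet U := measurableSet_Wp _ _ _ _
  set U' : Set ℂ := {x | -x ∈ U} with hU'
  have hUm' : MeasurableSet U' := measurable_neg hUm
  -- first wedge
  have e1 : volume.real {z | z ∈ Om b ε \ A ∧ z.fst ∈ U} ≤ 2 ^ (b + 1) * ε * P / η := by
    apply wedge_est hε hη (X := A) (hOm.diff hAm) hUm
      (ne_top_of_le_ne_top hfin (measure_mono fun z hz => hz.1.1)) hP0.le _ h5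
    filter_upwards [fib_mono_ae hSo.measurableSet hAm hGA] with x hx hxU
    exact (hw x hxU).trans hx
  -- second wedge
  have e2 : volume.real {z | z ∈ A ∧ -z.fst ∈ U} ≤ 2 ^ (b + 1) * ε * P / η := by
    have h5' : ∫⁻ x : ℂ, volume (fib (Om b ε \ A) x) * volume (fib A x) ≤
      ENNReal.ofReal (2 ^ (b + 1) * ε * vb b ε * P) := by
      have : ∀ x : ℂ, volume (fib (Om b ε \ A) x) * volume (fib A x) =
        volume (fib A x) * volume (fib (Om b ε \ A) x) := fun x => mul_comm _ _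
      simp_rw [this]
      exact h5
    set S' : Set (W b) := {z | -z ∈ Om b ε ∩ G} with hS'
    have hSm' : MeasurableSet S' := measurable_neg hSo.measurableSet
    have h7 : volume (S' \ (Om b ε \ A)) = 0 := by
      refine measure_mono_null ?_ hGA'
      rintro z ⟨⟨hz1, hz2⟩, hz3⟩
      have hzO : z ∈ Om b ε := by
        have := neg_mem_Om hz1
        rwa [neg_neg] at this
      refine ⟨⟨hzO, hz2⟩, ?_⟩
      by_contra hzA
      exact hz3 ⟨hzO, hzA⟩
    apply wedge_est hε hη (X := Om b ε \ A) hAm hUm'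
      (ne_top_of_le_ne_top hfin (measure_mono fun z hz => hAO hz.1)) hP0.le _ h5'
    filter_upwards [fib_mono_ae hSm' (hOm.diff hAm) h7] with x hx hxU
    refine le_trans ?_ hx
    rw [hS', fib_neg]
    exact hw (-x) hxU
  have h4 := t4 b ε P A u σ r₀ (5 / b) hb1 hε hAm hAO hAP hu hσ hσ1 hr₀0 hrR hR1
  rw [integral_pow_one_sub] at h4
  -- put everything together
  have h8 : vb b ε * (2 * (((1 - r₀) ^ (b + 1) - (1 - 5 / b) ^ (b + 1)) / (b + 1))) ≤
      P + 3 / (2 * σ * r₀) * (2 ^ (b + 1) * ε * P / η + 2 ^ (b + 1) * ε * P / η) := by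
    refine h4.trans ?_
    gcongr
  have h9 : P + 3 / (2 * σ * r₀) * (2 ^ (b + 1) * ε * P / η + 2 ^ (b + 1) * ε * P / η) =
      vb b ε * (1005 / 1000 * q) := by
    rw [hP, hεd]
    field_simp
    ring
  rw [h9] at h8
  have h10 := le_of_mul_le_mul_left h8 hvb
  linarith

end Pool.Agent.W2helper3.Cone
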