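import Pool.Agent.W2helper3.Cone.Vol
import Pool.Agent.TH703.Cone.Div

set_option autoImplicit false

/-! # T3: the perimeter of the cylinders -/

namespace Pool.Agent.W2helper3.Cone

open MeasureTheory Set Metric Pool.Agent.TH703.Cone
open scoped ENNReal InnerProductSpace

/-- first projection -/
noncomputable def pr (b : ℕ) : W b →L[ℝ] ℂ := WithLp.fstL 2 ℝ ℂ (B b)

lemma pr_apply {b : ℕ} (z : W b) : pr b z = z.fst := rfl

lemma norm_fst_le {b : ℕ} (z : W b) : ‖z.fst‖ ≤ ‖z‖ := by
  have h := WithLp.prod_norm_sq_eq_of_L2 z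
  have : ‖z.fst‖ ^ 2 ≤ ‖z‖ ^ 2 := by
    rw [h]
    nlinarith [sq_nonneg ‖z.snd‖]
  exact le_of_sq_le_sq this (norm_nonneg z)

/-- smoothness of radial functions -/
lemma contDiff_radial {b : ℕ} {k : ℝ → ℝ} {s c : ℝ} (hs : 0 < s) (hk : ContDiff ℝ 1 k)
    (hc : ∀ t < s, k t = c) : ContDiff ℝ 1 (fun z : W b => k ‖z.fst‖) := by
  rw [contDiff_iff_contDiffAt]
  intro z
  rcases eq_or_ne z.fst 0 with h | h
  · have h1 : (fun z : W b => k ‖z.fst‖) =ᶠ[nhds z] fun _ => c := by
      have h2 : ∀ᶠ w : W b in nhds z, ‖w.fst‖ < s := by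
        apply (continuous_fst.norm).continuousAt.eventually_lt_const
        change ‖z.fst‖ < s
        rw [h]
        simpa using hs
      filter_upwards [h2] with w hw
      exact hc _ hw
    exact contDiffAt_const.congr_of_eventuallyEq h1
  · have h1 : ContDiffAt ℝ 1 (fun x : ℂ => ‖x‖) z.fst := contDiffAt_norm ℝ h
    have h2 : ContDiffAt ℝ 1 (fun z : W b => ‖z.fst‖) z :=
      ContDiffAt.comp z (g := fun x : ℂ => ‖x‖) (f := fun z : W b => z.fst) h1
        (pr b).contDiff.contDiffAt
    exact hk.contDiffAt.comp z h2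

lemma fderiv_radial_le {b : ℕ} {k : ℝ → ℝ} {s c : ℝ} (hs : 0 < s) (hk : ContDiff ℝ 1 k)
    (hc : ∀ t < s, k t = c) (z v : W b) :
    |fderiv ℝ (fun z : W b => k ‖z.fst‖) z v| ≤ |deriv k ‖z.fst‖| * ‖v‖ := by
  rcases eq_or_ne z.fst 0 with h | h
  · have h1 : (fun z : W b => k ‖z.fst‖) =ᶠ[nhds z] fun _ => c := by
      have h2 : ∀ᶠ w : W b in nhds z, ‖w.fst‖ < s := by
        apply (continuous_fst.norm).continuousAt.eventually_lt_const
        change ‖z.fst‖ < s
        rw [h]
        simpa using hs
      filter_upwards [h2] with w hw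
      exact hc _ hw
    rw [h1.fderiv_eq]
    simp only [fderiv_fun_const, Pi.zero_apply, zero_apply, abs_zero]
    positivity
  · have h1 : DifferentiableAt ℝ (fun x : ℂ => ‖x‖) z.fst :=
      (contDiffAt_norm (n := 1) ℝ h).differentiableAt (by norm_num)
    have h2 : HasFDerivAt (fun z : W b => ‖z.fst‖)
        ((fderiv ℝ (fun x : ℂ => ‖x‖) z.fst).comp (pr b)) z :=
      HasFDerivAt.comp z (g := fun x : ℂ => ‖x‖) h1.hasFDerivAt (pr b).hasFDerivAt
    have h3 : HasDerivAt k (deriv k ‖z.fst‖) ‖z.fst‖ :=
      (hk.differentiable (by norm_num) _).hasDerivAt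
    have h4 := h3.comp_hasFDerivAt z h2
    have h5 : fderiv ℝ (fun z : W b => k ‖z.fst‖) z = deriv k ‖z.fst‖ •
        ((fderiv ℝ (fun x : ℂ => ‖x‖) z.fst).comp (pr b)) := HasFDerivAt.fderiv h4
    rw [h5]
    have h6 : ‖fderiv ℝ (fun x : ℂ => ‖x‖) z.fst‖ = 1 := norm_fderiv_norm h1
    change |deriv k ‖z.fst‖ * (fderiv ℝ (fun x : ℂ => ‖x‖) z.fst v.fst)| ≤ _
    rw [abs_mul]
    have h7 : |fderiv ℝ (fun x : ℂ => ‖x‖) z.fst v.fst| ≤ ‖v‖ := by
      have h8 := (fderiv ℝ (fun x : ℂ => ‖x‖) z.fst).le_opNorm v.fst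
      rw [h6, one_mul] at h8
      exact h8.trans (norm_fst_le v)
    gcongr

/-- the smooth step from `0` to `1` on `[r, r + δ]` -/
noncomputable def stp (r δ : ℝ) (t : ℝ) : ℝ := Real.smoothTransition ((t - r) / δ)

lemma stp_contDiff (r δ : ℝ) : ContDiff ℝ 1 (stp r δ) := by
  unfold stp
  have h : ContDiff ℝ (1 : ℕ∞) Real.smoothTransition := Real.smoothTransition.contDiff
  exact h.comp (by fun_prop)

lemma stp_zero {r δ t : ℝ} (hδ : 0 < δ) (h : t ≤ r) : stp r δ t = 0 :=
  Real.smoothTransition.zero_of_nonpos (div_nonpos_of_nonpos_of_nonneg (by linarith) hδ.le)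

lemma stp_one {r δ t : ℝ} (hδ : 0 < δ) (h : r + δ ≤ t) : stp r δ t = 1 :=
  Real.smoothTransition.one_of_one_le (by rw [le_div_iff₀ hδ]; linarith)

lemma stp_nonneg (r δ t : ℝ) : 0 ≤ stp r δ t := Real.smoothTransition.nonneg _

lemma stp_le_one (r δ t : ℝ) : stp r δ t ≤ 1 := Real.smoothTransition.le_one _

lemma stp_mono {r δ : ℝ} (hδ : 0 < δ) : Monotone (stp r δ) := by
  intro s t hst
  apply Real.smoothTransition.monotone
  gcongr

lemma deriv_stp_nonneg {r δ : ℝ} (hδ : 0 < δ) (t : ℝ) : 0 ≤ deriv (stp r δ) t :=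
  (stp_mono hδ).deriv_nonneg

lemma deriv_stp_continuous (r δ : ℝ) : Continuous (deriv (stp r δ)) :=
  (stp_contDiff r δ).continuous_deriv (by norm_num)

lemma deriv_stp_zero_left {r δ t : ℝ} (hδ : 0 < δ) (h : t < r) : deriv (stp r δ) t = 0 := by
  have h1 : stp r δ =ᶠ[nhds t] fun _ => 0 := by
    filter_upwards [Iio_mem_nhds h] with s hs
    exact stp_zero hδ (le_of_lt hs)
  rw [h1.deriv_eq]
  simp

lemma deriv_stp_zero_right {r δ t : ℝ} (hδ : 0 < δ) (h : r + δ < t) : deriv (stp r δ) t = 0 := by
  have h1 : stp r δ =ᶠ[nhds t] fun _ => 1 := by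
    filter_upwards [Ioi_mem_nhds h] with s hs
    exact stp_one hδ (le_of_lt hs)
  rw [h1.deriv_eq]
  simp

lemma lintegral_deriv_stp_le {r δ : ℝ} (hr : 0 < r) (hδ : 0 < δ) (h1 : r + δ < 1) :
    ∫⁻ x in ball (0 : ℂ) 1, ENNReal.ofReal (deriv (stp r δ) ‖x‖) ≤
      ENNReal.ofReal (2 * Real.pi * (r + δ)) := by
  have hb : {x : ℂ | 0 ≤ ‖x‖ ∧ ‖x‖ < 1} = ball (0 : ℂ) 1 := by
    ext x
    simp
  have hcont : Continuous (fun x : ℂ => deriv (stp r δ) ‖x‖) :=
    (deriv_stp_continuous r δ).comp continuous_norm
  rw [← ofReal_integral_eq_lintegral_ofReal]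
  · apply ENNReal.ofReal_le_ofReal
    rw [← hb, integral_annulus le_rfl zero_le_one]
    have hpi := Real.pi_pos
    have h2 : ∫ y in (0 : ℝ)..1, y * deriv (stp r δ) y ≤ ∫ y in (0 : ℝ)..1, (r + δ) * deriv (stp r δ) y := by
      apply intervalIntegral.integral_mono_on zero_le_one
      · exact (continuous_id.mul (deriv_stp_continuous r δ)).intervalIntegrable _ _
      · exact (continuous_const.mul (deriv_stp_continuous r δ)).intervalIntegrable _ _
      · intro y _
        rcases le_or_gt y (r + δ) with h | h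
        · exact mul_le_mul_of_nonneg_right h (deriv_stp_nonneg hδ y)
        · rw [deriv_stp_zero_right hδ h, mul_zero, mul_zero]
    have h3 : ∫ y in (0 : ℝ)..1, (r + δ) * deriv (stp r δ) y = r + δ := by
      rw [intervalIntegral.integral_const_mul, intervalIntegral.integral_deriv_eq_sub]
      · rw [stp_one hδ h1.le, stp_zero hδ hr.le]
        ring
      · intro y _
        exact (stp_contDiff r δ).differentiable (by norm_num) y
      · exact (deriv_stp_continuous r δ).intervalIntegrable _ _
    rw [h3] at h2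
    nlinarith
  · exact (hcont.continuousOn.integrableOn_compact (isCompact_closedBall (0 : ℂ) 1)).mono_set
      ball_subset_closedBall
  · exact Filter.Eventually.of_forall fun x => deriv_stp_nonneg hδ _

lemma fin_pw (b : ℕ) (K r : ℝ) :
    Filter.Tendsto (fun δ : ℝ => (1 - r) ^ b * (2 * Real.pi * (r + δ)) + K * (2 * Real.pi *
      (((1 - r) ^ (b + 1) * (1 + (b + 1) * r) -
        (1 - (r + δ)) ^ (b + 1) * (1 + (b + 1) * (r + δ))) / ((b + 1) * (b + 2)))))
      (nhdsWithin 0 (Ioi 0)) (nhds ((1 - r) ^ b * (2 * Real.pi * r))) := by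
  have h : Continuous (fun δ : ℝ => (1 - r) ^ b * (2 * Real.pi * (r + δ)) + K * (2 * Real.pi *
      (((1 - r) ^ (b + 1) * (1 + (b + 1) * r) -
        (1 - (r + δ)) ^ (b + 1) * (1 + (b + 1) * (r + δ))) / ((b + 1) * (b + 2))))) := by
    fun_prop
  have h2 := (h.tendsto 0).mono_left (nhdsWithin_le_nhds (s := Ioi 0))
  simpa using h2

theorem t3 : S_T3 := by
  intro b ε r hb hε hr0 hr1 φ hφ
  set A : Set (W b) := {z | z ∈ Om b ε ∧ ‖z.fst‖ < r} with hA
  have hOm : MeasurableSet (Om b ε) := (isOpen_Om b ε).measurableSet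
  have hAm : MeasurableSet A :=
    hOm.inter (measurableSet_lt continuous_fst.norm.measurable measurable_const)
  have hfin : volume (Om b ε) ≠ ⊤ := vol_Om_ne_top b hε
  obtain ⟨K, hK⟩ : ∃ K, ∀ x, ‖dv φ x‖ ≤ K :=
    (Div.hasCompactSupport_dv hφ.cs).exists_bound_of_continuous (Div.continuous_dv hφ.c1)
  have hK0 : 0 ≤ K := (norm_nonneg _).trans (hK 0)
  have hdi : Integrable (dv φ) := Div.integrable_dv hφ.c1 hφ.cs
  have hvb := vb_pos b hε
  have main : ∀ δ : ℝ, 0 < δ → r + δ < 1 →
      ∫ x in A, dv φ x ≤ vb b ε * ((1 - r) ^ b * (2 * Real.pi * (r + δ)) + K * (2 * Real.pi *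
      (((1 - r) ^ (b + 1) * (1 + (b + 1) * r) -
        (1 - (r + δ)) ^ (b + 1) * (1 + (b + 1) * (r + δ))) / ((b + 1) * (b + 2))))) := by
    intro δ hδ hrδ
    set k : W b → ℝ := fun z => stp r δ ‖z.fst‖ with hk
    have hkc : ContDiff ℝ 1 k :=
      contDiff_radial hr0 (stp_contDiff r δ) (fun t ht => stp_zero hδ ht.le)
    set g : W b → ℝ := fun z => 1 - k z with hg
    have hgc : ContDiff ℝ 1 g := contDiff_const.sub hkc
    have h0 := Div.integral_mul_dv hgc hφ.c1 hφ.cs
    have hfd : ∀ z v, fderiv ℝ g z v = - fderiv ℝ k z v := by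
      intro z v
      have : fderiv ℝ g z = - fderiv ℝ k z := by
        simp only [hg]
        rw [fderiv_const_sub]
      rw [this]
      rfl
    have hφ0 : ∀ z, z ∉ Om b ε → φ z = 0 := fun z hz =>
      image_eq_zero_of_notMem_tsupport fun h => hz (hφ.sub h)
    have hdv0 : ∀ z, z ∉ Om b ε → dv φ z = 0 := fun z hz =>
      Div.dv_eq_zero_of_notMem fun h => hz (hφ.sub h)
    have hcd : Continuous (fun z : W b => deriv (stp r δ) ‖z.fst‖) :=
      (deriv_stp_continuous r δ).comp continuous_fst.norm
    have hio : IntegrableOn (fun z : W b => deriv (stp r δ) ‖z.fst‖) (Om b ε) :=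
      (hcd.continuousOn.integrableOn_compact
        (bounded_Om b hε).isCompact_closure).mono_set subset_closure
    -- bound 1
    have h1 : - ∫ x, fderiv ℝ g x (φ x) ≤ ∫ z in Om b ε, deriv (stp r δ) ‖z.fst‖ := by
      rw [← integral_neg, ← integral_indicator hOm]
      apply integral_mono
      · have hc1 : Continuous (fun z => - fderiv ℝ g z (φ z)) :=
          ((hgc.continuous_fderiv (by norm_num)).clm_apply hφ.c1.continuous).neg
        apply hc1.integrable_of_hasCompactSupport
        refine hφ.cs.mono ?_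
        intro z hz
        rw [Function.mem_support] at hz ⊢
        intro h
        rw [h, map_zero, neg_zero] at hz
        exact hz rfl
      · exact (integrable_indicator_iff hOm).2 hio
      · intro z
        change - fderiv ℝ g z (φ z) ≤ _
        rw [hfd, neg_neg]
        by_cases hz : z ∈ Om b ε
        · rw [indicator_of_mem hz]
          have h2 := fderiv_radial_le hr0 (stp_contDiff r δ) (fun t ht => stp_zero hδ ht.le) z (φ z)
          have h3 := le_of_abs_le h2
          rw [abs_of_nonneg (deriv_stp_nonneg hδ _)] at h3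
          have h4 : deriv (stp r δ) ‖z.fst‖ * ‖φ z‖ ≤ deriv (stp r δ) ‖z.fst‖ * 1 :=
            mul_le_mul_of_nonneg_left (hφ.le z) (deriv_stp_nonneg hδ _)
          linarith
        · rw [indicator_of_notMem hz, hφ0 z hz, map_zero]
    -- bound 2
    have h2 : ∫ z in Om b ε, deriv (stp r δ) ‖z.fst‖ ≤
        vb b ε * ((1 - r) ^ b * (2 * Real.pi * (r + δ))) := by
      rw [integral_eq_lintegral_of_nonneg_ae
        (Filter.Eventually.of_forall fun z => deriv_stp_nonneg hδ _)
        hcd.aestronglyMeasurable.restrict]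
      have hm : Measurable (fun x : ℂ => ENNReal.ofReal (deriv (stp r δ) ‖x‖)) :=
        ((deriv_stp_continuous r δ).comp continuous_norm).measurable.ennreal_ofReal
      have h3 := t7a b ε hb hε (fun x : ℂ => ENNReal.ofReal (deriv (stp r δ) ‖x‖)) hm
      rw [h3]
      have hr' : (0 : ℝ) ≤ 1 - r := by linarith
      have h4 : ∫⁻ x in ball (0 : ℂ) 1, ENNReal.ofReal (deriv (stp r δ) ‖x‖) *
          ENNReal.ofReal ((1 - ‖x‖) ^ b) ≤ ENNReal.ofReal ((1 - r) ^ b) *
            ENNReal.ofReal (2 * Real.pi * (r + δ)) := by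
        refine le_trans ?_ (mul_le_mul_right (lintegral_deriv_stp_le hr0 hδ hrδ) _)
        rw [← lintegral_const_mul' _ _ ENNReal.ofReal_ne_top]
        apply setLIntegral_mono' measurableSet_ball
        intro x hx
        rw [mem_ball_zero_iff] at hx
        rcases lt_or_ge ‖x‖ r with h | h
        · rw [deriv_stp_zero_left hδ h]
          simp
        · rw [mul_comm]
          gcongr
      refine ENNReal.toReal_le_of_le_ofReal (by positivity) ?_
      rw [ENNReal.ofReal_mul hvb.le, ENNReal.ofReal_mul (by positivity)]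
      exact mul_le_mul_right h4 _
    -- bound 3
    set S : Set (W b) := {z | z ∈ Om b ε ∧ z.fst ∈ {x : ℂ | r ≤ ‖x‖ ∧ ‖x‖ < r + δ}} with hS
    have hannm : MeasurableSet {x : ℂ | r ≤ ‖x‖ ∧ ‖x‖ < r + δ} :=
      (measurableSet_le measurable_const measurable_norm).inter
        (measurableSet_lt measurable_norm measurable_const)
    have hSm : MeasurableSet S := hOm.inter (continuous_fst.measurable hannm)
    have hSv : volume.real S = vb b ε * (2 * Real.pi *
        (((1 - r) ^ (b + 1) * (1 + (b + 1) * r) -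
        (1 - (r + δ)) ^ (b + 1) * (1 + (b + 1) * (r + δ))) / ((b + 1) * (b + 2)))) := by
      have h3 : {x : ℂ | r ≤ ‖x‖ ∧ ‖x‖ < r + δ} ⊆ ball 0 1 := by
        intro x hx
        rw [mem_ball_zero_iff]
        exact hx.2.trans hrδ
      rw [Measure.real, hS, volume_Om_over hb hε hannm h3,
        lintegral_annulus_weight b hr0.le (by linarith) hrδ.le, ENNReal.toReal_mul,
        ENNReal.toReal_ofReal hvb.le, ENNReal.toReal_ofReal]
      rw [← integral_weight b r (r + δ)]
      have h5 : 0 ≤ ∫ y in r..(r + δ), y * (1 - y) ^ b := by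
        apply intervalIntegral.integral_nonneg (by linarith)
        intro y hy
        have h6 : 0 ≤ y := hr0.le.trans hy.1
        have h7 : 0 ≤ 1 - y := by linarith [hy.2]
        positivity
      have := Real.pi_pos
      positivity
    have hSfin : volume S ≠ ⊤ := ne_top_of_le_ne_top hfin (measure_mono fun z hz => hz.1)
    have h3 : (∫ x in A, dv φ x) - ∫ x, g x * dv φ x ≤ K * volume.real S := by
      rw [← integral_indicator hAm, ← integral_sub (hdi.indicator hAm)]
      · calc ∫ a, (A.indicator (fun x => dv φ x) a - g a * dv φ a)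
            ≤ ∫ a, S.indicator (fun _ => K) a := by
              apply integral_mono
              · refine (hdi.indicator hAm).sub ?_
                apply Continuous.integrable_of_hasCompactSupport
                · exact hgc.continuous.mul (Div.continuous_dv hφ.c1)
                · exact (Div.hasCompactSupport_dv hφ.cs).mul_left
              · exact (integrable_indicator_iff hSm).2 (integrableOn_const hSfin (by simp))
              · intro z
                change A.indicator (fun x => dv φ x) z - g z * dv φ z ≤ S.indicator (fun _ => K) z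
                by_cases hz : z ∈ Om b ε
                · rcases lt_or_ge ‖z.fst‖ r with h | h
                  · rw [indicator_of_mem (show z ∈ A from ⟨hz, h⟩)]
                    have h4 : g z = 1 := by
                      simp only [hg, hk, stp_zero hδ h.le, sub_zero]
                    rw [h4, one_mul, sub_self]
                    exact indicator_nonneg (fun _ _ => hK0) _
                  · rw [indicator_of_notMem (show z ∉ A from fun hh => absurd hh.2 (not_lt.2 h))]
                    rcases lt_or_ge ‖z.fst‖ (r + δ) with h' | h'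
                    · rw [indicator_of_mem (show z ∈ S from ⟨hz, h, h'⟩), zero_sub]
                      have h4 : 0 ≤ g z := sub_nonneg.2 (stp_le_one _ _ _)
                      have h5 : g z ≤ 1 := sub_le_self _ (stp_nonneg _ _ _)
                      have h6 := hK z
                      rw [Real.norm_eq_abs] at h6
                      have h7 := neg_le_of_abs_le h6
                      nlinarith [abs_nonneg (dv φ z), neg_abs_le (dv φ z)]
                    · have h4 : g z = 0 := by
                        simp only [hg, hk, stp_one hδ h', sub_self]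
                      rw [h4, zero_mul, sub_zero]
                      exact indicator_nonneg (fun _ _ => hK0) _
                · rw [hdv0 z hz, mul_zero, sub_zero,
                    indicator_of_notMem (show z ∉ A from fun hh => hz hh.1)]
                  exact indicator_nonneg (fun _ _ => hK0) _
          _ = K * volume.real S := by
              rw [integral_indicator_const _ hSm, smul_eq_mul, mul_comm]
      · apply Continuous.integrable_of_hasCompactSupport
        · exact hgc.continuous.mul (Div.continuous_dv hφ.c1)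
        · exact (Div.hasCompactSupport_dv hφ.cs).mul_left
    rw [hSv] at h3
    rw [h0] at h3
    rw [mul_add (vb b ε), mul_left_comm (vb b ε) K]
    linarith
  have hlim := (fin_pw b K r).const_mul (vb b ε)
  have hfinal := ge_of_tendsto hlim (b := ∫ x in A, dv φ x) (by
    have h1 : ∀ᶠ δ : ℝ in nhdsWithin 0 (Ioi 0), δ < 1 - r :=
      (tendsto_nhdsWithin_of_tendsto_nhds Filter.tendsto_id).eventually_lt_const (by linarith)
    filter_upwards [h1, self_mem_nhdsWithin] with δ h2 h3
    exact main δ h3 (by linarith))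
  calc ∫ x in A, dv φ x ≤ vb b ε * ((1 - r) ^ b * (2 * Real.pi * r)) := hfinal
    _ = _ := by ring

end Pool.Agent.W2helper3.Cone
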