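import Mathlib

set_option autoImplicit false

/-! # Planar geometry: the wedge between two directions -/

namespace Pool.Agent.W2helper3.Cone

open Complex

set_option maxHeartbeats 4000000 in
/-- the wedge lemma in coordinates -/
lemma wedge_aux {a1 b1 a2 b2 κ₀ : ℝ} (h1 : a1 ^ 2 + b1 ^ 2 = 1) (h2 : a2 ^ 2 + b2 ^ 2 = 1)
    (hγ : 0 ≤ a1 * a2 + b1 * b2) (hκ0 : 0 < κ₀) (hκ : κ₀ ≤ a1 * b2 - b1 * a2) :
    ∃ u : ℂ, ‖u‖ = 1 ∧ ∀ x : ℂ, 0 < (x * u).re → |(x * u).im| ≤ κ₀ / 8 * ‖x‖ →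
      ∃ α β : ℝ, ‖x‖ / 8 ≤ α ∧ ‖x‖ / 8 ≤ β ∧ α ≤ ‖x‖ ∧ β ≤ ‖x‖ ∧
        x = (α : ℂ) * (⟨a1, b1⟩ : ℂ) + (β : ℂ) * (⟨a2, b2⟩ : ℂ) := by
  set γ := a1 * a2 + b1 * b2 with hγd
  set κ := a1 * b2 - b1 * a2 with hκd
  have hid : γ ^ 2 + κ ^ 2 = 1 := by
    have : γ ^ 2 + κ ^ 2 = (a1 ^ 2 + b1 ^ 2) * (a2 ^ 2 + b2 ^ 2) := by
      rw [hγd, hκd]; ring
    rw [this, h1, h2, one_mul]
  have hκpos : 0 < κ := by linarith
  have hγ1 : γ ≤ 1 := by nlinarith [sq_nonneg κ]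
  have hκ1 : κ ≤ 1 := by nlinarith [sq_nonneg γ]
  set N := Real.sqrt (2 + 2 * γ) with hN
  have hN2 : N ^ 2 = 2 + 2 * γ := Real.sq_sqrt (by linarith)
  have hN0 : 0 < N := Real.sqrt_pos.2 (by linarith)
  have hNle : N ≤ 2 := by nlinarith
  have hd2 : (a1 + a2) ^ 2 + (b1 + b2) ^ 2 = N ^ 2 := by
    rw [hN2, hγd]
    nlinarith
  refine ⟨⟨(a1 + a2) / N, -(b1 + b2) / N⟩, ?_, ?_⟩
  · have h3 : ‖(⟨(a1 + a2) / N, -(b1 + b2) / N⟩ : ℂ)‖ ^ 2 = 1 := by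
      rw [← Complex.normSq_eq_norm_sq, Complex.normSq_mk]
      field_simp
      nlinarith
    have h4 : 0 ≤ ‖(⟨(a1 + a2) / N, -(b1 + b2) / N⟩ : ℂ)‖ := norm_nonneg _
    nlinarith
  · intro x hre him
    set X := x.re with hX
    set Y := x.im with hY
    set p := (x * ⟨(a1 + a2) / N, -(b1 + b2) / N⟩).re with hp
    set q := (x * ⟨(a1 + a2) / N, -(b1 + b2) / N⟩).im with hq
    have hpe : p = (X * (a1 + a2) + Y * (b1 + b2)) / N := by
      rw [hp, Complex.mul_re]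
      simp only
      ring
    have hqe : q = (Y * (a1 + a2) - X * (b1 + b2)) / N := by
      rw [hq, Complex.mul_im]
      simp only
      ring
    set r := ‖x‖ with hr
    have hr2 : r ^ 2 = X ^ 2 + Y ^ 2 := by
      rw [hr, ← Complex.normSq_eq_norm_sq, Complex.normSq_apply, hX, hY]
      ring
    have hr0 : 0 ≤ r := norm_nonneg x
    have hpN : p * N = X * (a1 + a2) + Y * (b1 + b2) := by rw [hpe]; field_simp
    have hqN : q * N = Y * (a1 + a2) - X * (b1 + b2) := by rw [hqe]; field_simp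
    have hpq : p ^ 2 + q ^ 2 = r ^ 2 := by
      have h3 : (p ^ 2 + q ^ 2) * N ^ 2 = r ^ 2 * N ^ 2 := by
        calc (p ^ 2 + q ^ 2) * N ^ 2 = (p * N) ^ 2 + (q * N) ^ 2 := by ring
          _ = (X ^ 2 + Y ^ 2) * ((a1 + a2) ^ 2 + (b1 + b2) ^ 2) := by rw [hpN, hqN]; ring
          _ = r ^ 2 * N ^ 2 := by rw [hd2, hr2]
      exact mul_right_cancel₀ (by positivity) h3
    have hp0 : 0 < p := hre
    have hrpos : 0 < r := by
      have h3 : 0 < r ^ 2 := by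
        rw [← hpq]
        positivity
      exact lt_of_le_of_ne hr0 (fun h => by rw [← h] at h3; norm_num at h3)
    have hqb : |q| ≤ κ * r / 8 := by
      calc |q| ≤ κ₀ / 8 * r := him
        _ ≤ κ / 8 * r := by gcongr
        _ = κ * r / 8 := by ring
    have hq8 : |q| ≤ r / 8 := by
      have h3 := mul_le_mul_of_nonneg_right hκ1 hr0
      linarith
    have hp9 : 9 / 10 * r ≤ p := by
      have h3 : q ^ 2 ≤ (r / 8) ^ 2 := by
        rw [← sq_abs]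
        exact pow_le_pow_left₀ (abs_nonneg _) hq8 2
      by_contra hc
      push Not at hc
      have h5 : p ^ 2 < (9 / 10 * r) ^ 2 := pow_lt_pow_left₀ hc hp0.le (by norm_num)
      have h6 : r ^ 2 < (9 / 10 * r) ^ 2 + (r / 8) ^ 2 := by linarith
      have h7 : 0 < r ^ 2 := by positivity
      have h8 : (9 / 10 * r) ^ 2 + (r / 8) ^ 2 = (81 / 100 + 1 / 64) * r ^ 2 := by ring
      rw [h8] at h6
      linarith
    -- the coefficients
    set α := (X * b2 - Y * a2) / κ with hα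
    set β := (a1 * Y - b1 * X) / κ with hβ
    have hx1 : X = α * a1 + β * a2 := by
      rw [hα, hβ]
      field_simp
      rw [hκd]
      ring
    have hx2 : Y = α * b1 + β * b2 := by
      rw [hα, hβ]
      field_simp
      rw [hκd]
      ring
    -- expressions in terms of `p`, `q`
    have hpαβ : p * N = (α + β) * (1 + γ) := by
      rw [hpN, hx1, hx2, hγd]
      linear_combination α * h1 + β * h2
    have hqαβ : q * N = (β - α) * κ := by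
      rw [hqN, hx1, hx2, hκd]
      ring
    have hs : (α + β) * N = 2 * p := by
      have h3 : (α + β) * N * N = 2 * p * N := by
        calc (α + β) * N * N = (α + β) * N ^ 2 := by ring
          _ = 2 * ((α + β) * (1 + γ)) := by rw [hN2]; ring
          _ = 2 * p * N := by rw [← hpαβ]; ring
      exact mul_right_cancel₀ hN0.ne' h3
    have hsum : 9 / 10 * r ≤ α + β := by
      have h3 : 9 / 5 * r ≤ (α + β) * N := by rw [hs]; linarith
      have h4 : 0 ≤ α + β := by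
        by_contra hc
        push Not at hc
        have h5 := mul_neg_of_neg_of_pos hc hN0
        linarith
      have h5 := mul_le_mul_of_nonneg_left hNle h4
      linarith
    have hdiff : |β - α| ≤ r / 4 := by
      have h3 : |β - α| * κ = |q| * N := by
        rw [← abs_of_pos hκpos, ← abs_mul, ← hqαβ, abs_mul, abs_of_pos hN0]
      have h4 : |β - α| * κ ≤ r / 4 * κ := by
        rw [h3]
        have h5 := mul_le_mul_of_nonneg_left hNle (abs_nonneg q)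
        linarith
      exact le_of_mul_le_mul_right h4 hκpos
    obtain ⟨hd1, hd2'⟩ := abs_le.1 hdiff
    have hα8 : r / 8 ≤ α := by linarith
    have hβ8 : r / 8 ≤ β := by linarith
    have hnorm : r ^ 2 = α ^ 2 + β ^ 2 + 2 * α * β * γ := by
      rw [hr2, hx1, hx2, hγd]
      linear_combination α ^ 2 * h1 + β ^ 2 * h2
    have hα0 : 0 ≤ α := by linarith
    have hβ0 : 0 ≤ β := by linarith
    refine ⟨α, β, hα8, hβ8, ?_, ?_, ?_⟩
    · have : 0 ≤ 2 * α * β * γ := by positivity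
      have h3 : α ^ 2 ≤ r ^ 2 := by linarith [sq_nonneg β]
      exact le_of_sq_le_sq h3 hr0
    · have : 0 ≤ 2 * α * β * γ := by positivity
      have h3 : β ^ 2 ≤ r ^ 2 := by linarith [sq_nonneg α]
      exact le_of_sq_le_sq h3 hr0
    · apply Complex.ext
      · simp only [Complex.add_re, Complex.mul_re, Complex.ofReal_re, Complex.ofReal_im, zero_mul,
          sub_zero]
        exact hx1
      · simp only [Complex.add_im, Complex.mul_im, Complex.ofReal_re, Complex.ofReal_im, zero_mul,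
          add_zero]
        exact hx2

/-- the wedge between two points -/
lemma wedge {x1 x2 : ℂ} {κ₀ : ℝ} (h1 : x1 ≠ 0) (h2 : x2 ≠ 0)
    (hγ : 0 ≤ x1.re * x2.re + x1.im * x2.im) (hκ0 : 0 < κ₀)
    (hκ : κ₀ * (‖x1‖ * ‖x2‖) ≤ |x1.re * x2.im - x1.im * x2.re|) :
    ∃ u : ℂ, ‖u‖ = 1 ∧ ∀ x : ℂ, 0 < (x * u).re → |(x * u).im| ≤ κ₀ / 8 * ‖x‖ →
      ∃ α β : ℝ, ‖x‖ / 8 ≤ α * ‖x1‖ ∧ ‖x‖ / 8 ≤ β * ‖x2‖ ∧ α * ‖x1‖ ≤ ‖x‖ ∧ β * ‖x2‖ ≤ ‖x‖ ∧
        x = (α : ℂ) * x1 + (β : ℂ) * x2 := by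
  -- first the positively oriented case
  have key : ∀ x1 x2 : ℂ, x1 ≠ 0 → x2 ≠ 0 → 0 ≤ x1.re * x2.re + x1.im * x2.im →
      κ₀ * (‖x1‖ * ‖x2‖) ≤ x1.re * x2.im - x1.im * x2.re →
      ∃ u : ℂ, ‖u‖ = 1 ∧ ∀ x : ℂ, 0 < (x * u).re → |(x * u).im| ≤ κ₀ / 8 * ‖x‖ →
      ∃ α β : ℝ, ‖x‖ / 8 ≤ α * ‖x1‖ ∧ ‖x‖ / 8 ≤ β * ‖x2‖ ∧ α * ‖x1‖ ≤ ‖x‖ ∧ β * ‖x2‖ ≤ ‖x‖ ∧
        x = (α : ℂ) * x1 + (β : ℂ) * x2 := by
    intro x1 x2 h1 h2 hγ hκ
    have n1 : 0 < ‖x1‖ := norm_pos_iff.2 h1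
    have n2 : 0 < ‖x2‖ := norm_pos_iff.2 h2
    have s1 : ‖x1‖ ^ 2 = x1.re ^ 2 + x1.im ^ 2 := by
      rw [← Complex.normSq_eq_norm_sq, Complex.normSq_apply]; ring
    have s2 : ‖x2‖ ^ 2 = x2.re ^ 2 + x2.im ^ 2 := by
      rw [← Complex.normSq_eq_norm_sq, Complex.normSq_apply]; ring
    obtain ⟨u, hu, hw⟩ := wedge_aux (a1 := x1.re / ‖x1‖) (b1 := x1.im / ‖x1‖)
      (a2 := x2.re / ‖x2‖) (b2 := x2.im / ‖x2‖) (κ₀ := κ₀)
      (by field_simp; rw [s1]) (by field_simp; rw [s2])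
      (by
        have : x1.re / ‖x1‖ * (x2.re / ‖x2‖) + x1.im / ‖x1‖ * (x2.im / ‖x2‖) =
            (x1.re * x2.re + x1.im * x2.im) / (‖x1‖ * ‖x2‖) := by field_simp
        rw [this]
        positivity) hκ0
      (by
        have : x1.re / ‖x1‖ * (x2.im / ‖x2‖) - x1.im / ‖x1‖ * (x2.re / ‖x2‖) =
            (x1.re * x2.im - x1.im * x2.re) / (‖x1‖ * ‖x2‖) := by field_simp
        rw [this, le_div_iff₀ (by positivity)]
        exact hκ)
    refine ⟨u, hu, fun x hx1 hx2 => ?_⟩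
    obtain ⟨α, β, g1, g2, g3, g4, g5⟩ := hw x hx1 hx2
    refine ⟨α / ‖x1‖, β / ‖x2‖, ?_, ?_, ?_, ?_, ?_⟩
    · rwa [div_mul_cancel₀ _ n1.ne']
    · rwa [div_mul_cancel₀ _ n2.ne']
    · rwa [div_mul_cancel₀ _ n1.ne']
    · rwa [div_mul_cancel₀ _ n2.ne']
    · have e1 : (⟨x1.re / ‖x1‖, x1.im / ‖x1‖⟩ : ℂ) = x1 / (‖x1‖ : ℂ) := by
        apply Complex.ext
        · rw [Complex.div_ofReal_re]
        · rw [Complex.div_ofReal_im]
      have e2 : (⟨x2.re / ‖x2‖, x2.im / ‖x2‖⟩ : ℂ) = x2 / (‖x2‖ : ℂ) := by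
        apply Complex.ext
        · rw [Complex.div_ofReal_re]
        · rw [Complex.div_ofReal_im]
      rw [g5, e1, e2]
      push_cast
      ring
  rcases le_or_gt 0 (x1.re * x2.im - x1.im * x2.re) with h | h
  · rw [abs_of_nonneg h] at hκ
    exact key x1 x2 h1 h2 hγ hκ
  · rw [abs_of_neg h] at hκ
    obtain ⟨u, hu, hw⟩ := key x2 x1 h2 h1 (by linarith) (by
      calc κ₀ * (‖x2‖ * ‖x1‖) = κ₀ * (‖x1‖ * ‖x2‖) := by ring
        _ ≤ _ := hκ
        _ = _ := by ring)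
    refine ⟨u, hu, fun x hx1 hx2 => ?_⟩
    obtain ⟨α, β, g1, g2, g3, g4, g5⟩ := hw x hx1 hx2
    exact ⟨β, α, g2, g1, g4, g3, by rw [g5]; ring⟩

end Pool.Agent.W2helper3.Cone
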