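import Pool.Agent.W2helper3.Cone.Cap
import Pool.Agent.W2helper3.Cone.Wedge

set_option autoImplicit false

/-! # T6: geometry of large cones -/

namespace Pool.Agent.W2helper3.Cone

open MeasureTheory Set Metric Filter Pool.Agent.TH703.Cone
open scoped ENNReal InnerProductSpace Topology Pointwise

/-- the weight -/
noncomputable def wg (b : ℕ) (x : ℂ) : ℝ≥0∞ := ENNReal.ofReal ((1 - ‖x‖) ^ b)

lemma measurable_wg (b : ℕ) : Measurable (wg b) := by
  unfold wg
  exact ((measurable_const.sub measurable_norm).pow_const b).ennreal_ofReal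

lemma wg_le_one (b : ℕ) {x : ℂ} (hx : x ∈ ball (0 : ℂ) 1) : wg b x ≤ 1 := by
  unfold wg
  rw [mem_ball_zero_iff] at hx
  rw [← ENNReal.ofReal_one]
  apply ENNReal.ofReal_le_ofReal
  apply pow_le_one₀
  · linarith
  · linarith [norm_nonneg x]

lemma lintegral_wg_ball (b : ℕ) : ∫⁻ x in ball (0 : ℂ) 1, wg b x = ENNReal.ofReal (mM b) := by
  have h := lintegral_ball_weight b zero_le_one le_rfl
  unfold wg
  rw [h, mM]
  congr 1
  simp
  field_simp

/-- abstract mass distribution: `F ≤ V w` in the disc and the total mass is at least `c V M` -/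
lemma mass {b : ℕ} (hb : 4 ≤ b) {c V : ℝ} (hc0 : 0 < c) (hc1 : c ≤ 1) (hV : 0 < V)
    {F : ℂ → ℝ≥0∞} (hFm : Measurable F)
    (hF : ∀ x, F x ≤ (ball (0 : ℂ) 1).indicator (fun x => ENNReal.ofReal V * wg b x) x)
    (htot : ENNReal.ofReal (c * (V * mM b)) ≤ ∫⁻ x, F x) :
    ENNReal.ofReal (c / 4 * mM b) ≤ ∫⁻ x in {x : ℂ | Real.sqrt c / 2 / b ≤ ‖x‖ ∧
      ‖x‖ ≤ 1 - c / (4 * ((b + 1) * (b + 2))) ∧
      ENNReal.ofReal (c / 4) * (ENNReal.ofReal V * wg b x) ≤ F x ∧ x ∈ ball (0 : ℂ) 1}, wg b x := by
  have hbr : (4 : ℝ) ≤ b := by exact_mod_cast hb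
  have hpi := Real.pi_pos
  have hM := mM_pos b
  set a : ℝ := Real.sqrt c / 2 / b with ha
  set δ : ℝ := c / (4 * ((b + 1) * (b + 2))) with hδ
  have hδ0 : 0 < δ := by positivity
  have hδ1 : δ ≤ 1 := by
    rw [hδ, div_le_one (by positivity)]
    nlinarith
  set T : Set ℂ := {x : ℂ | a ≤ ‖x‖ ∧ ‖x‖ ≤ 1 - δ ∧
      ENNReal.ofReal (c / 4) * (ENNReal.ofReal V * wg b x) ≤ F x ∧ x ∈ ball (0 : ℂ) 1} with hT
  have hTm : MeasurableSet T := by
    have e : T = {x | a ≤ ‖x‖} ∩ ({x | ‖x‖ ≤ 1 - δ} ∩ ({x | ENNReal.ofReal (c / 4) *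
      (ENNReal.ofReal V * wg b x) ≤ F x} ∩ ball (0 : ℂ) 1)) := rfl
    rw [e]
    refine (measurableSet_le measurable_const measurable_norm).inter
      ((measurableSet_le measurable_norm measurable_const).inter
      ((measurableSet_le ?_ hFm).inter measurableSet_ball))
    exact measurable_const.mul (measurable_const.mul (measurable_wg b))
  -- pointwise
  have hpt : ∀ x, F x ≤ ENNReal.ofReal V * ((ball (0 : ℂ) a).indicator (fun _ => 1) x +
      ((ball (0 : ℂ) 1).indicator (fun _ => ENNReal.ofReal δ) x +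
      ((ball (0 : ℂ) 1).indicator (fun x => ENNReal.ofReal (c / 4) * wg b x) x +
        T.indicator (fun x => wg b x) x))) := by
    intro x
    by_cases hx : x ∈ ball (0 : ℂ) 1
    · have hFx := hF x
      rw [indicator_of_mem hx] at hFx
      rcases lt_or_ge ‖x‖ a with h1 | h1
      · rw [indicator_of_mem (show x ∈ ball (0 : ℂ) a by rw [mem_ball_zero_iff]; exact h1)]
        refine hFx.trans ?_
        gcongr
        exact (wg_le_one b hx).trans le_self_add
      · rcases le_or_gt ‖x‖ (1 - δ) with h2 | h2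
        · by_cases h3 : ENNReal.ofReal (c / 4) * (ENNReal.ofReal V * wg b x) ≤ F x
          · rw [indicator_of_mem (show x ∈ T from ⟨h1, h2, h3, hx⟩)]
            refine hFx.trans ?_
            gcongr
            exact le_add_left (le_add_left le_add_self)
          · refine (not_le.1 h3).le.trans ?_
            rw [mul_left_comm]
            gcongr
            rw [indicator_of_mem (f := fun x => ENNReal.ofReal (c / 4) * wg b x) hx]
            exact le_add_left (le_add_left le_self_add)
        · refine hFx.trans ?_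
          gcongr
          rw [indicator_of_mem (f := fun _ => ENNReal.ofReal δ) hx]
          refine le_add_left (le_trans ?_ le_self_add)
          unfold wg
          apply ENNReal.ofReal_le_ofReal
          rw [mem_ball_zero_iff] at hx
          have h4 : 0 ≤ 1 - ‖x‖ := by linarith
          have h5 : 1 - ‖x‖ ≤ 1 := by linarith [norm_nonneg x]
          calc (1 - ‖x‖) ^ b ≤ (1 - ‖x‖) ^ 1 := pow_le_pow_of_le_one h4 h5 (by omega)
            _ ≤ δ := by rw [pow_one]; linarith
    · have hFx := hF x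
      rw [indicator_of_notMem hx] at hFx
      exact hFx.trans bot_le
  have hint := lintegral_mono (μ := (volume : Measure ℂ)) hpt
  have h1 : ∫⁻ x, ENNReal.ofReal V * ((ball (0 : ℂ) a).indicator (fun _ => 1) x +
      ((ball (0 : ℂ) 1).indicator (fun _ => ENNReal.ofReal δ) x +
      ((ball (0 : ℂ) 1).indicator (fun x => ENNReal.ofReal (c / 4) * wg b x) x +
        T.indicator (fun x => wg b x) x))) = ENNReal.ofReal V * (volume (ball (0 : ℂ) a) +
        (ENNReal.ofReal δ * volume (ball (0 : ℂ) 1) + (ENNReal.ofReal (c / 4) * ENNReal.ofReal (mM b)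
        + ∫⁻ x in T, wg b x))) := by
    have m1 : Measurable ((ball (0 : ℂ) a).indicator (fun _ => (1 : ℝ≥0∞))) :=
      measurable_const.indicator measurableSet_ball
    have m2 : Measurable ((ball (0 : ℂ) 1).indicator (fun _ => ENNReal.ofReal δ)) :=
      measurable_const.indicator measurableSet_ball
    have m3 : Measurable ((ball (0 : ℂ) 1).indicator (fun x => ENNReal.ofReal (c / 4) * wg b x)) :=
      (measurable_const.mul (measurable_wg b)).indicator measurableSet_ball
    rw [lintegral_const_mul' _ _ ENNReal.ofReal_ne_top, lintegral_add_left m1,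
      lintegral_add_left m2, lintegral_add_left m3, lintegral_indicator_const measurableSet_ball,
      lintegral_indicator_const measurableSet_ball, lintegral_indicator measurableSet_ball,
      lintegral_indicator hTm, lintegral_const_mul' _ _ ENNReal.ofReal_ne_top,
      lintegral_wg_ball, one_mul]
  rw [h1] at hint
  have htot2 := htot.trans hint
  -- numerical bounds
  have n1 : volume (ball (0 : ℂ) a) ≤ ENNReal.ofReal (c / 4 * mM b) := by
    rw [Complex.volume_ball]
    have e1 : (ENNReal.ofReal a) ^ 2 * (NNReal.pi : ℝ≥0∞) = ENNReal.ofReal (a ^ 2 * Real.pi) := by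
      rw [ENNReal.ofReal_mul (by positivity), ENNReal.ofReal_pow (by positivity)]
      congr 1
      exact (ENNReal.ofReal_coe_nnreal (p := NNReal.pi)).symm
    rw [e1]
    apply ENNReal.ofReal_le_ofReal
    have e2 : a ^ 2 = c / (4 * b ^ 2) := by
      rw [ha, div_pow, div_pow, Real.sq_sqrt hc0.le]
      field_simp
      norm_num
    rw [e2, mM]
    have e3 : c / (4 * (b : ℝ) ^ 2) * Real.pi = (c / 4 * Real.pi) * (1 / (b : ℝ) ^ 2) := by
      field_simp
    have e4 : c / 4 * (2 * Real.pi / (((b : ℝ) + 1) * (b + 2))) =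
      (c / 4 * Real.pi) * (2 / (((b : ℝ) + 1) * (b + 2))) := by ring
    rw [e3, e4]
    gcongr ?_ * ?_
    rw [div_le_div_iff₀ (by positivity) (by positivity)]
    nlinarith
  have n2 : ENNReal.ofReal δ * volume (ball (0 : ℂ) 1) ≤ ENNReal.ofReal (c / 8 * mM b) := by
    rw [Complex.volume_ball]
    have e1 : (ENNReal.ofReal 1) ^ 2 * (NNReal.pi : ℝ≥0∞) = ENNReal.ofReal Real.pi := by
      rw [ENNReal.ofReal_one, one_pow, one_mul]
      exact (ENNReal.ofReal_coe_nnreal (p := NNReal.pi)).symm
    rw [e1, ← ENNReal.ofReal_mul hδ0.le]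
    apply ENNReal.ofReal_le_ofReal
    rw [hδ, mM]
    apply le_of_eq
    field_simp
    norm_num
  by_contra hcon
  rw [not_le] at hcon
  have hI : ∫⁻ x in T, wg b x ≤ ENNReal.ofReal (c / 4 * mM b) := hcon.le
  have hcM : 0 < c * mM b := by positivity
  have h5 : ENNReal.ofReal (c * (V * mM b)) ≤ ENNReal.ofReal (V * (7 / 8 * (c * mM b))) := by
    refine htot2.trans ?_
    rw [ENNReal.ofReal_mul hV.le]
    gcongr
    calc volume (ball (0 : ℂ) a) + (ENNReal.ofReal δ * volume (ball (0 : ℂ) 1) +
          (ENNReal.ofReal (c / 4) * ENNReal.ofReal (mM b) + ∫⁻ x in T, wg b x))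
        ≤ ENNReal.ofReal (c / 4 * mM b) + (ENNReal.ofReal (c / 8 * mM b) +
          (ENNReal.ofReal (c / 4 * mM b) + ENNReal.ofReal (c / 4 * mM b))) := by
          rw [← ENNReal.ofReal_mul (by positivity)]
          gcongr
      _ = ENNReal.ofReal (7 / 8 * (c * mM b)) := by
          rw [← ENNReal.ofReal_add (by positivity) (by positivity),
            ← ENNReal.ofReal_add (by positivity) (by positivity),
            ← ENNReal.ofReal_add (by positivity) (by positivity)]
          congr 1
          ring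
  have hpos : 0 < V * (c * mM b) := by positivity
  rw [ENNReal.ofReal_le_ofReal_iff (by positivity)] at h5
  nlinarith

end Pool.Agent.W2helper3.Cone
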