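import Pool.Agent.W2helper3.Cone.Geo

set_option autoImplicit false

/-! # Two points with a definite angle -/

namespace Pool.Agent.W2helper3.Cone

open MeasureTheory Set Metric Filter Pool.Agent.TH703.Cone
open scoped ENNReal InnerProductSpace Topology Pointwise

lemma vol_rect {s : ℝ} (hs : 0 ≤ s) :
    volume {w : ℂ | |w.re| ≤ 1 ∧ |w.im| ≤ s} = ENNReal.ofReal (4 * s) := by
  have h1 : {w : ℂ | |w.re| ≤ 1 ∧ |w.im| ≤ s} =
      Complex.measurableEquivRealProd ⁻¹' (Icc (-1 : ℝ) 1 ×ˢ Icc (-s) s) := by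
    ext w
    simp only [mem_ofPred_eq, mem_preimage, mem_prod, mem_Icc, Complex.measurableEquivRealProd_apply,
      abs_le]
  rw [h1, Complex.volume_preserving_equiv_real_prod.measure_preimage
    (measurableSet_Icc.prod measurableSet_Icc).nullMeasurableSet]
  have e : (volume : Measure (ℝ × ℝ)) = (volume : Measure ℝ).prod (volume : Measure ℝ) := rfl
  rw [e, Measure.prod_prod, Real.volume_Icc, Real.volume_Icc, ← ENNReal.ofReal_mul (by norm_num)]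
  congr 1
  ring

lemma strip {x1 : ℂ} (h1 : x1 ≠ 0) {s : ℝ} (hs : 0 ≤ s) :
    volume {x : ℂ | ‖x‖ < 1 ∧ |x1.re * x.im - x1.im * x.re| ≤ s * ‖x1‖} ≤
      ENNReal.ofReal (4 * s) := by
  have n1 : 0 < ‖x1‖ := norm_pos_iff.2 h1
  set v : ℂ := (starRingEnd ℂ) x1 / (‖x1‖ : ℂ) with hv
  have hvn : ‖v‖ = 1 := by
    rw [hv, norm_div, RCLike.norm_conj, Complex.norm_real, norm_norm, div_self n1.ne']
  obtain ⟨c, hc⟩ : ∃ c : Circle, (c : ℂ) = v := ⟨⟨v, mem_sphere_zero_iff_norm.2 hvn⟩, rfl⟩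
  have h2 : {x : ℂ | ‖x‖ < 1 ∧ |x1.re * x.im - x1.im * x.re| ≤ s * ‖x1‖} ⊆
      (rotation c) ⁻¹' {w : ℂ | |w.re| ≤ 1 ∧ |w.im| ≤ s} := by
    rintro x ⟨hx1, hx2⟩
    rw [mem_preimage, mem_ofPred_eq, rotation_apply, hc]
    constructor
    · refine (Complex.abs_re_le_norm _).trans ?_
      rw [norm_mul, hvn, one_mul]
      exact hx1.le
    · have h3 : (v * x).im = (x1.re * x.im - x1.im * x.re) / ‖x1‖ := by
        rw [hv, div_mul_eq_mul_div, Complex.div_ofReal_im, Complex.mul_im, Complex.conj_re,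
          Complex.conj_im]
        ring
      rw [h3, abs_div, abs_of_pos n1, div_le_iff₀ n1]
      exact hx2
  refine (measure_mono h2).trans ?_
  rw [← vol_rect hs]
  exact ((rotation c).measurePreserving.measure_preimage_equiv
    (f := (rotation c).toMeasurableEquiv) _).le

lemma pair {b : ℕ} {T : Set ℂ} {m : ℝ} (hT : T ⊆ ball (0 : ℂ) 1) (hT0 : ∀ x ∈ T, x ≠ 0)
    (hm : 0 < m) (h : ENNReal.ofReal m ≤ ∫⁻ x in T, wg b x) :
    ∃ x1 ∈ T, ∃ x2 ∈ T, 0 ≤ x1.re * x2.re + x1.im * x2.im ∧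
      m / 32 * (‖x1‖ * ‖x2‖) ≤ |x1.re * x2.im - x1.im * x2.re| := by
  -- quadrants
  have hquad : ∃ Q : Set ℂ, (∀ x ∈ Q, ∀ y ∈ Q, 0 ≤ x.re * y.re + x.im * y.im) ∧
      ENNReal.ofReal (m / 4) ≤ ∫⁻ x in T ∩ Q, wg b x := by
    by_contra hcon
    push Not at hcon
    set Q1 : Set ℂ := {x | 0 ≤ x.re ∧ 0 ≤ x.im}
    set Q2 : Set ℂ := {x | 0 ≤ x.re ∧ x.im ≤ 0}
    set Q3 : Set ℂ := {x | x.re ≤ 0 ∧ 0 ≤ x.im}
    set Q4 : Set ℂ := {x | x.re ≤ 0 ∧ x.im ≤ 0}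
    have q1 := hcon Q1 (fun x hx y hy => add_nonneg (mul_nonneg hx.1 hy.1) (mul_nonneg hx.2 hy.2))
    have q2 := hcon Q2 (fun x hx y hy => add_nonneg (mul_nonneg hx.1 hy.1)
      (mul_nonneg_of_nonpos_of_nonpos hx.2 hy.2))
    have q3 := hcon Q3 (fun x hx y hy => add_nonneg (mul_nonneg_of_nonpos_of_nonpos hx.1 hy.1)
      (mul_nonneg hx.2 hy.2))
    have q4 := hcon Q4 (fun x hx y hy => add_nonneg (mul_nonneg_of_nonpos_of_nonpos hx.1 hy.1)
      (mul_nonneg_of_nonpos_of_nonpos hx.2 hy.2))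
    have hcov : T ⊆ (T ∩ Q1 ∪ T ∩ Q2) ∪ (T ∩ Q3 ∪ T ∩ Q4) := by
      intro x hx
      rcases le_total 0 x.re with h1 | h1 <;> rcases le_total 0 x.im with h2 | h2
      · exact Or.inl (Or.inl ⟨hx, h1, h2⟩)
      · exact Or.inl (Or.inr ⟨hx, h1, h2⟩)
      · exact Or.inr (Or.inl ⟨hx, h1, h2⟩)
      · exact Or.inr (Or.inr ⟨hx, h1, h2⟩)
    have hlt : ∫⁻ x in T, wg b x < ENNReal.ofReal m := by
      calc ∫⁻ x in T, wg b x ≤ ∫⁻ x in (T ∩ Q1 ∪ T ∩ Q2) ∪ (T ∩ Q3 ∪ T ∩ Q4), wg b x :=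
            lintegral_mono_set hcov
        _ ≤ (∫⁻ x in T ∩ Q1 ∪ T ∩ Q2, wg b x) + ∫⁻ x in T ∩ Q3 ∪ T ∩ Q4, wg b x :=
            lintegral_union_le _ _ _
        _ ≤ ((∫⁻ x in T ∩ Q1, wg b x) + ∫⁻ x in T ∩ Q2, wg b x) +
            ((∫⁻ x in T ∩ Q3, wg b x) + ∫⁻ x in T ∩ Q4, wg b x) :=
            add_le_add (lintegral_union_le _ _ _) (lintegral_union_le _ _ _)
        _ < (ENNReal.ofReal (m / 4) + ENNReal.ofReal (m / 4)) +
            (ENNReal.ofReal (m / 4) + ENNReal.ofReal (m / 4)) :=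
            ENNReal.add_lt_add (ENNReal.add_lt_add q1 q2) (ENNReal.add_lt_add q3 q4)
        _ = ENNReal.ofReal m := by
            rw [← ENNReal.ofReal_add (by positivity) (by positivity),
              ← ENNReal.ofReal_add (by positivity) (by positivity)]
            congr 1
            ring
    exact absurd h (not_le.2 hlt)
  obtain ⟨Q, hQ, hQm⟩ := hquad
  have hne : (T ∩ Q).Nonempty := by
    by_contra hcon
    rw [not_nonempty_iff_eq_empty] at hcon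
    rw [hcon] at hQm
    simp only [Measure.restrict_empty, lintegral_zero_measure, nonpos_iff_eq_zero,
      ENNReal.ofReal_eq_zero] at hQm
    linarith
  obtain ⟨x1, hx1T, hx1Q⟩ := hne
  have h1 := hT0 x1 hx1T
  have n1 : 0 < ‖x1‖ := norm_pos_iff.2 h1
  set D : Set ℂ := {x : ℂ | ‖x‖ < 1 ∧ |x1.re * x.im - x1.im * x.re| ≤ m / 32 * ‖x1‖} with hD
  have hDm : MeasurableSet D := by
    have e : D = {x : ℂ | ‖x‖ < 1} ∩ {x : ℂ | |x1.re * x.im - x1.im * x.re| ≤ m / 32 * ‖x1‖} := rfl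
    rw [e]
    refine (measurableSet_lt measurable_norm measurable_const).inter (measurableSet_le ?_
      measurable_const)
    have : Continuous (fun x : ℂ => |x1.re * x.im - x1.im * x.re|) := by fun_prop
    exact this.measurable
  have hnot : ¬ (T ∩ Q ⊆ D) := by
    intro hsub
    have h2 : ∫⁻ x in T ∩ Q, wg b x ≤ ENNReal.ofReal (4 * (m / 32)) := by
      calc ∫⁻ x in T ∩ Q, wg b x ≤ ∫⁻ x in D, wg b x := lintegral_mono_set hsub
        _ ≤ ∫⁻ x in D, 1 := by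
            apply setLIntegral_mono' hDm
            intro x hx
            exact wg_le_one b (by rw [mem_ball_zero_iff]; exact hx.1)
        _ = volume D := by rw [setLIntegral_const, one_mul]
        _ ≤ _ := strip h1 (by positivity)
    have h3 := hQm.trans h2
    rw [ENNReal.ofReal_le_ofReal_iff (by positivity)] at h3
    linarith
  obtain ⟨x2, ⟨hx2T, hx2Q⟩, hx2D⟩ := not_subset.1 hnot
  have hx2n : ‖x2‖ < 1 := by
    have := hT hx2T
    rwa [mem_ball_zero_iff] at this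
  refine ⟨x1, hx1T, x2, hx2T, hQ x1 hx1Q x2 hx2Q, ?_⟩
  have h4 : m / 32 * ‖x1‖ < |x1.re * x2.im - x1.im * x2.re| := by
    by_contra hcon
    exact hx2D ⟨hx2n, not_lt.1 hcon⟩
  have h5 : m / 32 * (‖x1‖ * ‖x2‖) ≤ m / 32 * ‖x1‖ := by
    have : ‖x1‖ * ‖x2‖ ≤ ‖x1‖ * 1 := by gcongr
    rw [mul_one] at this
    gcongr
  linarith

end Pool.Agent.W2helper3.Cone
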