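import Pool.Agent.W2helper3.Cone.Cyl

set_option autoImplicit false

/-! # The angular profile -/

namespace Pool.Agent.W2helper3.Cone

open MeasureTheory Set Metric Pool.Agent.TH703.Cone
open scoped ENNReal InnerProductSpace

/-- derivative of the profile -/
noncomputable def dps (t : ℝ) : ℝ := 3 / 2 * max 0 (1 - t ^ 2)

lemma continuous_dps : Continuous dps := by unfold dps; fun_prop

lemma dps_nonneg (t : ℝ) : 0 ≤ dps t := by
  unfold dps
  have := le_max_left (0 : ℝ) (1 - t ^ 2)
  positivity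

lemma dps_le (t : ℝ) : dps t ≤ 3 / 2 := by
  unfold dps
  have : max 0 (1 - t ^ 2) ≤ 1 := max_le zero_le_one (by nlinarith [sq_nonneg t])
  linarith

lemma dps_zero {t : ℝ} (h : 1 ≤ |t|) : dps t = 0 := by
  unfold dps
  have : 1 ≤ t ^ 2 := by rw [← sq_abs]; nlinarith
  rw [max_eq_left (by linarith), mul_zero]

/-- the profile -/
noncomputable def psi (t : ℝ) : ℝ := ∫ s in (0 : ℝ)..t, dps s

lemma hasDerivAt_psi (t : ℝ) : HasDerivAt psi (dps t) t :=
  intervalIntegral.integral_hasDerivAt_right (continuous_dps.intervalIntegrable _ _)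
    continuous_dps.stronglyMeasurable.stronglyMeasurableAtFilter continuous_dps.continuousAt

lemma deriv_psi : deriv psi = dps := funext fun t => (hasDerivAt_psi t).deriv

lemma contDiff_psi : ContDiff ℝ 1 psi := by
  rw [contDiff_one_iff_deriv, deriv_psi]
  exact ⟨fun t => (hasDerivAt_psi t).differentiableAt, continuous_dps⟩

lemma psi_mono : Monotone psi := by
  apply monotone_of_deriv_nonneg (fun t => (hasDerivAt_psi t).differentiableAt)
  intro t
  rw [deriv_psi]
  exact dps_nonneg t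

lemma integral_dps_01 : ∫ s in (0 : ℝ)..1, dps s = 1 := by
  have h : ∫ s in (0 : ℝ)..1, dps s = ∫ s in (0 : ℝ)..1, (3 / 2 * (1 - s ^ 2)) := by
    apply intervalIntegral.integral_congr
    intro s hs
    rw [uIcc_of_le zero_le_one] at hs
    change 3 / 2 * max 0 (1 - s ^ 2) = 3 / 2 * (1 - s ^ 2)
    rw [max_eq_right]
    nlinarith [hs.1, hs.2]
  rw [h, intervalIntegral.integral_const_mul, intervalIntegral.integral_sub, integral_pow,
    intervalIntegral.integral_const]
  · norm_num
  · exact continuous_const.intervalIntegrable _ _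
  · exact (continuous_pow 2).intervalIntegrable _ _

lemma psi_one_of_le {t : ℝ} (h : 1 ≤ t) : psi t = 1 := by
  unfold psi
  rw [← intervalIntegral.integral_add_adjacent_intervals
    (continuous_dps.intervalIntegrable 0 1) (continuous_dps.intervalIntegrable 1 t),
    integral_dps_01]
  have h2 : ∫ s in (1 : ℝ)..t, dps s = ∫ s in (1 : ℝ)..t, (0 : ℝ) := by
    apply intervalIntegral.integral_congr
    intro s hs
    rw [uIcc_of_le h] at hs
    exact dps_zero (by rw [abs_of_nonneg (by linarith [hs.1])]; exact hs.1)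
  rw [h2]
  simp

lemma psi_neg (t : ℝ) : psi (-t) = - psi t := by
  unfold psi
  have h : ∀ s, dps s = dps (-s) := by
    intro s
    unfold dps
    rw [neg_sq]
  have h1 : ∫ s in (0 : ℝ)..(-t), dps s = ∫ s in (0 : ℝ)..(-t), dps (-s) :=
    intervalIntegral.integral_congr fun s _ => h s
  rw [h1, intervalIntegral.integral_comp_neg, neg_neg, neg_zero, intervalIntegral.integral_symm]

lemma abs_psi_le (t : ℝ) : |psi t| ≤ 1 := by
  rw [abs_le]
  constructor
  · rcases le_or_gt t (-1) with h | h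
    · have := psi_neg t
      rw [psi_one_of_le (by linarith)] at this
      linarith
    · have h1 := psi_mono h.le
      rw [psi_neg, psi_one_of_le le_rfl] at h1
      exact h1
  · rcases le_or_gt 1 t with h | h
    · rw [psi_one_of_le h]
    · have h1 := psi_mono h.le
      rwa [psi_one_of_le le_rfl] at h1

/-- the angular factor -/
noncomputable def kap (σ : ℝ) (w : ℂ) : ℝ := dps (w.im / (σ * ‖w‖)) * (w.re / (σ * ‖w‖))

lemma kap_abs_le {σ : ℝ} (hσ : 0 < σ) (w : ℂ) : |kap σ w| ≤ 3 / 2 / σ := by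
  unfold kap
  rw [abs_mul, abs_of_nonneg (dps_nonneg _)]
  have h1 : |w.re / (σ * ‖w‖)| ≤ 1 / σ := by
    rcases eq_or_ne w 0 with h | h
    · subst h
      simp
      positivity
    · have hw : 0 < ‖w‖ := norm_pos_iff.2 h
      rw [abs_div, abs_of_pos (by positivity : 0 < σ * ‖w‖), div_le_div_iff₀ (by positivity) hσ]
      have := Complex.abs_re_le_norm w
      nlinarith
  calc dps (w.im / (σ * ‖w‖)) * |w.re / (σ * ‖w‖)| ≤ 3 / 2 * (1 / σ) :=
        mul_le_mul (dps_le _) h1 (abs_nonneg _) (by norm_num)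
    _ = 3 / 2 / σ := by ring

lemma kap_zero {σ : ℝ} (hσ : 0 < σ) {w : ℂ} (h : σ * ‖w‖ < |w.im|) : kap σ w = 0 := by
  unfold kap
  rcases eq_or_ne w 0 with h0 | h0
  · subst h0
    simp
  · have hw : 0 < ‖w‖ := norm_pos_iff.2 h0
    rw [dps_zero, zero_mul]
    rw [abs_div, abs_of_pos (by positivity : 0 < σ * ‖w‖), one_le_div (by positivity)]
    exact h.le

lemma measurable_kap (σ : ℝ) : Measurable (kap σ) := by
  unfold kap
  exact (continuous_dps.measurable.comp (Complex.measurable_im.div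
    (measurable_const.mul measurable_norm))).mul
    (Complex.measurable_re.div (measurable_const.mul measurable_norm))

/-- the angular integral -/
lemma angular {σ : ℝ} (hσ : 0 < σ) (hσ1 : σ ≤ 1 / 2) :
    ∫ θ in Ioo (-Real.pi) Real.pi, (if 0 < Real.cos θ then
      dps (Real.sin θ / σ) * (Real.cos θ / σ) else 0) = 2 := by
  have hpi := Real.pi_pos
  set f : ℝ → ℝ := fun θ => dps (Real.sin θ / σ) * (Real.cos θ / σ) with hf
  have hfc : Continuous f := by
    simp only [hf]
    exact (continuous_dps.comp (by fun_prop)).mul (by fun_prop)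
  have h1 : ∀ θ ∈ Ioo (-Real.pi) Real.pi, (if 0 < Real.cos θ then f θ else 0) =
      (Ioo (-(Real.pi / 2)) (Real.pi / 2)).indicator f θ := by
    intro θ hθ
    by_cases h : θ ∈ Ioo (-(Real.pi / 2)) (Real.pi / 2)
    · rw [indicator_of_mem h, if_pos (Real.cos_pos_of_mem_Ioo h)]
    · rw [indicator_of_notMem h, if_neg]
      rw [not_lt]
      rcases le_or_gt θ (-(Real.pi / 2)) with h2 | h2
      · rw [← Real.cos_neg]
        exact Real.cos_nonpos_of_pi_div_two_le_of_le (by linarith) (by linarith [hθ.1])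
      · rcases le_or_gt (Real.pi / 2) θ with h3 | h3
        · exact Real.cos_nonpos_of_pi_div_two_le_of_le h3 (by linarith [hθ.2])
        · exact absurd ⟨h2, h3⟩ h
  rw [setIntegral_congr_fun measurableSet_Ioo h1, setIntegral_indicator measurableSet_Ioo]
  have h2 : Ioo (-Real.pi) Real.pi ∩ Ioo (-(Real.pi / 2)) (Real.pi / 2) =
      Ioo (-(Real.pi / 2)) (Real.pi / 2) := by
    apply inter_eq_self_of_subset_right
    exact Ioo_subset_Ioo (by linarith) (by linarith)
  rw [h2, ← integral_Ioc_eq_integral_Ioo, ← intervalIntegral.integral_of_le (by linarith)]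
  have hd : ∀ θ : ℝ, HasDerivAt (fun θ => psi (Real.sin θ / σ)) (f θ) θ := by
    intro θ
    exact (hasDerivAt_psi (Real.sin θ / σ)).comp θ ((Real.hasDerivAt_sin θ).div_const σ)
  rw [intervalIntegral.integral_eq_sub_of_hasDerivAt (fun θ _ => hd θ)
    (hfc.intervalIntegrable _ _), Real.sin_neg, Real.sin_pi_div_two]
  have h3 : 1 ≤ 1 / σ := by rw [le_div_iff₀ hσ]; linarith
  rw [neg_div, psi_neg, psi_one_of_le h3]
  norm_num

/-- the restricted angular factor -/
noncomputable def kapP (σ : ℝ) (w : ℂ) : ℝ := if 0 < w.re then kap σ w else 0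

lemma measurable_kapP (σ : ℝ) : Measurable (kapP σ) := by
  unfold kapP
  exact Measurable.ite (measurableSet_lt measurable_const Complex.measurable_re)
    (measurable_kap σ) measurable_const

lemma polar_kap {σ : ℝ} (hσ : 0 < σ) (hσ1 : σ ≤ 1 / 2) (f : ℝ → ℝ) :
    ∫ w : ℂ, f ‖w‖ * kapP σ w = 2 * ∫ y in Ioi (0 : ℝ), y * f y := by
  rw [← Complex.integral_comp_polarCoord_symm, polarCoord_target]
  have h1 : ∀ p ∈ Ioi (0 : ℝ) ×ˢ Ioo (-Real.pi) Real.pi,
      p.1 • (f ‖Complex.polarCoord.symm p‖ * kapP σ (Complex.polarCoord.symm p)) =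
      (p.1 * f p.1) * (if 0 < Real.cos p.2 then
        dps (Real.sin p.2 / σ) * (Real.cos p.2 / σ) else 0) := by
    rintro ⟨ρ, θ⟩ ⟨hρ, hθ⟩
    have hρ' : 0 < ρ := hρ
    have hn : ‖Complex.polarCoord.symm (ρ, θ)‖ = ρ := by
      rw [Complex.norm_polarCoord_symm, abs_of_pos hρ']
    have hre : (Complex.polarCoord.symm (ρ, θ)).re = ρ * Real.cos θ := by
      rw [Complex.polarCoord_symm_apply]
      simp [Complex.cos_ofReal_re]
    have him : (Complex.polarCoord.symm (ρ, θ)).im = ρ * Real.sin θ := by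
      rw [Complex.polarCoord_symm_apply]
      simp [Complex.sin_ofReal_re]
    simp only [hn, kapP, kap, hre, him, smul_eq_mul]
    have e1 : ρ * Real.sin θ / (σ * ρ) = Real.sin θ / σ := by field_simp
    have e2 : ρ * Real.cos θ / (σ * ρ) = Real.cos θ / σ := by field_simp
    rw [e1, e2]
    by_cases h : 0 < Real.cos θ
    · rw [if_pos h, if_pos (by positivity)]
      ring
    · rw [if_neg h, if_neg]
      · ring
      · intro h2
        exact h ((mul_pos_iff_of_pos_left hρ').1 h2)
  have hm : MeasurableSet (Ioi (0 : ℝ) ×ˢ Ioo (-Real.pi) Real.pi) :=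
    measurableSet_Ioi.prod measurableSet_Ioo
  rw [setIntegral_congr_fun hm h1]
  have e : (volume : Measure (ℝ × ℝ)) = (volume : Measure ℝ).prod (volume : Measure ℝ) := rfl
  rw [e, setIntegral_prod_mul (fun y : ℝ => y * f y) (fun θ : ℝ => if 0 < Real.cos θ then
        dps (Real.sin θ / σ) * (Real.cos θ / σ) else 0), angular hσ hσ1]
  ring

lemma polar_kap' {σ : ℝ} (hσ : 0 < σ) (hσ1 : σ ≤ 1 / 2) {u : ℂ} (hu : ‖u‖ = 1) (f : ℝ → ℝ) :
    ∫ x : ℂ, f ‖x‖ * kapP σ (x * u) = (1 / Real.pi) * ∫ x : ℂ, f ‖x‖ := by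
  have h1 : ∫ x : ℂ, f ‖x‖ * kapP σ (x * u) = ∫ w : ℂ, f ‖w‖ * kapP σ w := by
    obtain ⟨c, hc⟩ : ∃ c : Circle, (c : ℂ) = u := ⟨⟨u, mem_sphere_zero_iff_norm.2 hu⟩, rfl⟩
    have h2 := (rotation c).measurePreserving.integral_comp
      (rotation c).toMeasurableEquiv.measurableEmbedding (fun w : ℂ => f ‖w‖ * kapP σ w)
    rw [← h2]
    congr 1
    ext x
    rw [rotation_apply, hc, norm_mul, hu, one_mul, mul_comm u x]
  rw [h1, polar_kap hσ hσ1, integral_radial]
  have := Real.pi_pos
  field_simp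

end Pool.Agent.W2helper3.Cone
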