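import Pool.Agent.W2helper3.Cone.Psi

set_option autoImplicit false

/-! # T4: lower bound by the rotational field -/

namespace Pool.Agent.W2helper3.Cone

open MeasureTheory Set Metric Pool.Agent.TH703.Cone
open scoped ENNReal InnerProductSpace

section
variable {b : ℕ}

/-- infinitesimal rotation -/
noncomputable def Lr (b : ℕ) (z : W b) : W b := mk (Complex.I * z.fst) 0

/-- infinitesimal rotation, as a linear map -/
noncomputable def LrL (b : ℕ) : W b →L[ℝ] W b :=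
  LinearMap.toContinuousLinearMap
    { toFun := Lr b
      map_add' := by
        intro z w
        unfold Lr
        have : (z + w).fst = z.fst + w.fst := rfl
        rw [this, mul_add]
        change _ = mk (Complex.I * z.fst + Complex.I * w.fst) (0 + 0)
        rw [add_zero]
      map_smul' := by
        intro c z
        unfold Lr
        have : (c • z).fst = c • z.fst := rfl
        rw [this, mul_smul_comm, RingHom.id_apply]
        change _ = mk (c • (Complex.I * z.fst)) (c • 0)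
        rw [smul_zero] }

lemma LrL_apply (z : W b) : LrL b z = Lr b z := rfl

lemma inner_Lr (z : W b) : ⟪z, Lr b z⟫_ℝ = 0 := by
  rw [WithLp.prod_inner_apply]
  change ⟪z.fst, Complex.I * z.fst⟫_ℝ + ⟪z.snd, (0 : B b)⟫_ℝ = 0
  rw [inner_zero_right, add_zero, Complex.inner]
  simp
  ring

lemma dv_Lr (z : W b) : dv (Lr b) z = 0 := by
  have h : fderiv ℝ (Lr b) z = LrL b := (LrL b).hasFDerivAt.fderiv
  rw [Div.dv_eq_sum (stdOrthonormalBasis ℝ (W b)), h]
  refine Finset.sum_eq_zero fun i _ => ?_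
  rw [LrL_apply, inner_Lr]

lemma norm_Lr (z : W b) : ‖Lr b z‖ = ‖z.fst‖ := by
  unfold Lr mk
  simp

/-- the gauge of the body -/
noncomputable def Th (b : ℕ) (ε : ℝ) (z : W b) : ℝ := ε ^ 2 * (1 - ‖z.fst‖) ^ 2 - ‖z.snd‖ ^ 2

/-- the cut-off -/
noncomputable def chi (b : ℕ) (ε r₀ R₁ δ : ℝ) (z : W b) : ℝ :=
  stp r₀ δ ‖z.fst‖ * (1 - stp (R₁ - δ) δ ‖z.fst‖) * stp δ δ (Th b ε z)

lemma chi_nonneg (ε r₀ R₁ δ : ℝ) (z : W b) : 0 ≤ chi b ε r₀ R₁ δ z :=
  mul_nonneg (mul_nonneg (stp_nonneg _ _ _) (sub_nonneg.2 (stp_le_one _ _ _))) (stp_nonneg _ _ _)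

lemma chi_le_one (ε r₀ R₁ δ : ℝ) (z : W b) : chi b ε r₀ R₁ δ z ≤ 1 := by
  unfold chi
  have h1 := stp_le_one r₀ δ ‖z.fst‖
  have h2 : 1 - stp (R₁ - δ) δ ‖z.fst‖ ≤ 1 := sub_le_self _ (stp_nonneg _ _ _)
  have h3 := stp_le_one δ δ (Th b ε z)
  have h4 := stp_nonneg r₀ δ ‖z.fst‖
  have h5 : 0 ≤ 1 - stp (R₁ - δ) δ ‖z.fst‖ := sub_nonneg.2 (stp_le_one _ _ _)
  have h6 := stp_nonneg δ δ (Th b ε z)
  calc stp r₀ δ ‖z.fst‖ * (1 - stp (R₁ - δ) δ ‖z.fst‖) * stp δ δ (Th b ε z)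
      ≤ 1 * 1 * 1 := by gcongr
    _ = 1 := by norm_num

lemma chi_ne_zero {ε r₀ R₁ δ : ℝ} (hδ : 0 < δ) {z : W b} (h : chi b ε r₀ R₁ δ z ≠ 0) :
    r₀ < ‖z.fst‖ ∧ ‖z.fst‖ < R₁ ∧ δ < Th b ε z := by
  unfold chi at h
  refine ⟨?_, ?_, ?_⟩
  · by_contra hc
    rw [stp_zero hδ (not_lt.1 hc)] at h
    simp at h
  · by_contra hc
    rw [stp_one (r := R₁ - δ) hδ (by linarith [not_lt.1 hc])] at h
    simp at h
  · by_contra hc
    rw [stp_zero (r := δ) hδ (not_lt.1 hc)] at h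
    simp at h

/-- the support region -/
def Cc (b : ℕ) (ε r₀ R₁ δ : ℝ) : Set (W b) :=
  {z | r₀ ≤ ‖z.fst‖ ∧ ‖z.fst‖ ≤ R₁ ∧ δ ≤ Th b ε z}

lemma continuous_Th (ε : ℝ) : Continuous (Th b ε) := by
  unfold Th
  exact (continuous_const.mul ((continuous_const.sub continuous_fst.norm).pow 2)).sub
    (continuous_snd.norm.pow 2)

lemma isClosed_Cc (ε r₀ R₁ δ : ℝ) : IsClosed (Cc b ε r₀ R₁ δ) :=
  (isClosed_le continuous_const continuous_fst.norm).inter
    ((isClosed_le continuous_fst.norm continuous_const).inter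
      (isClosed_le continuous_const (continuous_Th ε)))

lemma Cc_subset {ε r₀ R₁ δ : ℝ} (hε : 0 < ε) (hR : R₁ < 1) (hδ : 0 < δ) :
    Cc b ε r₀ R₁ δ ⊆ Om b ε := by
  rintro z ⟨_, h2, h3⟩
  rw [mem_Om]
  unfold Th at h3
  have h4 : 0 < 1 - ‖z.fst‖ := by linarith
  have h5 : ‖z.snd‖ ^ 2 < (ε * (1 - ‖z.fst‖)) ^ 2 := by
    rw [mul_pow]; linarith
  have h6 : ‖z.snd‖ < ε * (1 - ‖z.fst‖) := lt_of_pow_lt_pow_left₀ 2 (by positivity) h5
  have h7 : ‖z.snd‖ / ε < 1 - ‖z.fst‖ := by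
    rw [div_lt_iff₀ hε]; linarith
  linarith

lemma isCompact_Cc {ε r₀ R₁ δ : ℝ} (hε : 0 < ε) (hR : R₁ < 1) (hδ : 0 < δ) :
    IsCompact (Cc b ε r₀ R₁ δ) :=
  isCompact_of_isClosed_isBounded (isClosed_Cc _ _ _ _)
    ((bounded_Om b hε).subset (Cc_subset hε hR hδ))

/-- the radial factor of the field -/
noncomputable def Hf (b : ℕ) (ε r₀ R₁ δ : ℝ) (z : W b) : ℝ := chi b ε r₀ R₁ δ z / ‖z.fst‖

lemma Hf_near_zero {ε r₀ R₁ δ : ℝ} (h0 : 0 < r₀) (hδ : 0 < δ) {z : W b} (hz : z.fst = 0) :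
    ∀ᶠ w : W b in nhds z, chi b ε r₀ R₁ δ w = 0 := by
  have h2 : ∀ᶠ w : W b in nhds z, ‖w.fst‖ < r₀ := by
    apply (continuous_fst.norm).continuousAt.eventually_lt_const
    change ‖z.fst‖ < r₀
    rw [hz]
    simpa using h0
  filter_upwards [h2] with w hw
  by_contra hc
  have := (chi_ne_zero hδ hc).1
  linarith

lemma contDiffAt_norm_fst {z : W b} (hz : z.fst ≠ 0) :
    ContDiffAt ℝ 1 (fun z : W b => ‖z.fst‖) z :=
  ContDiffAt.comp z (g := fun x : ℂ => ‖x‖) (f := fun z : W b => z.fst) (contDiffAt_norm ℝ hz)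
    (pr b).contDiff.contDiffAt

lemma contDiffAt_Hf {ε r₀ R₁ δ : ℝ} {z : W b} (hz : z.fst ≠ 0) :
    ContDiffAt ℝ 1 (Hf b ε r₀ R₁ δ) z := by
  have hn := contDiffAt_norm_fst hz
  have hsn : ContDiff ℝ 1 (fun z : W b => ‖z.snd‖ ^ 2) :=
    (WithLp.sndL 2 ℝ ℂ (B b)).contDiff.norm_sq ℝ
  have hTh : ContDiffAt ℝ 1 (Th b ε) z := by
    unfold Th
    exact (contDiffAt_const.mul ((contDiffAt_const.sub hn).pow 2)).sub hsn.contDiffAt
  unfold Hf chi
  refine ContDiffAt.div ?_ hn (norm_ne_zero_iff.2 hz)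
  have e1 : ContDiffAt ℝ 1 (fun z : W b => stp r₀ δ ‖z.fst‖) z :=
    ContDiffAt.comp z (g := stp r₀ δ) (stp_contDiff r₀ δ).contDiffAt hn
  have e2 : ContDiffAt ℝ 1 (fun z : W b => stp (R₁ - δ) δ ‖z.fst‖) z :=
    ContDiffAt.comp z (g := stp (R₁ - δ) δ) (stp_contDiff (R₁ - δ) δ).contDiffAt hn
  have e3 : ContDiffAt ℝ 1 (fun z : W b => stp δ δ (Th b ε z)) z :=
    ContDiffAt.comp z (g := stp δ δ) (stp_contDiff δ δ).contDiffAt hTh
  exact (e1.mul (contDiffAt_const.sub e2)).mul e3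

/-- the scalar factor of the field -/
noncomputable def Gf (b : ℕ) (ε r₀ R₁ δ σ : ℝ) (u : ℂ) (z : W b) : ℝ :=
  Hf b ε r₀ R₁ δ z * psi ((z.fst * u).im / (σ * ‖z.fst‖))

lemma contDiff_Gf {ε r₀ R₁ δ σ : ℝ} (u : ℂ) (h0 : 0 < r₀) (hδ : 0 < δ) (hσ : 0 < σ) :
    ContDiff ℝ 1 (Gf b ε r₀ R₁ δ σ u) := by
  rw [contDiff_iff_contDiffAt]
  intro z
  rcases eq_or_ne z.fst 0 with hz | hz
  · have h1 : (Gf b ε r₀ R₁ δ σ u) =ᶠ[nhds z] fun _ => 0 := by
      filter_upwards [Hf_near_zero (ε := ε) (R₁ := R₁) h0 hδ hz] with w hw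
      unfold Gf Hf
      rw [hw, zero_div, zero_mul]
    exact contDiffAt_const.congr_of_eventuallyEq h1
  · refine (contDiffAt_Hf hz).mul ?_
    have h1 : ContDiffAt ℝ 1 (fun z : W b => (z.fst * u).im) z := by
      have : ContDiff ℝ 1 (fun z : W b => Complex.imCLM (z.fst * u)) :=
        Complex.imCLM.contDiff.comp ((pr b).contDiff.mul contDiff_const)
      exact this.contDiffAt
    have h2 : ContDiffAt ℝ 1 (fun z : W b => (z.fst * u).im / (σ * ‖z.fst‖)) z := by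
      refine h1.div (contDiffAt_const.mul (contDiffAt_norm_fst hz)) ?_
      exact mul_ne_zero hσ.ne' (norm_ne_zero_iff.2 hz)
    exact ContDiffAt.comp z contDiff_psi.contDiffAt h2

lemma continuous_Hf {ε r₀ R₁ δ : ℝ} (h0 : 0 < r₀) (hδ : 0 < δ) :
    Continuous (Hf b ε r₀ R₁ δ) := by
  rw [continuous_iff_continuousAt]
  intro z
  rcases eq_or_ne z.fst 0 with hz | hz
  · have h1 : (Hf b ε r₀ R₁ δ) =ᶠ[nhds z] fun _ => 0 := by
      filter_upwards [Hf_near_zero (ε := ε) (R₁ := R₁) h0 hδ hz] with w hw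
      unfold Hf
      rw [hw, zero_div]
    exact (continuousAt_const).congr h1.symm
  · exact (contDiffAt_Hf hz).continuousAt

/-- the rotation curve -/
noncomputable def rc (z : W b) (t : ℝ) : W b := mk (Complex.exp (t * Complex.I) * z.fst) z.snd

lemma rc_zero (z : W b) : rc z 0 = z := by
  unfold rc
  simp only [Complex.ofReal_zero, zero_mul, Complex.exp_zero, one_mul]
  rfl

lemma hasDerivAt_rc (z : W b) : HasDerivAt (rc z) (Lr b z) 0 := by
  have h1 : HasDerivAt (fun t : ℝ => Complex.exp (t * Complex.I) * z.fst)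
      (Complex.I * z.fst) 0 := by
    have h2 : HasDerivAt (fun t : ℝ => (t : ℂ) * Complex.I) Complex.I 0 := by
      simpa using (Complex.ofRealCLM.hasDerivAt (x := (0 : ℝ))).mul_const Complex.I
    have h3 := (h2.cexp).mul_const z.fst
    simpa using h3
  have h4 : HasDerivAt (fun t : ℝ => (Complex.exp (t * Complex.I) * z.fst, z.snd))
      (Complex.I * z.fst, (0 : B b)) 0 := h1.prodMk (hasDerivAt_const 0 z.snd)
  have h5 := ((WithLp.prodContinuousLinearEquiv 2 ℝ ℂ (B b)).symm.toContinuousLinearMap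
    ).hasFDerivAt.comp_hasDerivAt (0 : ℝ) h4
  exact h5

lemma fst_rc (z : W b) (t : ℝ) : (rc z t).fst = Complex.exp (t * Complex.I) * z.fst := rfl

lemma norm_fst_rc (z : W b) (t : ℝ) : ‖(rc z t).fst‖ = ‖z.fst‖ := by
  rw [fst_rc, norm_mul, Complex.norm_exp_ofReal_mul_I, one_mul]

lemma Hf_rc (ε r₀ R₁ δ : ℝ) (z : W b) (t : ℝ) :
    Hf b ε r₀ R₁ δ (rc z t) = Hf b ε r₀ R₁ δ z := by
  have h2 : (rc z t).snd = z.snd := rfl
  unfold Hf chi Th
  rw [norm_fst_rc, h2]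

lemma fderiv_Gf {ε r₀ R₁ δ σ : ℝ} {u : ℂ} (hu : ‖u‖ = 1) (h0 : 0 < r₀) (hδ : 0 < δ)
    (hσ : 0 < σ) (z : W b) :
    fderiv ℝ (Gf b ε r₀ R₁ δ σ u) z (Lr b z) = Hf b ε r₀ R₁ δ z * kap σ (z.fst * u) := by
  rcases eq_or_ne z.fst 0 with hz | hz
  · have h1 : Lr b z = 0 := by
      unfold Lr
      rw [hz, mul_zero]
      rfl
    have h2 : Hf b ε r₀ R₁ δ z = 0 := by
      unfold Hf
      rw [hz, norm_zero, div_zero]
    rw [h1, map_zero, h2, zero_mul]
  · have hd : HasFDerivAt (Gf b ε r₀ R₁ δ σ u) (fderiv ℝ (Gf b ε r₀ R₁ δ σ u) z) z :=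
      ((contDiff_Gf u h0 hδ hσ).differentiable (by norm_num) z).hasFDerivAt
    have hd' : HasFDerivAt (Gf b ε r₀ R₁ δ σ u) (fderiv ℝ (Gf b ε r₀ R₁ δ σ u) z) (rc z 0) := by
      rw [rc_zero]; exact hd
    have h1 := hd'.comp_hasDerivAt (0 : ℝ) (hasDerivAt_rc z)
    have h2 : (Gf b ε r₀ R₁ δ σ u) ∘ (rc z) = fun t : ℝ => Hf b ε r₀ R₁ δ z *
        psi ((Complex.exp (t * Complex.I) * z.fst * u).im / (σ * ‖z.fst‖)) := by
      ext t
      simp only [Function.comp_apply, Gf]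
      rw [Hf_rc, norm_fst_rc, fst_rc]
    rw [h2] at h1
    have h3 : HasDerivAt (fun t : ℝ => Complex.exp (t * Complex.I) * z.fst * u)
        (Complex.I * (z.fst * u)) 0 := by
      have h2 : HasDerivAt (fun t : ℝ => (t : ℂ) * Complex.I) Complex.I 0 := by
        simpa using (Complex.ofRealCLM.hasDerivAt (x := (0 : ℝ))).mul_const Complex.I
      have h3 := ((h2.cexp).mul_const z.fst).mul_const u
      simpa [mul_assoc] using h3
    have h4 : HasDerivAt (fun t : ℝ => (Complex.exp (t * Complex.I) * z.fst * u).im)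
        (z.fst * u).re 0 := by
      have := Complex.imCLM.hasFDerivAt.comp_hasDerivAt (0 : ℝ) h3
      refine this.congr_deriv ?_
      simp
    have h5 := (h4.div_const (σ * ‖z.fst‖))
    have h6 : HasDerivAt (fun t : ℝ =>
        psi ((Complex.exp (t * Complex.I) * z.fst * u).im / (σ * ‖z.fst‖)))
        (dps ((z.fst * u).im / (σ * ‖z.fst‖)) * ((z.fst * u).re / (σ * ‖z.fst‖))) 0 := by
      have h7 := HasDerivAt.comp (0 : ℝ) (h₂ := psi)
        (h := fun t : ℝ => (Complex.exp (t * Complex.I) * z.fst * u).im / (σ * ‖z.fst‖))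
        (hasDerivAt_psi ((Complex.exp ((0 : ℝ) * Complex.I) * z.fst * u).im /
          (σ * ‖z.fst‖))) h5
      have h9 : dps ((Complex.exp ((0 : ℝ) * Complex.I) * z.fst * u).im / (σ * ‖z.fst‖)) =
          dps ((z.fst * u).im / (σ * ‖z.fst‖)) := by simp
      rw [h9] at h7
      exact h7
    have h8 := h6.const_mul (Hf b ε r₀ R₁ δ z)
    rw [h1.unique h8]
    unfold kap
    rw [norm_mul, hu, mul_one]

/-- the field -/
noncomputable def Ff (b : ℕ) (ε r₀ R₁ δ σ : ℝ) (u : ℂ) (z : W b) : W b :=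
  Gf b ε r₀ R₁ δ σ u z • Lr b z

lemma dv_Ff {ε r₀ R₁ δ σ : ℝ} {u : ℂ} (hu : ‖u‖ = 1) (h0 : 0 < r₀) (hδ : 0 < δ)
    (hσ : 0 < σ) (z : W b) :
    dv (Ff b ε r₀ R₁ δ σ u) z = Hf b ε r₀ R₁ δ z * kap σ (z.fst * u) := by
  have h1 := Div.dv_smul (g := Gf b ε r₀ R₁ δ σ u) (φ := Lr b) (x := z)
    ((contDiff_Gf u h0 hδ hσ).differentiable (by norm_num) z) (LrL b).differentiableAt
  rw [dv_Lr, mul_zero, zero_add, fderiv_Gf hu h0 hδ hσ] at h1
  exact h1

lemma tst_Ff {ε r₀ R₁ δ σ : ℝ} {u : ℂ} (hε : 0 < ε) (h0 : 0 < r₀) (hR : R₁ < 1) (hδ : 0 < δ)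
    (hσ : 0 < σ) : Tst (Om b ε) (Ff b ε r₀ R₁ δ σ u) := by
  have hsupp : Function.support (Ff b ε r₀ R₁ δ σ u) ⊆ Cc b ε r₀ R₁ δ := by
    intro z hz
    have h1 : chi b ε r₀ R₁ δ z ≠ 0 := by
      intro h
      apply hz
      unfold Ff Gf Hf
      rw [h, zero_div, zero_mul, zero_smul]
    obtain ⟨h2, h3, h4⟩ := chi_ne_zero hδ h1
    exact ⟨h2.le, h3.le, h4.le⟩
  have hts : tsupport (Ff b ε r₀ R₁ δ σ u) ⊆ Cc b ε r₀ R₁ δ :=
    closure_minimal hsupp (isClosed_Cc _ _ _ _)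
  refine ⟨(contDiff_Gf u h0 hδ hσ).smul (LrL b).contDiff, ?_, ?_, ?_⟩
  · exact (isCompact_Cc hε hR hδ).of_isClosed_subset (isClosed_tsupport _) hts
  · exact hts.trans (Cc_subset hε hR hδ)
  · intro z
    unfold Ff Gf Hf
    rw [norm_smul, norm_Lr, Real.norm_eq_abs, abs_mul, abs_div, abs_norm,
      abs_of_nonneg (chi_nonneg _ _ _ _ _)]
    rcases eq_or_ne z.fst 0 with hz | hz
    · rw [hz, norm_zero, mul_zero]
      exact zero_le_one
    · have hz' : 0 < ‖z.fst‖ := norm_pos_iff.2 hz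
      have h1 := abs_psi_le ((z.fst * u).im / (σ * ‖z.fst‖))
      have h2 := chi_le_one (b := b) ε r₀ R₁ δ z
      have h3 := chi_nonneg (b := b) ε r₀ R₁ δ z
      calc chi b ε r₀ R₁ δ z / ‖z.fst‖ * |psi ((z.fst * u).im / (σ * ‖z.fst‖))| * ‖z.fst‖
          = chi b ε r₀ R₁ δ z * |psi ((z.fst * u).im / (σ * ‖z.fst‖))| := by field_simp
        _ ≤ 1 * 1 := by gcongr
        _ = 1 := one_mul 1

lemma Hf_nonneg (ε r₀ R₁ δ : ℝ) (z : W b) : 0 ≤ Hf b ε r₀ R₁ δ z :=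
  div_nonneg (chi_nonneg _ _ _ _ _) (norm_nonneg _)

lemma Hf_le {ε r₀ R₁ δ : ℝ} (h0 : 0 < r₀) (hδ : 0 < δ) (z : W b) :
    Hf b ε r₀ R₁ δ z ≤ 1 / r₀ := by
  unfold Hf
  rcases eq_or_ne (chi b ε r₀ R₁ δ z) 0 with h | h
  · rw [h, zero_div]; positivity
  · have h1 := (chi_ne_zero hδ h).1
    exact div_le_div₀ zero_le_one (chi_le_one _ _ _ _ _) h0 h1.le

lemma Hf_supp {ε r₀ R₁ δ : ℝ} (hδ : 0 < δ) {z : W b} (h : Hf b ε r₀ R₁ δ z ≠ 0) :
    r₀ < ‖z.fst‖ ∧ ‖z.fst‖ < R₁ ∧ δ < Th b ε z := by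
  apply chi_ne_zero hδ
  intro h1
  apply h
  unfold Hf
  rw [h1, zero_div]

lemma hasCompactSupport_Hf {ε r₀ R₁ δ : ℝ} (hε : 0 < ε) (hR : R₁ < 1) (hδ : 0 < δ) :
    HasCompactSupport (Hf b ε r₀ R₁ δ) := by
  refine HasCompactSupport.intro (isCompact_Cc (b := b) (r₀ := r₀) hε hR hδ) ?_
  intro z hz
  by_contra h
  obtain ⟨h2, h3, h4⟩ := Hf_supp hδ h
  exact hz ⟨h2.le, h3.le, h4.le⟩

/-- the averaging identity -/
lemma integral_Hf_kap {ε r₀ R₁ δ σ : ℝ} {u : ℂ} (hu : ‖u‖ = 1) (hε : 0 < ε) (h0 : 0 < r₀)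
    (hR : R₁ < 1) (hδ : 0 < δ) (hσ : 0 < σ) (hσ1 : σ ≤ 1 / 2) :
    ∫ z, Hf b ε r₀ R₁ δ z * kapP σ (z.fst * u) = (1 / Real.pi) * ∫ z, Hf b ε r₀ R₁ δ z := by
  have hHi : Integrable (Hf b ε r₀ R₁ δ) :=
    (continuous_Hf h0 hδ).integrable_of_hasCompactSupport (hasCompactSupport_Hf hε hR hδ)
  have hkm : Measurable (fun z : W b => kapP σ (z.fst * u)) :=
    (measurable_kapP σ).comp ((continuous_fst.mul continuous_const).measurable)
  have hkb : ∀ w : ℂ, |kapP σ w| ≤ 3 / 2 / σ := by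
    intro w
    unfold kapP
    split_ifs
    · exact kap_abs_le hσ w
    · rw [abs_zero]; positivity
  have hHki : Integrable (fun z => Hf b ε r₀ R₁ δ z * kapP σ (z.fst * u)) := by
    apply hHi.mul_bdd (c := 3 / 2 / σ) hkm.aestronglyMeasurable
    exact Filter.Eventually.of_forall fun z => by rw [Real.norm_eq_abs]; exact hkb _
  have hmp := WithLp.volume_preserving_toLp ℂ (B b)
  have hme : MeasurableEmbedding (WithLp.toLp 2 : ℂ × B b → W b) :=
    (MeasurableEquiv.toLp 2 (ℂ × B b)).measurableEmbedding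
  have e : (volume : Measure (ℂ × B b)) = (volume : Measure ℂ).prod (volume : Measure (B b)) := rfl
  have e1 : ∀ f : W b → ℝ, Integrable f → ∫ z, f z = ∫ y : B b, ∫ x : ℂ, f (mk x y) := by
    intro f hf
    rw [← hmp.integral_comp hme f, e]
    have hf' : Integrable (fun p : ℂ × B b => f (WithLp.toLp 2 p))
        ((volume : Measure ℂ).prod (volume : Measure (B b))) := by
      rw [← e]
      exact (hmp.integrable_comp_emb hme).2 hf
    rw [integral_prod_symm _ hf']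
    rfl
  rw [e1 _ hHki, e1 _ hHi, ← integral_const_mul]
  refine integral_congr_ae (Filter.Eventually.of_forall fun y => ?_)
  change ∫ x : ℂ, Hf b ε r₀ R₁ δ (mk x y) * kapP σ (x * u) =
    1 / Real.pi * ∫ x : ℂ, Hf b ε r₀ R₁ δ (mk x y)
  exact polar_kap' hσ hσ1 hu (fun t => stp r₀ δ t * (1 - stp (R₁ - δ) δ t) *
    stp δ δ (ε ^ 2 * (1 - t) ^ 2 - ‖y‖ ^ 2) / t)

/-- the approximate form of T4 -/
lemma t4_approx {ε P r₀ R₁ δ σ : ℝ} {A : Set (W b)} {u : ℂ} (hε : 0 < ε) (hA : MeasurableSet A)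
    (hAO : A ⊆ Om b ε) (hP : PLE (Om b ε) A P) (hu : ‖u‖ = 1) (hσ : 0 < σ) (hσ1 : σ ≤ 1 / 2)
    (h0 : 0 < r₀) (hR : R₁ < 1) (hδ : 0 < δ) :
    (1 / Real.pi) * ∫ z, Hf b ε r₀ R₁ δ z ≤ P + 3 / (2 * σ * r₀) *
      (volume.real {z | z ∈ Om b ε \ A ∧ z.fst ∈ Wp u σ r₀ R₁} +
        volume.real {z | z ∈ A ∧ -z.fst ∈ Wp u σ r₀ R₁}) := by
  have hOm : MeasurableSet (Om b ε) := (isOpen_Om b ε).measurableSet
  have hWm : MeasurableSet (Wp u σ r₀ R₁) := by
    have e : Wp u σ r₀ R₁ = {x | r₀ ≤ ‖x‖} ∩ ({x | ‖x‖ ≤ R₁} ∩ ({x | 0 < (x * u).re} ∩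
        {x | |(x * u).im| ≤ σ * ‖x‖})) := rfl
    rw [e]
    refine (measurableSet_le measurable_const measurable_norm).inter
      ((measurableSet_le measurable_norm measurable_const).inter
      ((measurableSet_lt measurable_const ?_).inter (measurableSet_le ?_ ?_)))
    · exact (Complex.continuous_re.comp (continuous_id.mul continuous_const)).measurable
    · exact (Complex.continuous_im.comp (continuous_id.mul continuous_const)).abs.measurable
    · exact measurable_const.mul measurable_norm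
  set S1 : Set (W b) := {z | z ∈ Om b ε \ A ∧ z.fst ∈ Wp u σ r₀ R₁} with hS1
  set S2 : Set (W b) := {z | z ∈ A ∧ -z.fst ∈ Wp u σ r₀ R₁} with hS2
  have hS1m : MeasurableSet S1 := (hOm.diff hA).inter (continuous_fst.measurable hWm)
  have hS2m : MeasurableSet S2 := hA.inter (continuous_fst.neg.measurable hWm)
  have hfin := vol_Om_ne_top b hε
  have hS1f : volume S1 ≠ ⊤ := ne_top_of_le_ne_top hfin (measure_mono fun z hz => hz.1.1)
  have hS2f : volume S2 ≠ ⊤ := ne_top_of_le_ne_top hfin (measure_mono fun z hz => hAO hz.1)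
  have hT := tst_Ff (b := b) (u := u) (σ := σ) hε h0 hR hδ hσ
  have hPf := hP _ hT
  have hdvi : Integrable (dv (Ff b ε r₀ R₁ δ σ u)) := Div.integrable_dv hT.c1 hT.cs
  have hHi : Integrable (Hf b ε r₀ R₁ δ) :=
    (continuous_Hf h0 hδ).integrable_of_hasCompactSupport (hasCompactSupport_Hf hε hR hδ)
  have hkm : Measurable (fun z : W b => kapP σ (z.fst * u)) :=
    (measurable_kapP σ).comp ((continuous_fst.mul continuous_const).measurable)
  have hkb : ∀ w : ℂ, |kapP σ w| ≤ 3 / 2 / σ := by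
    intro w
    unfold kapP
    split_ifs
    · exact kap_abs_le hσ w
    · rw [abs_zero]; positivity
  have hHki : Integrable (fun z => Hf b ε r₀ R₁ δ z * kapP σ (z.fst * u)) := by
    apply hHi.mul_bdd (c := 3 / 2 / σ) hkm.aestronglyMeasurable
    exact Filter.Eventually.of_forall fun z => by rw [Real.norm_eq_abs]; exact hkb _
  rw [← integral_Hf_kap hu hε h0 hR hδ hσ hσ1]
  set C : ℝ := 3 / (2 * σ * r₀) with hC
  have hC0 : 0 ≤ C := by positivity
  -- pointwise inequality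
  have hpt : ∀ z : W b, Hf b ε r₀ R₁ δ z * kapP σ (z.fst * u) ≤
      A.indicator (dv (Ff b ε r₀ R₁ δ σ u)) z + (S1.indicator (fun _ => C) z +
        S2.indicator (fun _ => C) z) := by
    intro z
    have hS1n : 0 ≤ S1.indicator (fun _ => C) z := indicator_nonneg (fun _ _ => hC0) _
    have hS2n : 0 ≤ S2.indicator (fun _ => C) z := indicator_nonneg (fun _ _ => hC0) _
    rcases eq_or_ne (Hf b ε r₀ R₁ δ z) 0 with hH | hH
    · have h1 : A.indicator (dv (Ff b ε r₀ R₁ δ σ u)) z = 0 := by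
        by_cases hzA : z ∈ A
        · rw [indicator_of_mem hzA, dv_Ff hu h0 hδ hσ, hH, zero_mul]
        · rw [indicator_of_notMem hzA]
      rw [hH, zero_mul, h1]
      linarith
    obtain ⟨g1, g2, g3⟩ := Hf_supp hδ hH
    have hzO : z ∈ Om b ε := Cc_subset hε hR hδ ⟨g1.le, g2.le, g3.le⟩
    have hHC : ∀ k : ℝ, |k| ≤ 3 / 2 / σ → |Hf b ε r₀ R₁ δ z * k| ≤ C := by
      intro k hk
      rw [abs_mul, abs_of_nonneg (Hf_nonneg _ _ _ _ _)]
      calc Hf b ε r₀ R₁ δ z * |k| ≤ (1 / r₀) * (3 / 2 / σ) :=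
            mul_le_mul (Hf_le h0 hδ z) hk (abs_nonneg _) (by positivity)
        _ = C := by rw [hC]; field_simp
    have hnorm : ‖z.fst * u‖ = ‖z.fst‖ := by rw [norm_mul, hu, mul_one]
    by_cases hzA : z ∈ A
    · rw [indicator_of_mem hzA, dv_Ff hu h0 hδ hσ]
      unfold kapP
      split_ifs with hre
      · linarith
      · rw [mul_zero]
        rcases (not_lt.1 hre).eq_or_lt with hre0 | hre1
        · have : kap σ (z.fst * u) = 0 := by
            unfold kap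
            rw [hre0, zero_div, mul_zero]
          rw [this, mul_zero]
          linarith
        · by_cases him : σ * ‖z.fst * u‖ < |(z.fst * u).im|
          · rw [kap_zero hσ him, mul_zero]
            linarith
          · have hz2 : z ∈ S2 := by
              refine ⟨hzA, ?_, ?_, ?_, ?_⟩
              · rw [norm_neg]; exact g1.le
              · rw [norm_neg]; exact g2.le
              · rw [neg_mul, Complex.neg_re]; linarith
              · rw [neg_mul, Complex.neg_im, abs_neg, norm_neg, ← hnorm]; exact not_lt.1 him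
            rw [indicator_of_mem hz2]
            have := neg_le_of_abs_le (hHC _ (kap_abs_le hσ (z.fst * u)))
            linarith
    · rw [indicator_of_notMem hzA, zero_add]
      unfold kapP
      split_ifs with hre
      · by_cases him : σ * ‖z.fst * u‖ < |(z.fst * u).im|
        · rw [kap_zero hσ him, mul_zero]
          linarith
        · have hz1 : z ∈ S1 := by
            refine ⟨⟨hzO, hzA⟩, g1.le, g2.le, hre, ?_⟩
            rw [← hnorm]; exact not_lt.1 him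
          rw [indicator_of_mem hz1]
          have := le_of_abs_le (hHC _ (kap_abs_le hσ (z.fst * u)))
          linarith
      · rw [mul_zero]
        linarith
  have hi1 : Integrable (S1.indicator (fun _ => C)) :=
    (integrable_indicator_iff hS1m).2 (integrableOn_const hS1f (by simp))
  have hi2 : Integrable (S2.indicator (fun _ => C)) :=
    (integrable_indicator_iff hS2m).2 (integrableOn_const hS2f (by simp))
  have h1 := integral_mono hHki ((hdvi.indicator hA).add (hi1.add hi2)) hpt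
  have h2 : ∫ z, (A.indicator (dv (Ff b ε r₀ R₁ δ σ u)) z + (S1.indicator (fun _ => C) z +
        S2.indicator (fun _ => C) z)) = (∫ z in A, dv (Ff b ε r₀ R₁ δ σ u) z) +
        (volume.real S1 * C + volume.real S2 * C) := by
    have hi12 : Integrable (fun z => S1.indicator (fun _ => C) z + S2.indicator (fun _ => C) z) :=
      hi1.add hi2
    rw [integral_add (hdvi.indicator hA) hi12, integral_indicator hA,
      integral_add hi1 hi2, integral_indicator_const _ hS1m, integral_indicator_const _ hS2m,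
      smul_eq_mul, smul_eq_mul]
  have h3 : ∫ z, Hf b ε r₀ R₁ δ z * kapP σ (z.fst * u) ≤
      (∫ z in A, dv (Ff b ε r₀ R₁ δ σ u) z) + (volume.real S1 * C + volume.real S2 * C) := by
    rw [← h2]; exact h1
  calc _ ≤ _ := h3
    _ ≤ P + C * (volume.real S1 + volume.real S2) := by linarith

end

end Pool.Agent.W2helper3.Cone
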