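import Pool.Agent.W2helper3.Cone.Pair

set_option autoImplicit false

/-! # T6: large cones contain wedges with definite fibres -/

namespace Pool.Agent.W2helper3.Cone

open MeasureTheory Set Metric Filter Pool.Agent.TH703.Cone
open scoped ENNReal InnerProductSpace Topology Pointwise

lemma smul_mk {b : ℕ} (t : ℝ) (x : ℂ) (y : B b) : t • mk x y = mk ((t : ℂ) * x) (t • y) := by
  change mk (t • x) (t • y) = _
  rw [Complex.real_smul]

lemma add_mk {b : ℕ} (x x' : ℂ) (y y' : B b) : mk x y + mk x' y' = mk (x + x') (y + y') := rfl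

/-- a short vector in a large fibre -/
lemma short {b : ℕ} (hb : 1 ≤ b) {c ε : ℝ} (hc0 : 0 < c) (hε : 0 < ε) {G : Set (W b)}
    (hGo : IsOpen G) (hGs : ∀ z ∈ G, ∀ t : ℝ, 0 < t → t • z ∈ G)
    (hGa : ∀ z ∈ G, ∀ w ∈ G, z + w ∈ G) {x : ℂ} (hx : ‖x‖ < 1)
    (hF : ENNReal.ofReal (c / 4) * (ENNReal.ofReal (vb b ε) * wg b x) ≤
      volume (fib (Om b ε ∩ G) x)) :
    ∃ y ∈ fib (Om b ε ∩ G) x, ‖y‖ ≤ ε * Real.sqrt (8 / (c * b)) := by
  by_contra hcon
  push Not at hcon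
  have hbpos : (0 : ℝ) < b := by exact_mod_cast hb
  have hvb := vb_pos b hε
  set R : ℝ := ε * (1 - ‖x‖) with hR
  have hx1 : 0 < 1 - ‖x‖ := by linarith
  have hRpos : 0 < R := by positivity
  set h : ℝ := ε * Real.sqrt (8 / (c * b)) with hh
  have hhpos : 0 < h := by positivity
  have hSo : IsOpen (fib (Om b ε ∩ G) x) := by
    have : Continuous (fun y : B b => mk x y) :=
      continuous_mk.comp (f := fun y : B b => (x, y)) (by fun_prop)
    exact ((isOpen_Om b ε).inter hGo).preimage this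
  have hSc : Convex ℝ (fib (Om b ε ∩ G) x) := by
    rw [convex_iff_forall_pos]
    intro y hy y' hy' s t hs ht hst
    have e : mk x (s • y + t • y') = s • mk x y + t • mk x y' := by
      rw [smul_mk, smul_mk, add_mk, ← add_mul, ← Complex.ofReal_add, hst, Complex.ofReal_one,
        one_mul]
    refine ⟨?_, ?_⟩
    · change mk x (s • y + t • y') ∈ Om b ε
      rw [e]
      exact convex_Om b hε hy.1 hy'.1 hs.le ht.le hst
    · change mk x (s • y + t • y') ∈ G
      rw [e]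
      exact hGa _ (hGs _ hy.2 s hs) _ (hGs _ hy'.2 t ht)
  have hSR : fib (Om b ε ∩ G) x ⊆ ball 0 R := by
    intro y hy
    have : y ∈ fib (Om b ε) x := hy.1
    rwa [fib_Om hε] at this
  have h1 := cap hb hRpos hhpos hSo hSc hSR hcon
  have hvol : volume (ball (0 : B b) R) = ENNReal.ofReal (vb b ε) * wg b x := by
    rw [hR, volume_ball_scale b hb hε hx1.le, ENNReal.ofReal_mul hvb.le]
    rfl
  rw [hvol] at h1
  have h2 := hF.trans h1
  have hne0 : ENNReal.ofReal (vb b ε) * wg b x ≠ 0 := by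
    rw [← hvol]
    exact (measure_ball_pos _ _ hRpos).ne'
  have hnet : ENNReal.ofReal (vb b ε) * wg b x ≠ ⊤ := by
    rw [← hvol]
    exact measure_ball_lt_top.ne
  rw [ENNReal.mul_le_mul_iff_left hne0 hnet,
    ENNReal.ofReal_le_ofReal_iff (by positivity)] at h2
  have h3 : R ^ 2 / (b * h ^ 2) ≤ c / 8 := by
    have h4 : h ^ 2 = ε ^ 2 * (8 / (c * b)) := by
      rw [hh, mul_pow, Real.sq_sqrt (by positivity)]
    rw [div_le_iff₀ (by positivity), h4, hR]
    have h5 : c / 8 * (b * (ε ^ 2 * (8 / (c * b)))) = ε ^ 2 := by field_simp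
    rw [h5, mul_pow]
    have h6 : (1 - ‖x‖) ^ 2 ≤ 1 := by
      apply pow_le_one₀ hx1.le
      linarith [norm_nonneg x]
    nlinarith [sq_nonneg ε]
  linarith

theorem t6 (b : ℕ) (c K r₀ : ℝ) (hb : 4 ≤ b) (hc0 : 0 < c) (hc1 : c ≤ 1) (hK : 1 ≤ K)
    (hbK : 2048 * K ^ 2 ≤ c ^ 2 * b) (h0 : 0 < r₀) :
    ∃ σ η : ℝ, 0 < σ ∧ σ ≤ 1 / 2 ∧ 0 < η ∧ ∀ (ε : ℝ) (G : Set (W b)), 0 < ε →
      IsOpen G → (∀ z ∈ G, ∀ t : ℝ, 0 < t → t • z ∈ G) → (∀ z ∈ G, ∀ w ∈ G, z + w ∈ G) →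
      ENNReal.ofReal c * volume (Om b ε) ≤ volume (Om b ε ∩ G) →
      ∃ u : ℂ, ‖u‖ = 1 ∧ ∀ x ∈ Wp u σ r₀ (K / b),
        ENNReal.ofReal (η * vb b ε) ≤ volume (fib (Om b ε ∩ G) x) := by
  have hb1 : 1 ≤ b := by omega
  have hbr : (4 : ℝ) ≤ b := by exact_mod_cast hb
  have hbpos : (0 : ℝ) < b := by linarith
  have hM := mM_pos b
  set m : ℝ := c / 4 * mM b with hm
  have hmpos : 0 < m := by positivity
  set δ : ℝ := c / (4 * ((b + 1) * (b + 2))) with hδ
  have hδ0 : 0 < δ := by positivity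
  set t : ℝ := min (r₀ / 16) (1 / 8) with ht
  have ht0 : 0 < t := lt_min (by positivity) (by norm_num)
  have ht1 : t ≤ r₀ / 16 := min_le_left _ _
  have ht2 : t ≤ 1 / 8 := min_le_right _ _
  refine ⟨min (m / 32 / 8) (1 / 2), t ^ b * (c / 4) * δ ^ b, lt_min (by positivity) (by norm_num),
    min_le_right _ _, by positivity, ?_⟩
  intro ε G hε hGo hGs hGa hvol
  have hvb := vb_pos b hε
  set S : Set (W b) := Om b ε ∩ G with hS
  have hSo : IsOpen S := (isOpen_Om b ε).inter hGo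
  have htot : ENNReal.ofReal (c * (vb b ε * mM b)) ≤ ∫⁻ x, volume (fib S x) := by
    rw [← volume_eq_fib hSo.measurableSet, ENNReal.ofReal_mul hc0.le, ← volume_Om hb1 hε]
    exact hvol
  have hF : ∀ x, volume (fib S x) ≤
      (ball (0 : ℂ) 1).indicator (fun x => ENNReal.ofReal (vb b ε) * wg b x) x := by
    intro x
    have h1 : volume (fib S x) ≤ volume (fib (Om b ε) x) := measure_mono fun y hy => hy.1
    refine h1.trans ?_
    rw [volume_fib_Om hb1 hε]
    apply le_of_eq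
    congr 1
    ext x
    rw [ENNReal.ofReal_mul hvb.le]
    rfl
  have hmass := mass hb hc0 hc1 hvb (measurable_fib_vol hSo.measurableSet) hF htot
  set T : Set ℂ := {x : ℂ | Real.sqrt c / 2 / b ≤ ‖x‖ ∧
      ‖x‖ ≤ 1 - c / (4 * ((b + 1) * (b + 2))) ∧
      ENNReal.ofReal (c / 4) * (ENNReal.ofReal (vb b ε) * wg b x) ≤ volume (fib S x) ∧
      x ∈ ball (0 : ℂ) 1} with hT
  have hsc : 0 < Real.sqrt c := Real.sqrt_pos.2 hc0
  have hT0 : ∀ x ∈ T, x ≠ 0 := by
    intro x hx h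
    have h1 : Real.sqrt c / 2 / b ≤ ‖x‖ := hx.1
    rw [h, norm_zero] at h1
    have : 0 < Real.sqrt c / 2 / b := by positivity
    linarith
  obtain ⟨x1, hx1, x2, hx2, hγ, hκ⟩ := pair (fun x hx => hx.2.2.2) hT0 hmpos hmass
  obtain ⟨u, hu, hw⟩ := wedge (hT0 x1 hx1) (hT0 x2 hx2) hγ (by positivity : 0 < m / 32) hκ
  obtain ⟨y1, hy1, hy1n⟩ := short hb1 hc0 hε hGo hGs hGa
    (mem_ball_zero_iff.1 hx1.2.2.2) hx1.2.2.1
  obtain ⟨y2, hy2, hy2n⟩ := short hb1 hc0 hε hGo hGs hGa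
    (mem_ball_zero_iff.1 hx2.2.2.2) hx2.2.2.1
  refine ⟨u, hu, fun x hx => ?_⟩
  obtain ⟨hxr, hxR, hxre, hxim⟩ := hx
  have hxpos : 0 < ‖x‖ := h0.trans_le hxr
  obtain ⟨α, β, g1, g2, g3, g4, g5⟩ := hw x hxre (hxim.trans (by gcongr; exact min_le_left _ _))
  have hx1n : ‖x1‖ ≤ 1 := (mem_ball_zero_iff.1 hx1.2.2.2).le
  have hx2n : ‖x2‖ ≤ 1 := (mem_ball_zero_iff.1 hx2.2.2.2).le
  have hx1p : 0 < ‖x1‖ := norm_pos_iff.2 (hT0 x1 hx1)
  have hx2p : 0 < ‖x2‖ := norm_pos_iff.2 (hT0 x2 hx2)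
  have hαpos : 0 < α := by
    by_contra hc
    have := mul_nonpos_of_nonpos_of_nonneg (not_lt.1 hc) hx1p.le
    linarith
  have hβpos : 0 < β := by
    by_contra hc
    have := mul_nonpos_of_nonpos_of_nonneg (not_lt.1 hc) hx2p.le
    linarith
  have hα8 : r₀ / 8 ≤ α := by
    have : α * ‖x1‖ ≤ α * 1 := by gcongr
    linarith
  have hαt : 0 < α - t := by linarith
  -- upper bounds for the coefficients
  have hub : ∀ γ n : ℝ, 0 < γ → Real.sqrt c / 2 / b ≤ n → γ * n ≤ ‖x‖ →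
      γ ≤ 2 * K / Real.sqrt c := by
    intro γ n hγ hn hγn
    have h1 : γ * (Real.sqrt c / 2 / b) ≤ K / b := by
      calc γ * (Real.sqrt c / 2 / b) ≤ γ * n := by gcongr
        _ ≤ ‖x‖ := hγn
        _ ≤ K / b := hxR
    rw [le_div_iff₀ hsc]
    have h2 : γ * (Real.sqrt c / 2 / b) * (2 * b) = γ * Real.sqrt c := by field_simp
    have h3 : K / b * (2 * b) = 2 * K := by field_simp
    have h4 := mul_le_mul_of_nonneg_right h1 (by positivity : (0 : ℝ) ≤ 2 * b)
    rw [h2, h3] at h4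
    exact h4
  have hαu := hub α ‖x1‖ hαpos hx1.1 g3
  have hβu := hub β ‖x2‖ hβpos hx2.1 g4
  -- the smallness
  set lam : ℝ := Real.sqrt (8 / (c * b)) with hlam
  have hsmall : 2 * K / Real.sqrt c * lam ≤ 1 / 8 := by
    have h1 : (2 * K / Real.sqrt c * lam) ^ 2 ≤ (1 / 8) ^ 2 := by
      rw [mul_pow, div_pow, Real.sq_sqrt hc0.le, hlam, Real.sq_sqrt (by positivity)]
      have h2 : (2 * K) ^ 2 / c * (8 / (c * b)) = 32 * K ^ 2 / (c ^ 2 * b) := by
        field_simp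
        norm_num
      rw [h2, div_le_iff₀ (by positivity)]
      linarith
    exact le_of_sq_le_sq h1 (by norm_num)
  have hlam0 : 0 ≤ lam := Real.sqrt_nonneg _
  have hxhalf : ‖x‖ ≤ 1 / 2 := by
    refine hxR.trans ?_
    rw [div_le_iff₀ hbpos]
    have h1 : c ^ 2 ≤ 1 := pow_le_one₀ hc0.le hc1
    nlinarith
  -- the inclusion
  set p : B b := (α - t) • y1 + β • y2 with hp
  have hincl : (fun v => p + v) '' (t • fib S x1) ⊆ fib S x := by
    rintro _ ⟨_, ⟨y, hy, rfl⟩, rfl⟩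
    change mk x (p + t • y) ∈ S
    have e : mk x (p + t • y) = ((α - t) • mk x1 y1 + β • mk x2 y2) + t • mk x1 y := by
      rw [smul_mk, smul_mk, smul_mk, add_mk, add_mk, g5]
      congr 1
      push_cast
      ring
    refine ⟨?_, ?_⟩
    · rw [mem_Om]
      change ‖x‖ + ‖p + t • y‖ / ε < 1
      have hyn : ‖y‖ ≤ ε := by
        have h1 : y ∈ fib (Om b ε) x1 := hy.1
        rw [fib_Om hε, mem_ball_zero_iff] at h1
        nlinarith
      have h1 : ‖p + t • y‖ ≤ ε * (3 / 8) := by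
        calc ‖p + t • y‖ ≤ ‖(α - t) • y1‖ + ‖β • y2‖ + ‖t • y‖ := norm_add₃_le
          _ = (α - t) * ‖y1‖ + β * ‖y2‖ + t * ‖y‖ := by
              rw [norm_smul, norm_smul, norm_smul, Real.norm_of_nonneg hαt.le,
                Real.norm_of_nonneg hβpos.le, Real.norm_of_nonneg ht0.le]
          _ ≤ (2 * K / Real.sqrt c) * (ε * lam) + (2 * K / Real.sqrt c) * (ε * lam) +
              1 / 8 * ε := by
              gcongr
              linarith
          _ = ε * (2 * (2 * K / Real.sqrt c * lam) + 1 / 8) := by ring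
          _ ≤ ε * (2 * (1 / 8) + 1 / 8) := by gcongr
          _ = ε * (3 / 8) := by ring
      have h2 : ‖p + t • y‖ / ε ≤ 3 / 8 := by
        rw [div_le_iff₀ hε]; linarith
      linarith
    · rw [e]
      exact hGa _ (hGa _ (hGs _ hy1.2 _ hαt) _ (hGs _ hy2.2 _ hβpos)) _ (hGs _ hy.2 _ ht0)
  have hfr : Module.finrank ℝ (B b) = b := by simp
  have hvolimg : volume ((fun v => p + v) '' (t • fib S x1)) =
      ENNReal.ofReal (t ^ b) * volume (fib S x1) := by
    rw [image_add_left, measure_preimage_add, Measure.addHaar_smul, hfr,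
      abs_of_nonneg (by positivity)]
  calc ENNReal.ofReal (t ^ b * (c / 4) * δ ^ b * vb b ε)
      = ENNReal.ofReal (t ^ b) * (ENNReal.ofReal (c / 4) * (ENNReal.ofReal (vb b ε) *
          ENNReal.ofReal (δ ^ b))) := by
        rw [← ENNReal.ofReal_mul (by positivity), ← ENNReal.ofReal_mul (by positivity),
          ← ENNReal.ofReal_mul (by positivity)]
        congr 1
        ring
    _ ≤ ENNReal.ofReal (t ^ b) * (ENNReal.ofReal (c / 4) * (ENNReal.ofReal (vb b ε) *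
          wg b x1)) := by
        gcongr
        unfold wg
        apply ENNReal.ofReal_le_ofReal
        apply pow_le_pow_left₀ hδ0.le
        have h1 : ‖x1‖ ≤ 1 - c / (4 * ((b + 1) * (b + 2))) := hx1.2.1
        linarith
    _ ≤ ENNReal.ofReal (t ^ b) * volume (fib S x1) := by
        gcongr
        exact hx1.2.2.1
    _ = volume ((fun v => p + v) '' (t • fib S x1)) := hvolimg.symm
    _ ≤ volume (fib S x) := measure_mono hincl

end Pool.Agent.W2helper3.Cone
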