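import Pool.Agent.W2helper3.Cone.Base

set_option autoImplicit false

/-! # Volumes -/

namespace Pool.Agent.W2helper3.Cone

open MeasureTheory Set Metric Pool.Agent.TH703.Cone
open scoped ENNReal

lemma integral_radial (f : ℝ → ℝ) :
    ∫ x : ℂ, f ‖x‖ = 2 * Real.pi * ∫ y in Ioi (0 : ℝ), y * f y := by
  rw [integral_fun_norm_addHaar (volume : Measure ℂ) f, Complex.finrank_real_complex]
  have h : (volume : Measure ℂ).real (ball 0 1) = Real.pi := by
    rw [Measure.real, Complex.volume_ball]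
    simp
  rw [h]
  simp only [Nat.add_one_sub_one, pow_one, smul_eq_mul, nsmul_eq_mul, Nat.cast_ofNat]
  ring

/-- the integral of a radial function over an annulus -/
lemma integral_annulus {s r : ℝ} (hs : 0 ≤ s) (hsr : s ≤ r) (f : ℝ → ℝ) :
    ∫ x in {x : ℂ | s ≤ ‖x‖ ∧ ‖x‖ < r}, f ‖x‖ = 2 * Real.pi * ∫ y in s..r, y * f y := by
  have hm : MeasurableSet {x : ℂ | s ≤ ‖x‖ ∧ ‖x‖ < r} :=
    (measurableSet_le measurable_const measurable_norm).inter
      (measurableSet_lt measurable_norm measurable_const)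
  rw [← integral_indicator hm]
  have h1 : ∀ x : ℂ, {x : ℂ | s ≤ ‖x‖ ∧ ‖x‖ < r}.indicator (fun x => f ‖x‖) x =
      (Ico s r).indicator f ‖x‖ := by
    intro x
    by_cases hx : ‖x‖ ∈ Ico s r
    · rw [indicator_of_mem hx, indicator_of_mem (show x ∈ {x : ℂ | s ≤ ‖x‖ ∧ ‖x‖ < r} from hx)]
    · rw [indicator_of_notMem hx,
        indicator_of_notMem (show x ∉ {x : ℂ | s ≤ ‖x‖ ∧ ‖x‖ < r} from hx)]
  simp_rw [h1]
  rw [integral_radial]
  congr 1
  have h2 : ∀ y : ℝ, y * (Ico s r).indicator f y = (Ico s r).indicator (fun y => y * f y) y := by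
    intro y
    by_cases hy : y ∈ Ico s r
    · rw [indicator_of_mem hy, indicator_of_mem hy]
    · rw [indicator_of_notMem hy, indicator_of_notMem hy, mul_zero]
  simp_rw [h2]
  rw [setIntegral_indicator measurableSet_Ico, intervalIntegral.integral_of_le hsr]
  have h3 : (Ioi (0 : ℝ) ∩ Ico s r : Set ℝ) =ᵐ[volume] (Ioc s r : Set ℝ) := by
    have h4 : Ioo s r ⊆ Ioi (0 : ℝ) ∩ Ico s r := fun y hy =>
      ⟨lt_of_le_of_lt hs hy.1, hy.1.le, hy.2⟩
    have h5 : Ioi (0 : ℝ) ∩ Ico s r ⊆ Ico s r := inter_subset_right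
    have h6 : (Ioi (0 : ℝ) ∩ Ico s r : Set ℝ) =ᵐ[volume] (Ioo s r : Set ℝ) := by
      apply Filter.EventuallyLE.antisymm
      · exact (LE.le.eventuallyLE h5).trans Ioo_ae_eq_Ico.symm.le
      · exact LE.le.eventuallyLE h4
    exact h6.trans Ioo_ae_eq_Ioc
  exact setIntegral_congr_set h3

/-- the weight integral -/
lemma integral_weight (b : ℕ) (s r : ℝ) :
    ∫ y in s..r, y * (1 - y) ^ b =
      ((1 - s) ^ (b + 1) * (1 + (b + 1) * s) - (1 - r) ^ (b + 1) * (1 + (b + 1) * r)) /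
        ((b + 1) * (b + 2)) := by
  have hd : ∀ y : ℝ, HasDerivAt (fun y : ℝ => -((1 - y) ^ (b + 1) * (1 + (b + 1) * y)) /
      ((b + 1) * (b + 2))) (y * (1 - y) ^ b) y := by
    intro y
    have h1 : HasDerivAt (fun y : ℝ => 1 - y) (-1) y := by
      simpa using (hasDerivAt_id y).const_sub 1
    have h2 := h1.pow (b + 1)
    have h3 : HasDerivAt (fun y : ℝ => 1 + ((b : ℝ) + 1) * y) ((b : ℝ) + 1) y := by
      simpa using ((hasDerivAt_id y).const_mul ((b : ℝ) + 1)).const_add 1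
    have h4 := ((h2.mul h3).neg).div_const (((b : ℝ) + 1) * (b + 2))
    refine h4.congr_deriv ?_
    have h5 : (b : ℝ) + 1 ≠ 0 := by positivity
    have h6 : (b : ℝ) + 2 ≠ 0 := by positivity
    simp only [Nat.cast_add, Nat.cast_one, Nat.add_one_sub_one, Pi.pow_apply]
    field_simp
    ring
  rw [intervalIntegral.integral_eq_sub_of_hasDerivAt (fun y _ => hd y)]
  · ring
  · apply Continuous.intervalIntegrable
    fun_prop

lemma integral_pow_one_sub (b : ℕ) (s r : ℝ) :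
    ∫ y in s..r, (1 - y) ^ b = ((1 - s) ^ (b + 1) - (1 - r) ^ (b + 1)) / (b + 1) := by
  have hd : ∀ y : ℝ, HasDerivAt (fun y : ℝ => -((1 - y) ^ (b + 1)) / (b + 1)) ((1 - y) ^ b) y := by
    intro y
    have h1 : HasDerivAt (fun y : ℝ => 1 - y) (-1) y := by
      simpa using (hasDerivAt_id y).const_sub 1
    have h4 := ((h1.pow (b + 1)).neg).div_const ((b : ℝ) + 1)
    refine h4.congr_deriv ?_
    have h5 : (b : ℝ) + 1 ≠ 0 := by positivity
    simp only [Nat.cast_add, Nat.cast_one, Nat.add_one_sub_one]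
    field_simp
  rw [intervalIntegral.integral_eq_sub_of_hasDerivAt (fun y _ => hd y)]
  · ring
  · apply Continuous.intervalIntegrable
    fun_prop

/-- the weighted area of an annulus, as a lower Lebesgue integral -/
lemma lintegral_annulus_weight (b : ℕ) {s r : ℝ} (hs : 0 ≤ s) (hsr : s ≤ r) (hr : r ≤ 1) :
    ∫⁻ x in {x : ℂ | s ≤ ‖x‖ ∧ ‖x‖ < r}, ENNReal.ofReal ((1 - ‖x‖) ^ b) =
      ENNReal.ofReal (2 * Real.pi * (((1 - s) ^ (b + 1) * (1 + (b + 1) * s) -
        (1 - r) ^ (b + 1) * (1 + (b + 1) * r)) / ((b + 1) * (b + 2)))) := by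
  have hm : MeasurableSet {x : ℂ | s ≤ ‖x‖ ∧ ‖x‖ < r} :=
    (measurableSet_le measurable_const measurable_norm).inter
      (measurableSet_lt measurable_norm measurable_const)
  rw [← integral_weight, ← integral_annulus hs hsr, ← ofReal_integral_eq_lintegral_ofReal]
  · have : IntegrableOn (fun x : ℂ => (1 - ‖x‖) ^ b) (closedBall 0 1) := by
      apply ContinuousOn.integrableOn_compact (isCompact_closedBall _ _)
      fun_prop
    refine this.mono_set ?_
    intro x hx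
    rw [mem_closedBall_zero_iff]
    exact (hx.2.trans_le hr).le
  · rw [Filter.EventuallyLE, ae_restrict_iff' hm]
    refine Filter.Eventually.of_forall fun x hx => ?_
    have : ‖x‖ < r := hx.2
    have h2 : 0 ≤ 1 - ‖x‖ := by linarith
    exact pow_nonneg h2 b

/-- weighted area over the ball -/
lemma lintegral_ball_weight (b : ℕ) {r : ℝ} (hr0 : 0 ≤ r) (hr : r ≤ 1) :
    ∫⁻ x in ball (0 : ℂ) r, ENNReal.ofReal ((1 - ‖x‖) ^ b) =
      ENNReal.ofReal (2 * Real.pi * ((1 -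
        (1 - r) ^ (b + 1) * (1 + (b + 1) * r)) / ((b + 1) * (b + 2)))) := by
  have h := lintegral_annulus_weight b le_rfl hr0 hr
  have h2 : {x : ℂ | 0 ≤ ‖x‖ ∧ ‖x‖ < r} = ball (0 : ℂ) r := by
    ext x
    simp
  rw [h2] at h
  rw [h]
  simp

/-- the volume of the part of the body over a measurable set -/
lemma volume_Om_over {b : ℕ} {ε : ℝ} (hb : 1 ≤ b) (hε : 0 < ε) {T : Set ℂ} (hT : MeasurableSet T)
    (hT1 : T ⊆ ball 0 1) :
    volume {z | z ∈ Om b ε ∧ z.fst ∈ T} =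
      ENNReal.ofReal (vb b ε) * ∫⁻ x in T, ENNReal.ofReal ((1 - ‖x‖) ^ b) := by
  rw [volume_inter_fst (isOpen_Om b ε).measurableSet hT,
    ← lintegral_const_mul' _ _ ENNReal.ofReal_ne_top]
  refine setLIntegral_congr_fun hT fun x hx => ?_
  rw [volume_fib_Om hb hε, indicator_of_mem (hT1 hx)]
  exact ENNReal.ofReal_mul (vb_pos b hε).le

theorem t7b : S_T7b := by
  intro b ε r hb hε hr0 hr1
  have h1 : {z : W b | z ∈ Om b ε ∧ ‖z.fst‖ < r} = {z | z ∈ Om b ε ∧ z.fst ∈ ball (0 : ℂ) r} := by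
    ext z
    simp [mem_ball_zero_iff]
  rw [h1, volume_Om_over hb hε measurableSet_ball (ball_subset_ball hr1),
    lintegral_ball_weight b hr0 hr1, ← ENNReal.ofReal_mul (vb_pos b hε).le]

/-- the total mass constant -/
noncomputable def mM (b : ℕ) : ℝ := 2 * Real.pi / ((b + 1) * (b + 2))

lemma mM_pos (b : ℕ) : 0 < mM b := by
  unfold mM
  have := Real.pi_pos
  positivity

lemma volume_Om {b : ℕ} {ε : ℝ} (hb : 1 ≤ b) (hε : 0 < ε) :
    volume (Om b ε) = ENNReal.ofReal (vb b ε * mM b) := by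
  have h := t7b b ε 1 hb hε zero_le_one le_rfl
  have h1 : {z : W b | z ∈ Om b ε ∧ ‖z.fst‖ < 1} = Om b ε := by
    ext z
    simp only [mem_ofPred_eq, and_iff_left_iff_imp]
    intro hz
    rw [mem_Om] at hz
    have : 0 ≤ ‖z.snd‖ / ε := by positivity
    linarith
  rw [h1] at h
  rw [h, mM]
  congr 2
  simp
  field_simp

end Pool.Agent.W2helper3.Cone
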